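import Pool.Agent.MP_2ab689_gt.Hol.Spec

/-! Two nearly isotropic vectors with product near two. -/

namespace Pool.Agent.MP_2ab689_gt.Hol

open Pool.Agent.MP_2ab689_gt.Big Real Set
open scoped ComplexConjugate

namespace AlgA

theorem nn (u v : ℂ) : u * conj u + v * conj v = ((‖u‖ ^ 2 + ‖v‖ ^ 2 : ℝ) : ℂ) := by
  rw [Complex.mul_conj', Complex.mul_conj']
  push_cast
  rfl

theorem near {u v : ℂ} {e : ℝ} (h : ‖u * conj u + v * conj v - 4‖ ≤ e) :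
    4 ≤ ‖u‖ ^ 2 + ‖v‖ ^ 2 + e := by
  rw [nn, show (4 : ℂ) = ((4 : ℝ) : ℂ) by norm_num, ← Complex.ofReal_sub, Complex.norm_real,
    Real.norm_eq_abs] at h
  linarith [(abs_le.1 h).1]

theorem key {p q p' q' : ℂ} {ε : ℝ} (h1 : ‖p * q‖ ≤ 2 * ε) (h2 : ‖p' * q'‖ ≤ 2 * ε)
    (h3 : ‖p * conj p + q * conj q - 4‖ ≤ 4 * ε) (h4 : ‖p' * conj p' + q' * conj q' - 4‖ ≤ 4 * ε)
    (h5 : ‖p * conj p' + q * conj q' - 4‖ ≤ 4 * ε) (hq : ‖q‖ ≤ ‖p‖) :
    ‖p - p'‖ ≤ 40 * ε ∧ ‖q - q'‖ ≤ 40 * ε := by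
  have e0 : 0 ≤ ε := by linarith [norm_nonneg (p * q)]
  have sq : ‖p - p'‖ ^ 2 + ‖q - q'‖ ^ 2 ≤ 16 * ε := by
    have e : ((‖p - p'‖ ^ 2 + ‖q - q'‖ ^ 2 : ℝ) : ℂ) = (p * conj p + q * conj q - 4) +
        (p' * conj p' + q' * conj q' - 4) - (p * conj p' + q * conj q' - 4) -
        conj (p * conj p' + q * conj q' - 4) := by
      rw [← nn]
      simp only [map_sub, map_add, map_mul, Complex.conj_conj, map_ofNat]
      ring
    have k := Complex.re_le_norm ((‖p - p'‖ ^ 2 + ‖q - q'‖ ^ 2 : ℝ) : ℂ)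
    rw [Complex.ofReal_re, e] at k
    have k1 := (norm_sub_le _ _).trans (add_le_add ((norm_sub_le _ _).trans (add_le_add
      ((norm_add_le _ _).trans (add_le_add h3 h4)) h5)) ((Complex.norm_conj _).trans_le h5))
    linarith
  have a := norm_nonneg (p - p')
  have b := norm_nonneg (q - q')
  by_cases c : 1 / 100 ≤ ε
  · constructor <;> refine abs_le_of_sq_le_sq' ?_ (by linarith) |>.2 <;> nlinarith
  rw [not_le] at c
  have q0 := norm_nonneg q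
  have q0' := norm_nonneg q'
  rw [norm_mul] at h1 h2
  have p1 : 7 / 5 ≤ ‖p‖ := by
    by_contra k
    nlinarith [near h3, not_le.1 k]
  have p2 : ‖p - p'‖ ≤ 2 / 5 := by
    by_contra k
    nlinarith [not_le.1 k]
  have p3 : 1 ≤ ‖p'‖ := by linarith [norm_sub_norm_le p p']
  have q1 : ‖q‖ ≤ 2 * ε := by nlinarith
  have q2 : ‖q'‖ ≤ 2 * ε := by nlinarith
  have q3 : ‖q - q'‖ ≤ 4 * ε := by linarith [norm_sub_le q q']
  refine ⟨?_, by linarith⟩
  have e : p * conj (p - p') = (p * conj p + q * conj q - 4) -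
      (p * conj p' + q * conj q' - 4) - q * conj (q - q') := by
    simp only [map_sub]
    ring
  have k := (norm_sub_le _ (q * conj (q - q'))).trans (add_le_add ((norm_sub_le _ _).trans
    (add_le_add h3 h5)) le_rfl)
  rw [← e, norm_mul, norm_mul, Complex.norm_conj, Complex.norm_conj] at k
  nlinarith [mul_le_mul q1 q3 b (by linarith)]

theorem sq_bd {a1 a2 a3 : ℂ} {ε : ℝ} (h : ‖a1 * a1 + a2 * a2 + a3 * a3‖ ≤ ε) (k : ‖a3‖ ^ 2 ≤ ε) :
    ‖(a1 + Complex.I * a2) * (a1 - Complex.I * a2)‖ ≤ 2 * ε := by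
  have e : (a1 + Complex.I * a2) * (a1 - Complex.I * a2) =
      a1 * a1 + a2 * a2 + a3 * a3 - a3 * a3 := by
    linear_combination (-(a2 * a2)) * Complex.I_mul_I
  have := norm_sub_le (a1 * a1 + a2 * a2 + a3 * a3) (a3 * a3)
  rw [← e, norm_mul a3] at this
  linarith

theorem her_bd {a1 a2 a3 b1 b2 b3 : ℂ} {ε : ℝ}
    (h : ‖a1 * conj b1 + a2 * conj b2 + a3 * conj b3 - 2‖ ≤ ε) (k : ‖a3‖ ^ 2 ≤ ε)
    (k' : ‖b3‖ ^ 2 ≤ ε) : ‖(a1 + Complex.I * a2) * conj (b1 + Complex.I * b2) +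
      (a1 - Complex.I * a2) * conj (b1 - Complex.I * b2) - 4‖ ≤ 4 * ε := by
  have e : (a1 + Complex.I * a2) * conj (b1 + Complex.I * b2) +
      (a1 - Complex.I * a2) * conj (b1 - Complex.I * b2) - 4 =
      2 * (a1 * conj b1 + a2 * conj b2 + a3 * conj b3 - 2 - a3 * conj b3) := by
    simp only [map_add, map_sub, map_mul, Complex.conj_I]
    linear_combination (-(2 * a2 * conj b2)) * Complex.I_mul_I
  have := norm_sub_le (a1 * conj b1 + a2 * conj b2 + a3 * conj b3 - 2) (a3 * conj b3)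
  rw [norm_mul, Complex.norm_conj] at this
  rw [e, norm_mul, Complex.norm_two]
  nlinarith [sq_nonneg (‖a3‖ - ‖b3‖)]

end AlgA

theorem algS : AlgS := by
  refine ⟨40, by norm_num, fun a1 a2 a3 b1 b2 b3 ε h1 h2 h3 h4 h5 h6 h7 => ?_⟩
  have u1 := AlgA.sq_bd h4 h6
  have u2 := AlgA.sq_bd h5 h7
  have u3 := AlgA.her_bd h1 h6 h6
  have u4 := AlgA.her_bd h2 h7 h7
  have u5 := AlgA.her_bd h3 h6 h7
  have e0 : 0 ≤ ε := (norm_nonneg _).trans h1
  refine and_assoc.1 ⟨?_, by linarith [AlgA.near u3]⟩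
  rcases le_total ‖a1 - Complex.I * a2‖ ‖a1 + Complex.I * a2‖ with k | k
  · exact AlgA.key u1 u2 u3 u4 u5 k
  · exact (AlgA.key (by rwa [mul_comm]) (by rwa [mul_comm]) (by rwa [add_comm])
      (by rwa [add_comm]) (by rwa [add_comm]) k).symm

end Pool.Agent.MP_2ab689_gt.Hol
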