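import Pool.Agent.MP_2ab689_gt.Hol.Spec

/-!
Chains of variable step, holonomy, the nearest flag, the distance to the defects.
-/

namespace Pool.Agent.MP_2ab689_gt.Hol

open Pool.Agent.MP_2ab689_gt.Big Real Set

namespace ChnA

theorem chain (ξ : ℕ → ℂ) (lam : ℂ) (n : ℕ → ℕ) (e : ℕ → ℝ) (L : ℕ) (h1 : ‖lam‖ = 1)
    (h2 : ∀ l, 0 ≤ e l) (h3 : ∀ l, 1 ≤ n l ∧ n l ≤ L ∧ ∀ k ≤ n l,
      ‖ξ (l + k) - lam ^ k * ξ l‖ ≤ ∑ m ∈ Finset.Ico l (l + n l), e m) (j : ℕ) :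
    ∀ l, l + j = L → ‖ξ L - lam ^ j * ξ l‖ ≤ ∑ m ∈ Finset.Ico l (2 * L), e m := by
  induction j using Nat.strong_induction_on with
  | _ j ih =>
    intro l hl
    obtain ⟨a1, a2, a3⟩ := h3 l
    rcases le_or_gt j (n l) with k | k
    · have := a3 j k
      rw [hl] at this
      exact this.trans (Finset.sum_le_sum_of_subset_of_nonneg
        (Finset.Ico_subset_Ico_right (by omega)) fun _ _ _ => h2 _)
    · obtain ⟨i, rfl⟩ := Nat.exists_eq_add_of_le' k.le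
      have b1 := ih i (by omega) (l + n l) (by omega)
      rw [← Finset.sum_Ico_consecutive e (Nat.le_add_right l (n l)) (by omega : l + n l ≤ 2 * L),
        show ξ L - lam ^ (i + n l) * ξ l = lam ^ i * (ξ (l + n l) - lam ^ n l * ξ l) +
          (ξ L - lam ^ i * ξ (l + n l)) by ring]
      refine (norm_add_le _ _).trans (add_le_add ?_ b1)
      rw [norm_mul, norm_pow, h1, one_pow, one_mul]
      exact a3 _ le_rfl

theorem hol (s : ℝ) (h1 : 1 / 18 ≤ |s|) (h2 : |s| ≤ 1 / 9) :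
    1 ≤ ‖1 - Complex.exp (((s * (2 * π) : ℝ) : ℂ) * Complex.I) ^ 6‖ := by
  refine le_trans ?_ (Complex.re_le_norm _)
  rw [← Complex.exp_nat_mul, ← mul_assoc, ← Complex.ofReal_natCast, ← Complex.ofReal_mul,
    Complex.sub_re, Complex.exp_ofReal_mul_I_re, Complex.one_re, ← cos_abs, abs_mul, abs_mul,
    abs_of_pos (by positivity : 0 < 2 * π), Nat.abs_cast]
  have := cos_nonpos_of_pi_div_two_le_of_le (x := ((6 : ℕ) : ℝ) * (|s| * (2 * π)))
    (by push_cast; nlinarith [pi_pos]) (by push_cast; nlinarith [pi_pos])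
  linarith

theorem six (a b w : ℂ) (B : ℝ) (hw : w ^ 6 = 1) (ha : ‖a‖ ≤ B) (hb : ‖b‖ ≤ B) :
    ‖b ^ 6 - a ^ 6‖ ≤ 6 * B ^ 5 * ‖b - w * a‖ := by
  have h1 : ‖w‖ = 1 := by
    have h := congrArg norm hw
    rw [norm_pow, norm_one] at h
    exact (pow_eq_one_iff_of_nonneg (norm_nonneg _) (by norm_num)).1 h
  have h2 : ‖w * a‖ ≤ B := by rwa [norm_mul, h1, one_mul]
  have h0 := (norm_nonneg a).trans ha
  rw [show b ^ 6 - a ^ 6 = b ^ 6 - (w * a) ^ 6 by rw [mul_pow, hw, one_mul],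
    ← (Commute.all b (w * a)).geom_sum₂_mul, norm_mul]
  refine mul_le_mul_of_nonneg_right ((norm_sum_le _ _).trans ?_) (norm_nonneg _)
  refine (Finset.sum_le_card_nsmul _ _ (B ^ 5) fun i hi => ?_).trans (by simp)
  have h3 : i + (6 - 1 - i) = 5 := by
    have := Finset.mem_range.1 hi
    omega
  rw [norm_mul, norm_pow, norm_pow, ← h3, pow_add]
  gcongr

variable {ι Φ : Type} [Fintype ι] [Fintype Φ] (M : Mesh ι Φ)

theorem flag (h : ℝ) (F : M.Fine h) (h1 : h ≤ 1 / 100) (c : V) (hc : ip c c = 1) :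
    ∃ d, nv (M.A d - c) ≤ 100 * h := by
  have h0 := F.pos
  have h2 : (48 * h) ^ 2 ≤ 24 * h := by nlinarith
  obtain ⟨d, hd⟩ := M.cover _ (F.ball ((1 - (48 * h) ^ 2) • c) (by
    rw [ip_smul_left, ip_smul_right, hc]; exact le_of_eq (by ring)))
  obtain ⟨α, β, γ, a1, a2, a3, a4, e⟩ := Mesh.mem_Spx.1 hd
  change _ = α • M.A d + β • M.B d + γ • M.C d at e
  have b1 := nv_comb (M.uA d) (M.uB d) (M.uC d) a1 a2 a3
  rw [← e, nv_smul, nv_eq_one hc, abs_of_nonneg (by linarith), mul_one] at b1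
  have b2 := M.nv_AB (by positivity) F.edge d
  have b3 := M.nv_AC (by positivity) F.edge d
  have b4 : M.A d - c = (1 - (α + β + γ)) • M.A d + β • (M.A d - M.B d) + γ • (M.A d - M.C d) +
      (-(48 * h) ^ 2) • c := by
    linear_combination (norm := module) -e
  refine ⟨d, ?_⟩
  rw [b4]
  refine (nv_add _ _).trans ((add_le_add_left ((nv_add _ _).trans
    (add_le_add_left (nv_add _ _) _)) _).trans ?_)
  rw [nv_smul, nv_smul, nv_smul, nv_smul, nv_eq_one hc, nv_eq_one (M.uA d), abs_neg,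
    abs_of_nonneg a2, abs_of_nonneg a3, abs_of_nonneg (sq_nonneg (48 * h)),
    abs_of_nonneg (sub_nonneg.2 a4)]
  nlinarith [mul_le_mul_of_nonneg_left b2 a2, mul_le_mul_of_nonneg_left b3 a3]

theorem tau (r0 : ℝ) : ∃ τ, Tau M τ r0 := by
  classical
  have key : ∀ x : V, ∃ t, t ≤ r0 ∧ (∀ v, M.deg v ≠ 6 → t ≤ nv (x - M.p v)) ∧
      (t = r0 ∨ ∃ v, M.deg v ≠ 6 ∧ t = nv (x - M.p v)) := by
    intro x
    by_cases k : ∀ v, M.deg v ≠ 6 → r0 ≤ nv (x - M.p v)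
    · exact ⟨r0, le_rfl, k, Or.inl rfl⟩
    push Not at k
    obtain ⟨u, u1, u2⟩ := k
    obtain ⟨v, v1, v2⟩ := Finset.exists_min_image (Finset.univ.filter fun v => M.deg v ≠ 6)
      (fun v => nv (x - M.p v)) ⟨u, by simpa using u1⟩
    exact ⟨_, (v2 u (by simpa using u1)).trans u2.le, fun w hw => v2 w (by simpa using hw),
      Or.inr ⟨v, by simpa using v1, rfl⟩⟩
  choose τ t1 t2 t3 using key
  refine ⟨τ, t1, fun x y => ?_, t2, t3⟩
  rcases t3 y with k | ⟨v, k1, k2⟩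
  · linarith [t1 x, nv_nonneg (x - y)]
  · linarith [t2 x v k1, nv_tri x y (M.p v)]

end ChnA

theorem chnS : ChnS :=
  ⟨fun ξ lam n e L h1 h2 h3 => by
    rw [Finset.range_eq_Ico]
    exact ChnA.chain ξ lam n e L h1 h2 h3 L 0 (Nat.zero_add L), ChnA.hol, ChnA.six,
    fun _ _ _ _ M => ⟨ChnA.flag M, ChnA.tau M⟩⟩

end Pool.Agent.MP_2ab689_gt.Hol
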