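import Pool.Agent.MP_2ab689_gt.Hol.Spec

/-! Two charts in a cap without defects have a common vertex. -/

namespace Pool.Agent.MP_2ab689_gt.Hol

open Pool.Agent.MP_2ab689_gt.Big Real Set

namespace CmpA

theorem const_le : 2 * π / √3 ≤ 4 := by
  have h3 : (17 / 10 : ℝ) ≤ √3 := Real.le_sqrt_of_sq_le (by norm_num)
  rw [div_le_iff₀ (by positivity)]
  linarith [Real.pi_lt_d2]

theorem pick (P : ℤ × ℤ → V) {h U D : ℝ} (hh : 0 < h) (hU : 100 ≤ U)
    (hD : dev P h (4000 * U) ≤ h ^ 2 * (4000 * U) ^ 4 * D) :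
    ∃ y1, ‖zz y1‖ ≤ U ∧ ∃ G : Finset (ℤ × ℤ),
      (∀ v ∈ G, ‖zz v‖ ≤ 4000 * U ∧ nv (P (y1 + v) - P y1) ≤ 4200 * U * h) ∧
      48 * 10 ^ 6 * U ^ 2 ≤ G.card + 10 ^ 8 * D := by
  classical
  have U0 : 0 < U := by linarith
  have t0 : 0 ≤ 4000 * U := by positivity
  let f : ℤ × ℤ → ℤ × ℤ → ℝ := fun y v =>
    |ip (P (y + v) - P y) (P (y + v) - P y) - h ^ 2 * qf v|
  let S : ℤ × ℤ → ℝ := fun y => ∑ v ∈ Lat ((4000 * U) ^ 2), f y v
  have S0 : ∀ y, 0 ≤ S y := fun y => Finset.sum_nonneg fun _ _ => abs_nonneg _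
  have c1 := (card_Lat hU).1
  have ne : (Lat (U ^ 2)).Nonempty := ⟨0, (mem_Lat U0.le).2 (by rw [zz_zero, norm_zero]; exact U0.le)⟩
  obtain ⟨y1, hy, hm⟩ := Finset.exists_min_image (Lat (U ^ 2)) S ne
  have a1 : ((Lat (U ^ 2)).card : ℝ) * S y1 ≤ ∑ y ∈ Lat (U ^ 2), S y := by
    rw [← nsmul_eq_mul]
    exact Finset.card_nsmul_le_sum _ _ _ hm
  have a2 : ∑ y ∈ Lat (U ^ 2), S y ≤ dev P h (4000 * U) :=
    Finset.sum_le_sum_of_subset_of_nonneg (fun y hy => (mem_Lat t0).2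
      (((mem_Lat U0.le).1 hy).trans (by linarith))) fun y _ _ => S0 y
  have a3 : 3 * U ^ 2 * S y1 ≤ h ^ 2 * (4000 * U) ^ 4 * D :=
    (mul_le_mul_of_nonneg_right c1 (S0 y1)).trans (a1.trans (a2.trans hD))
  let q : ℤ × ℤ → Prop := fun v => nv (P (y1 + v) - P y1) ≤ 4200 * U * h
  refine ⟨y1, (mem_Lat U0.le).1 hy, (Lat ((4000 * U) ^ 2)).filter q, fun v hv =>
    ⟨(mem_Lat t0).1 (Finset.mem_filter.1 hv).1, (Finset.mem_filter.1 hv).2⟩, ?_⟩
  have c2 := (card_Lat (u := 4000 * U) (by linarith)).1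
  have c3 : (((Lat ((4000 * U) ^ 2)).filter q).card : ℝ) +
      ((Lat ((4000 * U) ^ 2)).filter fun v => ¬ q v).card = (Lat ((4000 * U) ^ 2)).card := by
    exact_mod_cast Finset.card_filter_add_card_filter_not q
  have b1 : (((Lat ((4000 * U) ^ 2)).filter fun v => ¬ q v).card : ℝ) *
      (16 * 10 ^ 5 * (U * h) ^ 2) ≤ S y1 := by
    rw [← nsmul_eq_mul]
    refine (Finset.card_nsmul_le_sum _ (f y1) _ fun v hv => ?_).trans
      (Finset.sum_le_sum_of_subset_of_nonneg (Finset.filter_subset _ _) fun _ _ _ => abs_nonneg _)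
    obtain ⟨v1, v2⟩ := Finset.mem_filter.1 hv
    have e1 := (Lat.mem_iff _ v).1 v1
    have e2 : ¬ _ := fun k => v2 ((nv_le_iff (by positivity)).2 k)
    refine le_trans ?_ (le_abs_self _)
    have e3 := mul_le_mul_of_nonneg_left e1 (sq_nonneg h)
    have e4 := sq_nonneg (U * h)
    nlinarith [not_le.1 e2]
  set b : ℝ := (((Lat ((4000 * U) ^ 2)).filter fun v => ¬ q v).card : ℝ) with hb
  have b0 : 0 ≤ b := Nat.cast_nonneg _
  have p0 : 0 < U ^ 4 * h ^ 2 := by positivity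
  have b2 : U ^ 4 * h ^ 2 * (48 * 10 ^ 5 * b) ≤ U ^ 4 * h ^ 2 * (4000 ^ 4 * D) := by
    have := mul_le_mul_of_nonneg_left b1 (show 0 ≤ 3 * U ^ 2 by positivity)
    calc _ = 3 * U ^ 2 * (b * (16 * 10 ^ 5 * (U * h) ^ 2)) := by ring
      _ ≤ _ := this.trans a3
      _ = _ := by ring
  have b3 := le_of_mul_le_mul_left b2 p0
  nlinarith

end CmpA

theorem cmpS (h1 : GrpS) (h2 : CntS) (h3 : RigS) : CmpS := by
  classical
  obtain ⟨C2, g2, C20, g20, h2⟩ := h2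
  obtain ⟨C3, g3, C30, g30, h3⟩ := h3
  refine ⟨10 ^ 5 * C3 + C2, min g2 g3, by positivity, lt_min g20 g30, ?_⟩
  intro ι Φ _ _ M h hF hh c R U d d' hc hU hd hd' hR hC
  have h0 := hF.pos
  have U0 : 0 < U := by linarith
  have Uh : 100 * h ≤ U * h := mul_le_mul_of_nonneg_right hU h0.le
  have Y0 := YY_nonneg M h c R
  set Y := YY M h c R with hY
  have key : ∀ e, nv (M.A e - c) ≤ U * h → ∃ G : Finset (ℤ × ℤ), ∃ y1 : ℤ × ℤ,
      (∀ v ∈ G, ‖zz (y1 + v)‖ ≤ 5000 * U ∧ nv (cp M e (y1 + v) - c) ≤ 4400 * U * h) ∧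
      48 * 10 ^ 6 * U ^ 2 ≤
        ((G.image fun v => M.tl (M.ch (y1 + v).1 (y1 + v).2 e)).card : ℝ) +
          10 ^ 8 * (C3 * (4000 * U + Y)) := by
    intro e he
    have r := h3 ι Φ M h hF (hh.trans (min_le_right _ _)) c R (4000 * U) e hc (by linarith)
      (by nlinarith)
    obtain ⟨y1, a, G, b1, b2⟩ := CmpA.pick (cp M e) (D := C3 * (4000 * U + Y)) h0 hU
      (r.trans_eq (by ring))
    have n : ∀ v ∈ G, ‖zz (y1 + v)‖ ≤ 5000 * U := fun v hv => by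
      rw [zz_add]
      linarith [norm_add_le (zz y1) (zz v), (b1 v hv).1]
    refine ⟨G, y1, fun v hv => ⟨n v hv, ?_⟩, ?_⟩
    · have e1 := cp_near M (ℓ := 48 * h) (by positivity) hF.edge e y1
      have e2 := mul_le_mul_of_nonneg_right a h0.le
      have e3 := nv_tri (cp M e (y1 + v)) (cp M e y1) c
      have e4 := nv_tri (cp M e y1) (M.A e) c
      nlinarith [(b1 v hv).2]
    · rw [Finset.card_image_of_injOn]
      · exact b2
      · intro v hv v' hv' k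
        exact add_left_cancel ((h1 ι Φ M (48 * h) (by positivity) hF.edge c R (5000 * U) e hc
          (by positivity) (by nlinarith)).2.1 _ _ (n v hv) (n v' hv') k)
  obtain ⟨G, y1, a1, a2⟩ := key d hd
  obtain ⟨G', y1', b1, b2⟩ := key d' hd'
  by_contra hn
  have dj : Disjoint (G.image fun v => M.tl (M.ch (y1 + v).1 (y1 + v).2 d))
      (G'.image fun v => M.tl (M.ch (y1' + v).1 (y1' + v).2 d')) := by
    refine Finset.disjoint_left.2 fun x hx hx' => ?_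
    obtain ⟨v, v1, v2⟩ := Finset.mem_image.1 hx
    obtain ⟨v', v1', v2'⟩ := Finset.mem_image.1 hx'
    exact hn ⟨_, _, (a1 v v1).1, (b1 v' v1').1, v2.trans v2'.symm⟩
  have s0 : 0 ≤ 4400 * U * h := by positivity
  have s1 : 4400 * U * h ≤ 1 := by nlinarith [hc.2.1]
  have r := h2 ι Φ M h hF (hh.trans (min_le_left _ _)) c c ((4400 * U * h) ^ 2) R hc.1
    (sq_nonneg _) (pow_le_one₀ s0 s1)
    (by rw [sub_self, nv_zero, Real.sqrt_sq s0]; nlinarith) _ (fun x hx => by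
      have k : nv (M.p x - c) ≤ 4400 * U * h := by
        rcases Finset.mem_union.1 hx with hx | hx
        · obtain ⟨v, v1, rfl⟩ := Finset.mem_image.1 hx
          exact (a1 v v1).2
        · obtain ⟨v, v1, rfl⟩ := Finset.mem_image.1 hx
          exact (b1 v v1).2
      exact ⟨hc.2.2 x (k.trans_lt (by nlinarith)), (nv_le_iff s0).1 k⟩ :
      ∀ x ∈ (G.image fun v => M.tl (M.ch (y1 + v).1 (y1 + v).2 d)) ∪
        (G'.image fun v => M.tl (M.ch (y1' + v).1 (y1' + v).2 d')), _)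
  rw [Finset.card_union_of_disjoint dj, Real.sqrt_sq s0, Nat.cast_add, ← hY,
    show (4400 * U * h) ^ 2 / h ^ 2 = 4400 ^ 2 * U ^ 2 by field_simp,
    show 4400 * U * h / h = 4400 * U by field_simp] at r
  have e1 := mul_le_mul_of_nonneg_right CmpA.const_le
    (show 0 ≤ (4400 : ℝ) ^ 2 * U ^ 2 by positivity)
  have e2 := mul_nonneg C20.le Y0
  have e3 := mul_nonneg C30.le Y0
  have e4 := mul_pos C20 U0
  have e5 := mul_pos C30 U0
  have e6 := mul_le_mul_of_nonneg_left hU C20.le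
  have e7 := pow_pos U0 2
  nlinarith

end Pool.Agent.MP_2ab689_gt.Hol
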