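import Pool.Agent.MP_2ab689_gt.Hol.Spec

/-!
Row CNT: the number of vertices of degree six in a small cap.
-/

namespace Pool.Agent.MP_2ab689_gt.Hol

open Pool.Agent.MP_2ab689_gt.Big Real Set

namespace CntA

theorem final {u s h Y C r : ℝ} (hh : 0 < h) (hY : 0 ≤ Y) (hr : 0 ≤ r) (hC : 0 ≤ C)
    (key : 3 * √3 * h ^ 2 * u ≤ 6 * π * s + C * (h * r + h ^ 2 + h ^ 2 * Y)) :
    u ≤ 2 * π / √3 * (s / h ^ 2) + C * (r / h + 1 + Y) := by
  have q1 : (1 : ℝ) ≤ √3 := Real.one_le_sqrt.mpr (by norm_num)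
  have q0 : (0 : ℝ) < √3 := by linarith
  have p : 0 < 3 * √3 * h ^ 2 := by positivity
  refine le_of_mul_le_mul_left (key.trans ?_) p
  have e : 3 * √3 * h ^ 2 * (2 * π / √3 * (s / h ^ 2) + C * (r / h + 1 + Y)) =
      6 * π * s + 3 * √3 * (C * (h * r + h ^ 2 + h ^ 2 * Y)) := by
    field_simp
    ring
  rw [e]
  have : 0 ≤ C * (h * r + h ^ 2 + h ^ 2 * Y) := by positivity
  nlinarith

end CntA

theorem cntS : CntS := by
  classical
  obtain ⟨C1, h0, hC1, hh0, H⟩ := detS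
  refine ⟨57600 + 100 * C1, min h0 (1 / 120), by positivity, by positivity, ?_⟩
  intro ι Φ _ _ M h hF hh c a s R ha hs0 hs1 hR U hU
  have hD := H ι Φ M h hF (hh.trans (min_le_left _ _))
  have hh1 : h ≤ 1 / 120 := hh.trans (min_le_right _ _)
  have hp := hF.pos
  have hl0 : 0 ≤ 48 * h := by positivity
  obtain ⟨Y, hY⟩ : ∃ Y, Y = ∑ d ∈ M.near c R, |M.x h d| := ⟨_, rfl⟩
  have hY0 : 0 ≤ Y := by rw [hY]; exact Finset.sum_nonneg fun d _ => abs_nonneg _
  rw [YY, ← hY]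
  obtain ⟨S, hS⟩ : ∃ S : Finset Φ, S = Finset.univ.filter fun d => M.tl d ∈ U := ⟨_, rfl⟩
  have mS : ∀ d, d ∈ S ↔ M.tl d ∈ U := by intro d; rw [hS]; simp
  have hcard : (S.card : ℝ) = 6 * U.card := by
    have e : S.card = ∑ v ∈ U, (S.filter fun d => M.tl d = v).card :=
      Finset.card_eq_sum_card_fiberwise fun d hd => (mS d).mp hd
    have e2 : ∀ v ∈ U, (S.filter fun d => M.tl d = v).card = 6 := by
      intro v hv
      rw [← (hU v hv).1, Mesh.deg]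
      congr 1
      ext d
      rw [Finset.mem_filter, M.mem_star, mS]
      exact ⟨fun k => k.2, fun k => ⟨k ▸ hv, k⟩⟩
    rw [e, Finset.sum_congr rfl e2]
    simp [mul_comm]
  have r0 : 0 ≤ √s := Real.sqrt_nonneg s
  have r1 : √s ≤ 1 := Real.sqrt_le_one.mpr hs1
  have r2 : √s ^ 2 = s := Real.sq_sqrt hs0
  have hA : ∀ d ∈ S, nv (M.A d - a) ≤ √s := by
    intro d hd
    rw [nv_le_iff r0, r2]
    exact (hU _ ((mS d).mp hd)).2
  have hcap := M.cap_chord ha r0 hl0 hF.edge (by nlinarith) S hA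
  have mN : ∀ d, d ∈ M.near c R ↔ nv (M.A d - c) ≤ R := by intro d; simp [Mesh.near]
  have n0 : ∀ d ∈ S, nv (M.A d - c) + 48 * h ≤ R := by
    intro d hd
    linarith [nv_tri (M.A d) a c, hA d hd]
  have y0 : ∑ d ∈ S, |M.x h d| ≤ Y := by
    rw [hY]
    exact Count.sum_perm_le S _ 1 (fun d => |M.x h d|) (fun d => abs_nonneg _) fun d hd =>
      (mN _).mpr (by have := n0 d hd; change nv (M.A d - c) ≤ R; linarith)
  have y1 : ∑ d ∈ S, |M.x h (M.φ d)| ≤ Y := by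
    rw [hY]
    refine Count.sum_perm_le S _ M.φ (fun d => |M.x h d|) (fun d => abs_nonneg _) fun d hd =>
      (mN _).mpr ?_
    have k1 := M.nv_AB hl0 hF.edge d
    rw [nv_sub_comm] at k1
    rw [M.A_φ]
    linarith [nv_tri (M.B d) (M.A d) c, n0 d hd]
  have y2 : ∑ d ∈ S, |M.x h (M.φ (M.φ d))| ≤ Y := by
    rw [hY]
    refine Count.sum_perm_le S _ (M.φ * M.φ) (fun d => |M.x h d|) (fun d => abs_nonneg _)
      fun d hd => (mN _).mpr ?_
    have k1 := M.nv_AC hl0 hF.edge d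
    rw [nv_sub_comm] at k1
    change nv (M.C d - c) ≤ R
    linarith [nv_tri (M.C d) (M.A d) c, n0 d hd]
  have y3 : ∑ d ∈ S, M.X1 h d ≤ 3 * Y := by
    simp only [Mesh.X1, Finset.sum_add_distrib]
    linarith
  have low : ∑ d ∈ S, (√3 / 2 * h ^ 2 - C1 * h ^ 2 * (M.X1 h d + h ^ 2)) ≤ ∑ d ∈ S, M.D d :=
    Finset.sum_le_sum fun d _ => by linarith [(abs_le.mp (hD d)).1]
  rw [Finset.sum_sub_distrib, ← Finset.mul_sum, ← Finset.mul_sum, Finset.sum_add_distrib] at low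
  simp only [Finset.sum_const, nsmul_eq_mul, hcard] at low
  have q1 : (5 / 3 : ℝ) ≤ √3 := Real.le_sqrt_of_sq_le (by norm_num)
  have hK : (U.card : ℝ) * h ^ 2 ≤ 16 := by
    have k1 : (U.card : ℝ) ≤ Fintype.card ι := by exact_mod_cast Finset.card_le_univ U
    have k2 := hF.num
    have k3 : (U.card : ℝ) * h ^ 2 ≤ Fintype.card ι * h ^ 2 :=
      mul_le_mul_of_nonneg_right k1 (by positivity)
    have k4 : 0 ≤ (Fintype.card ι : ℝ) * h ^ 2 := by positivity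
    nlinarith [pi_lt_d2]
  refine CntA.final hp hY0 r0 (by positivity) ?_
  have t1 : 0 ≤ C1 * h ^ 2 := by positivity
  have t2 : C1 * h ^ 2 * (∑ d ∈ S, M.X1 h d + 6 * (U.card : ℝ) * h ^ 2) ≤
      C1 * h ^ 2 * (3 * Y + 96) := mul_le_mul_of_nonneg_left (by linarith) t1
  have t3 : (√s + 48 * h) ^ 2 = s + (96 * (h * √s) + 2304 * h ^ 2) := by
    linear_combination r2
  have t4 : 0 ≤ h * √s := by positivity
  have t5 : π * (96 * (h * √s) + 2304 * h ^ 2) ≤ 4 * (96 * (h * √s) + 2304 * h ^ 2) :=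
    mul_le_mul_of_nonneg_right pi_le_four (by positivity)
  have t6 : 0 ≤ C1 * (h * √s) := by positivity
  have t7 : 0 ≤ h ^ 2 * Y := by positivity
  have t8 : 0 ≤ C1 * (h ^ 2 * Y) := by positivity
  have t9 : 0 ≤ h ^ 2 := by positivity
  rw [t3] at hcap
  nlinarith

end Pool.Agent.MP_2ab689_gt.Hol
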