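import Pool.Agent.MP_2ab689_gt.Hol.Spec

/-!
PROJECT HOL, row EDG: without flat edges the valence is the degree.
-/

namespace Pool.Agent.MP_2ab689_gt.Hol

open Pool.Agent.MP_2ab689_gt.Big Real Set

namespace EdgA

theorem small {D D' : ℝ} (K K' : ℝ) (h : 0 < D) (h' : 0 < D') :
    ∃ ε : ℝ, 0 < ε ∧ ε * K < D ∧ ε * K' < D' := by
  have m0 : 0 < min D D' := lt_min h h'
  have n0 : 0 < |K| + |K'| + 1 := by positivity
  have e : min D D' / (|K| + |K'| + 1) * (|K| + |K'| + 1) = min D D' := div_mul_cancel₀ _ n0.ne'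
  have p : 0 < min D D' / (|K| + |K'| + 1) := div_pos m0 n0
  refine ⟨_, p, ?_, ?_⟩
  · nlinarith [min_le_left D D', mul_le_mul_of_nonneg_left (le_abs_self K) p.le,
      mul_nonneg p.le (abs_nonneg K')]
  · nlinarith [min_le_right D D', mul_le_mul_of_nonneg_left (le_abs_self K') p.le,
      mul_nonneg p.le (abs_nonneg K)]

theorem ip_c (a b x y : V) (ε : ℝ) :
    ip (crs a b + ε • (a - b)) x - ip (crs a b + ε • (a - b)) y =
      det3 a b x - det3 a b y + ε * ip (a - b) (x - y) := by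
  simp only [det3, ip, crs, Pi.sub_apply, Pi.add_apply, Pi.smul_apply, smul_eq_mul,
    Matrix.cons_val_zero, Matrix.cons_val_one, Matrix.cons_val_two, Matrix.head_cons,
    Matrix.tail_cons]
  ring

theorem d1 (a b : V) : det3 a b a = 0 := by unfold det3; ring

theorem d2 (a b : V) : det3 a b b = 0 := by unfold det3; ring

theorem aff (a b c x y : V) {α β : ℝ} (h : α + β = 1) :
    T4 a b c (α • x + β • y) = α * T4 a b c x + β * T4 a b c y := by
  rw [T4_crs, T4_crs, T4_crs, ip_add_right, ip_smul_right, ip_smul_right]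
  linear_combination (-det3 a b c) * h

theorem t1 (a b c : V) : T4 a b c a = 0 := by simp only [T4, det3, Pi.sub_apply]; ring

theorem t2 (a b c : V) : T4 a b c b = 0 := by simp only [T4, det3, Pi.sub_apply]; ring

theorem cramer (a b c c' x : V) (i : Fin 3) : T4 a b c c' * (x i - a i) =
    -det3 (x - a) (c - a) (c' - a) * (b i - a i) + T4 b a c' x * (c i - a i) +
      T4 a b c x * (c' i - a i) := by
  fin_cases i <;> simp only [T4, det3, Pi.sub_apply, Fin.zero_eta, Fin.mk_one, Fin.reduceFinMk] <;>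
    ring

theorem seg {a b c c' x : V} (ha : ip a a = 1) (hb : ip b b = 1) (hab : a ≠ b) (hx : ip x x ≤ 1)
    (h0 : T4 a b c c' ≠ 0) (h1 : T4 a b c x = 0) (h2 : T4 b a c' x = 0) :
    ∃ t : ℝ, 0 ≤ t ∧ t ≤ 1 ∧ x = (1 - t) • a + t • b := by
  have e : x = (1 - -det3 (x - a) (c - a) (c' - a) / T4 a b c c') • a +
      (-det3 (x - a) (c - a) (c' - a) / T4 a b c c') • b := by
    funext i
    have := cramer a b c c' x i
    rw [h1, h2] at this
    simp only [Pi.add_apply, Pi.smul_apply, smul_eq_mul]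
    field_simp
    linear_combination this
  generalize -det3 (x - a) (c - a) (c' - a) / T4 a b c c' = t at e
  have l := ip_lt_one ha hb hab
  rw [e] at hx
  simp only [ip_add_left, ip_add_right, ip_smul_left, ip_smul_right, ha, hb, ip_comm b a] at hx
  have k : 0 ≤ t * (1 - t) := by
    by_contra q
    nlinarith [mul_pos (sub_pos.2 (not_le.1 q)) (sub_pos.2 l)]
  refine ⟨t, ?_, ?_, e⟩
  · by_contra q
    nlinarith [not_le.1 q]
  · by_contra q
    nlinarith [not_le.1 q]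

variable {ι Φ : Type} [Fintype ι] [Fintype Φ] (M : Mesh ι Φ)

theorem ne (d : Φ) : M.A d ≠ M.B d := fun e => M.tl_ne d (M.inj e).symm

theorem inj {d d' : Φ} (h : M.tl d = M.tl d') (hB : M.B d = M.B d') : d = d' := by
  have hA : M.A d' = M.A d := by rw [Mesh.A, Mesh.A, h]
  have p := M.D_pos d
  have p' := M.D_pos d'
  rw [Mesh.D] at p p'
  rw [hA, ← hB] at p'
  obtain ⟨ε, e0, e1, e2⟩ := small (ip (M.A d - M.B d) (M.A d - M.C d))
    (ip (M.A d - M.B d) (M.A d - M.C d')) p p'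
  have a0 : ip (crs (M.A d) (M.B d) + ε • (M.A d - M.B d)) (M.B d) <
      ip (crs (M.A d) (M.B d) + ε • (M.A d - M.B d)) (M.A d) := by
    have := ip_c (M.A d) (M.B d) (M.A d) (M.B d) ε
    rw [d1, d2, ip_sub_unit (M.uA d) (M.uB d)] at this
    nlinarith [mul_pos e0 (sub_pos.2 (ip_lt_one (M.uA d) (M.uB d) (ne M d)))]
  refine M.upx (crs (M.A d) (M.B d) + ε • (M.A d - M.B d)) d d' h a0 ?_ ?_ ?_
  · have := ip_c (M.A d) (M.B d) (M.A d) (M.C d) ε
    rw [d1] at this
    change ip _ (M.A d) < ip _ (M.C d)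
    linarith
  · change ip _ (M.B d') < ip _ (M.A d')
    rw [hA, ← hB]
    exact a0
  · have := ip_c (M.A d) (M.B d) (M.A d) (M.C d') ε
    rw [d1] at this
    change ip _ (M.A d') < ip _ (M.C d')
    rw [hA]
    linarith

theorem ext {d : Φ} (h : ¬Flat M d) :
    IsExtreme ℝ (convexHull ℝ (range ((WithLp.toLp 2 : V → E3) ∘ M.p)))
      (segment ℝ (WithLp.toLp 2 (M.A d)) (WithLp.toLp 2 (M.B d))) := by
  refine ⟨(convex_convexHull ℝ _).segment_subset (subset_convexHull ℝ _ ⟨_, rfl⟩)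
    (subset_convexHull ℝ _ ⟨_, rfl⟩), ?_⟩
  rintro ⟨x⟩ hx ⟨y⟩ hy _ ⟨s, t, hs, ht, hst, rfl⟩ ⟨α, β, hα, hβ, hαβ, e⟩
  have hx' : x ∈ M.hull := (Exv.mem_toLp M.p x).1 hx
  have hy' : y ∈ M.hull := (Exv.mem_toLp M.p y).1 hy
  have e' : α • x + β • y = s • M.A d + t • M.B d := congrArg WithLp.ofLp e
  have f1 := aff (M.A d) (M.B d) (M.C d) x y hαβ
  have f2 := aff (M.B d) (M.A d) (M.C (M.s d)) x y hαβ
  rw [e', aff _ _ _ _ _ hst, t1, t2] at f1 f2
  have g1 := M.T4_nonneg d hx'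
  have g2 := M.T4_nonneg d hy'
  have g3 := M.T4_nonneg (M.s d) hx'
  have g4 := M.T4_nonneg (M.s d) hy'
  rw [M.A_s, M.B_s] at g3 g4
  have z1 : T4 (M.A d) (M.B d) (M.C d) x = 0 := by
    refine le_antisymm (le_of_mul_le_mul_left ?_ hα) g1
    linarith [mul_nonneg hβ.le g2]
  have z2 : T4 (M.B d) (M.A d) (M.C (M.s d)) x = 0 := by
    refine le_antisymm (le_of_mul_le_mul_left ?_ hα) g3
    linarith [mul_nonneg hβ.le g4]
  obtain ⟨τ, k0, k1, k⟩ := seg (M.uA d) (M.uB d) (ne M d) (hull_sub_ball M.unit hx') h z1 z2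
  exact ⟨1 - τ, τ, by linarith, k0, by ring, by rw [k]; rfl⟩

end EdgA

theorem edgS : EdgS := by
  classical
  intro ι Φ _ _ M v h
  have hn : ∀ i, ‖(WithLp.toLp 2 (M.p i) : E3)‖ = 1 := fun i => (norm_eq_one_iff _).2 (M.unit i)
  have he := ext_hull (S := range ((WithLp.toLp 2 : V → E3) ∘ M.p))
    (by rintro _ ⟨i, rfl⟩; exact hn i)
  have hc : ((M.star v).image fun d => (WithLp.toLp 2 (M.B d) : E3)).card = M.deg v :=
    Finset.card_image_of_injOn fun d hd d' hd' e => EdgA.inj M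
      ((M.mem_star.1 hd).trans (M.mem_star.1 hd').symm) (WithLp.toLp_injective 2 e)
  rw [← hc, ← ncard_coe_finset]
  refine ncard_le_ncard ?_ ((finite_range ((WithLp.toLp 2 : V → E3) ∘ M.p)).subset
    fun u hu => he ▸ hu.1)
  intro u hu
  obtain ⟨d, hd, rfl⟩ := Finset.mem_image.1 (Finset.mem_coe.1 hu)
  have hv := M.mem_star.1 hd
  subst hv
  exact ⟨by rw [he]; exact ⟨_, rfl⟩, fun e => EdgA.ne M d (WithLp.toLp_injective 2 e).symm,
    EdgA.ext M (h d rfl)⟩

end Pool.Agent.MP_2ab689_gt.Hol
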