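import Pool.Agent.MP_2ab689_gt.Hol.Spec

/-!
Row FLT: a flat edge carries strain.
-/

namespace Pool.Agent.MP_2ab689_gt.Hol

open Pool.Agent.MP_2ab689_gt.Big Real Set

namespace FltA

/-- A unit vector on a plane close to the sphere is close to the foot of the plane. -/
theorem near_foot {n y : V} {D N h : ℝ} (hh : 0 < h) (h1 : h ≤ 1 / 100) (hN : 0 < N)
    (hn : ip n n = N ^ 2) (hD : (1 - (48 * h) ^ 2) * N ≤ D) (hy : ip y y = 1)
    (hp : ip n y = D) : nv (y - (D / N ^ 2) • n) ≤ 68 * h := by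
  rw [nv_le_iff (by positivity), ip_sub_left, ip_sub_right, ip_sub_right, ip_smul_left,
    ip_smul_left, ip_smul_right, ip_smul_right, hy, hn, ip_comm y n, hp]
  have k : 1 - (48 * h) ^ 2 ≤ D / N := by rwa [le_div_iff₀ hN]
  have e : 1 - D / N ^ 2 * D - (D / N ^ 2 * D - D / N ^ 2 * (D / N ^ 2 * N ^ 2)) =
      1 - (D / N) ^ 2 := by field_simp; ring
  rw [e]
  have k0 : 0 ≤ 1 - (48 * h) ^ 2 := by nlinarith
  have k2 := pow_le_pow_left₀ k0 k 2
  nlinarith [sq_nonneg ((48 * h) ^ 2), sq_nonneg h]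

/-- The two diagonals of four unit vectors near a point orthogonal to `ρ`. -/
theorem diag {A B C C' o : V} {t : ℝ} (hA : ip A A = 1) (hB : ip B B = 1) (hC : ip C C = 1)
    (hC' : ip C' C' = 1) (ho : ip (C + C' - A - B) o = 0) (a : nv (A - o) ≤ t)
    (b : nv (B - o) ≤ t) (c : nv (C - o) ≤ t) (c' : nv (C' - o) ≤ t) :
    2 * ip (B - C) (B - C) + 2 * ip (C - A) (C - A) - ip (A - B) (A - B) ≤
      2 * ip (A - B) (A - B) + 8 * t * nv (C + C' - A - B) + 2 * nv (C + C' - A - B) ^ 2 := by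
  have k1 := abs_le.1 (abs_ip_le (C + C' - A - B) (A - o))
  have k2 := abs_le.1 (abs_ip_le (C + C' - A - B) (B - o))
  have k3 := abs_le.1 (abs_ip_le (C + C' - A - B) (C - o))
  have k4 := abs_le.1 (abs_ip_le (C + C' - A - B) (C' - o))
  have r0 := nv_nonneg (C + C' - A - B)
  have m1 := mul_le_mul_of_nonneg_left a r0
  have m2 := mul_le_mul_of_nonneg_left b r0
  have m3 := mul_le_mul_of_nonneg_left c r0
  have m4 := mul_le_mul_of_nonneg_left c' r0
  have e1 : ip (C + C' - A - B) (A - o) + ip (C + C' - A - B) (B - o) +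
      ip (C + C' - A - B) (C - o) + ip (C + C' - A - B) (C' - o) =
      ip (A - B) (A - B) - ip (C - C') (C - C') := by
    simp only [ip, Pi.add_apply, Pi.sub_apply] at hA hB hC hC' ho ⊢
    linear_combination (-4) * ho + 2 * hC + 2 * hC' - 2 * hA - 2 * hB
  have e2 : 2 * ip (B - C) (B - C) + 2 * ip (C - A) (C - A) - ip (A - B) (A - B) =
      2 * ip (C - C') (C - C') + 2 * ip (C + C' - A - B) (C + C' - A - B) -
        ip (A + B - C' - C') (A + B - C' - C') := by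
    simp only [ip, Pi.add_apply, Pi.sub_apply]
    ring
  rw [e2, nv_sq]
  have p := ip_self_nonneg (A + B - C' - C')
  linarith [k1.1, k2.1, k3.1, k4.1]

variable {ι Φ : Type} [Fintype ι] [Fintype Φ] (M : Mesh ι Φ)

theorem key {h : ℝ} (hF : M.Fine h) (h1 : h ≤ 1 / 100) {d : Φ} (hd : Flat M d) :
    h ^ 2 ≤ 4 * h ^ 2 * M.X1 h d + 544 * h * nv (M.C d + M.C (M.s d) - M.A d - M.B d) +
      2 * nv (M.C d + M.C (M.s d) - M.A d - M.B d) ^ 2 := by
  have hh := hF.pos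
  set n := crs (M.B d - M.A d) (M.C d - M.A d) with hn
  have pl : ∀ y, T4 (M.A d) (M.B d) (M.C d) y = 0 → ip n y = M.D d := fun y hy => by
    rw [T4_crs] at hy
    unfold Mesh.D
    linarith
  have pA := pl (M.A d) (by simp only [T4, det3, Pi.sub_apply]; ring)
  have pB := pl (M.B d) (by simp only [T4, det3, Pi.sub_apply]; ring)
  have pC := pl (M.C d) (by simp only [T4, det3, Pi.sub_apply]; ring)
  have pC' := pl _ hd
  have hN : 0 < nv n := by
    have k := ip_le_nv n (M.A d)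
    rw [pA, nv_eq_one (M.uA d), mul_one] at k
    exact (M.D_pos d).trans_le k
  have hnn : ip n n = nv n ^ 2 := (nv_sq n).symm
  have hD : (1 - (48 * h) ^ 2) * nv n ≤ M.D d := by
    have k := M.T4_nonneg d (hF.ball (((1 - (48 * h) ^ 2) / nv n) • n) (by
      rw [ip_smul_left, ip_smul_right, hnn]
      exact le_of_eq (by field_simp)))
    rw [T4_crs, ← hn, ip_smul_right, hnn] at k
    have e : (1 - (48 * h) ^ 2) / nv n * nv n ^ 2 = (1 - (48 * h) ^ 2) * nv n := by field_simp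
    rw [e] at k
    unfold Mesh.D
    linarith
  have g := diag (o := (M.D d / nv n ^ 2) • n) (M.uA d) (M.uB d) (M.uC d) (M.uC (M.s d))
    (by rw [ip_smul_right, ip_comm, ip_sub_right, ip_sub_right, ip_add_right, pA, pB, pC, pC']
        ring)
    (near_foot hh h1 hN hnn hD (M.uA d) pA) (near_foot hh h1 hN hnn hD (M.uB d) pB)
    (near_foot hh h1 hN hnn hD (M.uC d) pC) (near_foot hh h1 hN hnn hD (M.uC _) pC')
  have s0 : ip (M.A d - M.B d) (M.A d - M.B d) = h ^ 2 * (1 + M.x h d) := Chord.sq_x M hh d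
  have s1 : ip (M.B d - M.C d) (M.B d - M.C d) = h ^ 2 * (1 + M.x h (M.φ d)) :=
    Chord.sq_x M hh (M.φ d)
  have s2 : ip (M.C d - M.A d) (M.C d - M.A d) = h ^ 2 * (1 + M.x h (M.φ (M.φ d))) := by
    rw [← Chord.sq_x M hh, M.sq_φφ, ip_sub_unit (M.uC d) (M.uA d)]
  rw [s0, s1, s2] at g
  have t : 3 * M.x h d - 2 * M.x h (M.φ d) - 2 * M.x h (M.φ (M.φ d)) ≤ 4 * M.X1 h d := by
    unfold Mesh.X1
    linarith [le_abs_self (M.x h d), neg_abs_le (M.x h (M.φ d)), neg_abs_le (M.x h (M.φ (M.φ d))),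
      abs_nonneg (M.x h d), abs_nonneg (M.x h (M.φ d)), abs_nonneg (M.x h (M.φ (M.φ d)))]
  have t2 := mul_le_mul_of_nonneg_left t (sq_nonneg h)
  linarith

theorem X1_nonneg (h : ℝ) (d : Φ) : 0 ≤ M.X1 h d := by unfold Mesh.X1; positivity

theorem X1_sq (h : ℝ) (d : Φ) : M.X1 h d ^ 2 ≤ 3 * M.X2 h d := by
  unfold Mesh.X1 Mesh.X2
  rw [← sq_abs (M.x h d), ← sq_abs (M.x h (M.φ d)), ← sq_abs (M.x h (M.φ (M.φ d)))]
  nlinarith [sq_nonneg (|M.x h d| - |M.x h (M.φ d)|),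
    sq_nonneg (|M.x h d| - |M.x h (M.φ (M.φ d))|),
    sq_nonneg (|M.x h (M.φ d)| - |M.x h (M.φ (M.φ d))|)]

theorem num {h a b r c : ℝ} (hh : 0 < h) (hc : 0 < c) (ha : 0 ≤ a) (hb : 0 ≤ b) (r0 : 0 ≤ r)
    (hr : r ≤ c * h * (a + b + h)) (k : h ^ 2 ≤ 4 * h ^ 2 * a + 544 * h * r + 2 * r ^ 2) :
    1 ≤ (4 + 544 * c + 2 * c ^ 2) * (a + b + h) := by
  set S := a + b + h with hS
  have S0 : 0 < S := by positivity
  rcases le_total S 1 with h1 | h1
  · have k1 : r ^ 2 ≤ (c * h * S) ^ 2 := pow_le_pow_left₀ r0 hr 2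
    have k2 : (c * h * S) ^ 2 ≤ c ^ 2 * h ^ 2 * S := by
      have : S ^ 2 ≤ S := by nlinarith
      calc (c * h * S) ^ 2 = c ^ 2 * h ^ 2 * S ^ 2 := by ring
        _ ≤ _ := mul_le_mul_of_nonneg_left this (by positivity)
    have k3 := mul_le_mul_of_nonneg_left hr hh.le
    have k4 : h ^ 2 * a ≤ h ^ 2 * S := mul_le_mul_of_nonneg_left (by linarith) (sq_nonneg h)
    refine le_of_mul_le_mul_left ?_ (pow_pos hh 2)
    linarith
  · have : 0 ≤ (544 * c + 2 * c ^ 2) * S := by positivity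
    linarith

end FltA

open FltA in
theorem fltS : FltS := by
  obtain ⟨c, h0, hc, hh0, H⟩ := rhoS
  have K0 : 0 < 4 + 544 * c + 2 * c ^ 2 := by positivity
  refine ⟨24 * (4 + 544 * c + 2 * c ^ 2) ^ 2,
    min (min h0 (1 / 100)) (1 / (2 * (4 + 544 * c + 2 * c ^ 2))), by positivity, by positivity,
    fun ι Φ _ _ M h hF hle d hd => ?_⟩
  have l1 : h ≤ h0 := hle.trans ((min_le_left _ _).trans (min_le_left _ _))
  have l2 : h ≤ 1 / 100 := hle.trans ((min_le_left _ _).trans (min_le_right _ _))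
  have l3 : h ≤ 1 / (2 * (4 + 544 * c + 2 * c ^ 2)) := hle.trans (min_le_right _ _)
  have a0 := X1_nonneg M h d
  have b0 := X1_nonneg M h (M.s d)
  have k := num hF.pos hc a0 b0 (nv_nonneg _) (H ι Φ M h hF l1 d) (key M hF l2 hd)
  rw [le_div_iff₀ (by positivity)] at l3
  generalize 4 + 544 * c + 2 * c ^ 2 = K at K0 k l3 ⊢
  have k1 : 1 / 2 ≤ K * (M.X1 h d + M.X1 h (M.s d)) := by linarith
  have k2 := pow_le_pow_left₀ (by norm_num) k1 2
  have k3 : (M.X1 h d + M.X1 h (M.s d)) ^ 2 ≤ 6 * (M.X2 h d + M.X2 h (M.s d)) := by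
    nlinarith [X1_sq M h d, X1_sq M h (M.s d), sq_nonneg (M.X1 h d - M.X1 h (M.s d))]
  have k4 := mul_le_mul_of_nonneg_left k3 (sq_nonneg K)
  rw [mul_pow] at k2
  linarith

end Pool.Agent.MP_2ab689_gt.Hol
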