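import Pool.Agent.MP_2ab689_gt.Hol.Spec

/-! Row FRM: the moving frame along a parallel. -/

namespace Pool.Agent.MP_2ab689_gt.Hol

open Pool.Agent.MP_2ab689_gt.Big Real Set

namespace FrmA

theorem av_comb (P : ℤ × ℤ → V) (h u a b c : ℝ) (x y z : V) :
    av P h u 0 (a • x + b • y + c • z) =
      a * av P h u 0 x + b * av P h u 0 y + c * av P h u 0 z := by
  simp only [av, ip_add_right, ip_smul_right, Finset.mul_sum, ← Finset.sum_add_distrib]
  refine Finset.sum_congr rfl fun v _ => ?_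
  push_cast
  ring

theorem sin_sub {x : ℝ} (h : |x| ≤ 1) : |sin x - x| ≤ x ^ 2 / 2 := by
  have k : ∀ x : ℝ, 0 < x → x ≤ 1 → |sin x - x| ≤ x ^ 2 / 2 := fun x h0 h1 => by
    have a := sin_gt_sub_cube h0
    have b := sin_le h0.le
    rw [abs_le]
    constructor <;> nlinarith [sq_nonneg x]
  rcases lt_trichotomy x 0 with q | rfl | q
  · have := k (-x) (by linarith) (by linarith [(abs_le.1 h).1])
    rwa [sin_neg, neg_sub_neg, abs_sub_comm, neg_sq] at this
  · simp
  · exact k x q (abs_le.1 h).2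

theorem two {a b x : ℝ} {t : ℂ} (ht : ‖t‖ = 1) (ha : |a| ≤ x) (hb : |b| ≤ x) :
    ‖(a : ℂ) + t * b‖ ≤ 2 * x := by
  refine (norm_add_le _ _).trans ?_
  rw [norm_mul, ht, Complex.norm_real, Complex.norm_real, norm_eq_abs, norm_eq_abs]
  linarith

theorem core {E N Z t : ℂ} {B g s c D : ℝ} (ht : t * t = -1) (hs : |s| ≤ 1) (hD : |D| ≤ 1)
    (hc : c * c = 1 - s ^ 2) (hE : ‖E‖ ≤ B) (hN : ‖N‖ ≤ B) (hZ : ‖Z‖ ≤ g) :
    ‖((cos D : ℝ) * E + (s * sin D : ℝ) * N + (-(c * sin D) : ℝ) * Z) +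
      t * ((-(s * sin D) : ℝ) * E + (s ^ 2 * cos D + c * c : ℝ) * N +
        (c * s * (1 - cos D) : ℝ) * Z) -
      ((cos (s * D) : ℝ) - t * (sin (s * D) : ℝ)) * (E + t * N)‖ ≤
      10 * (B * D ^ 2 + g * |D|) := by
  have t1 : ‖t‖ = 1 := by
    have := congrArg norm ht
    rw [norm_mul, norm_neg, norm_one] at this
    nlinarith [norm_nonneg t]
  have s2 : s ^ 2 ≤ 1 := by nlinarith [abs_le.1 hs]
  have c1 : |c| ≤ 1 := abs_le_of_sq_le_sq' (by nlinarith [sq_nonneg s]) zero_le_one |> abs_le.2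
  have d0 := abs_nonneg D
  have d2 : D ^ 2 ≤ |D| := by rw [← sq_abs]; nlinarith
  have m1 : (s * D) ^ 2 ≤ D ^ 2 := by rw [mul_pow]; nlinarith [sq_nonneg D]
  have m2 : |s * D| ≤ 1 := by rw [abs_mul]; nlinarith [abs_nonneg s]
  have k1 := cos_le_one D
  have k2 := one_sub_sq_div_two_le_cos (x := D)
  have k3 := cos_le_one (s * D)
  have k4 := one_sub_sq_div_two_le_cos (x := s * D)
  have a1 : |cos D - cos (s * D)| ≤ D ^ 2 := by
    rw [abs_le]; constructor <;> nlinarith [sq_nonneg D]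
  have a2 : |s * sin D - sin (s * D)| ≤ D ^ 2 := by
    have e : s * sin D - sin (s * D) = s * (sin D - D) - (sin (s * D) - s * D) := by ring
    rw [e]
    refine (abs_sub _ _).trans ?_
    rw [abs_mul]
    have := sin_sub hD
    have := sin_sub m2
    nlinarith [abs_nonneg s, abs_nonneg (sin D - D)]
  have a3 : |s ^ 2 * cos D + c * c - cos (s * D)| ≤ D ^ 2 := by
    rw [hc, abs_le]
    constructor <;> nlinarith [sq_nonneg D, sq_nonneg s]
  have a4 : |-(c * sin D)| ≤ |D| := by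
    rw [abs_neg, abs_mul]
    nlinarith [abs_sin_le_abs (x := D), abs_nonneg c, abs_nonneg (sin D)]
  have a5 : |c * s * (1 - cos D)| ≤ |D| := by
    rw [abs_mul, abs_mul, abs_of_nonneg (sub_nonneg.2 k1)]
    have : |c| * |s| ≤ 1 := by nlinarith [abs_nonneg c, abs_nonneg s]
    nlinarith [mul_nonneg (abs_nonneg c) (abs_nonneg s)]
  have b1 := two t1 a1 ((abs_neg _).trans_le a2)
  have b2 := two t1 a2 a3
  have b3 := two t1 a4 a5
  have B0 := (norm_nonneg _).trans hE
  have g0 := (norm_nonneg _).trans hZ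
  refine le_trans (le_of_eq (congrArg norm ?_)) (((norm_add₃_le).trans (add_le_add (add_le_add
    ((norm_mul_le _ E).trans (mul_le_mul b1 hE (norm_nonneg _) (by positivity)))
    ((norm_mul_le _ N).trans (mul_le_mul b2 hN (norm_nonneg _) (by positivity))))
    ((norm_mul_le _ Z).trans (mul_le_mul b3 hZ (norm_nonneg _) (by positivity))))).trans ?_)
  · generalize cos D = x, sin D = y, cos (s * D) = x', sin (s * D) = y'
    push_cast
    linear_combination (y' * N) * ht
  · nlinarith [mul_nonneg B0 (sq_nonneg D), mul_nonneg g0 d0]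

end FrmA

open FrmA in
theorem frmS : FrmS := by
  intro s φ Δ hs hΔ
  have hc : √(1 - s ^ 2) * √(1 - s ^ 2) = 1 - s ^ 2 :=
    Real.mul_self_sqrt (by nlinarith [abs_le.1 hs])
  have hφ := sin_sq_add_cos_sq φ
  refine ⟨⟨?_, ?_, pt_unit hs φ, fun x y => ?_⟩, ?_, fun P h u B g hE hN hZ => ?_⟩
  · simp only [ip, ea, Matrix.cons_val_zero, Matrix.cons_val_one, Matrix.cons_val_two,
      Matrix.head_cons, Matrix.tail_cons]
    linear_combination hφ
  · simp only [ip, no, Matrix.cons_val_zero, Matrix.cons_val_one, Matrix.cons_val_two,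
      Matrix.head_cons, Matrix.tail_cons]
    linear_combination hc + s ^ 2 * hφ
  · simp only [ip, ea, no, pt, Matrix.cons_val_zero, Matrix.cons_val_one, Matrix.cons_val_two,
      Matrix.head_cons, Matrix.tail_cons]
    linear_combination (-(x 0 * y 0 + x 1 * y 1)) * hφ - (x 2 * y 2 +
      (x 0 * cos φ + x 1 * sin φ) * (y 0 * cos φ + y 1 * sin φ)) * hc
  · rw [nv_le_iff (abs_nonneg _), sq_abs]
    have e : ip (pt s (φ + Δ) - pt s φ) (pt s (φ + Δ) - pt s φ) =
        (1 - s ^ 2) * (2 - 2 * cos Δ) := by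
      simp only [ip, pt, Pi.sub_apply, Matrix.cons_val_zero, Matrix.cons_val_one,
        Matrix.cons_val_two, Matrix.head_cons, Matrix.tail_cons, cos_add, sin_add]
      linear_combination ((cos φ * cos Δ - sin φ * sin Δ - cos φ) ^ 2 +
        (sin φ * cos Δ + cos φ * sin Δ - sin φ) ^ 2) * hc +
        (1 - s ^ 2) * ((cos Δ - 1) ^ 2 + sin Δ ^ 2) * hφ + (1 - s ^ 2) * sin_sq_add_cos_sq Δ
    rw [e]
    nlinarith [one_sub_sq_div_two_le_cos (x := Δ), cos_le_one Δ, sq_nonneg s]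
  have e1 : ea (φ + Δ) = cos Δ • ea φ + (s * sin Δ) • no s φ +
      (-(√(1 - s ^ 2) * sin Δ)) • pt s φ := by
    funext i
    fin_cases i <;> simp [ea, no, pt, cos_add, sin_add]
    · linear_combination (sin Δ * cos φ) * hc
    · linear_combination (sin Δ * sin φ) * hc
    · ring
  have e2 : no s (φ + Δ) = (-(s * sin Δ)) • ea φ +
      (s ^ 2 * cos Δ + √(1 - s ^ 2) * √(1 - s ^ 2)) • no s φ +
      (√(1 - s ^ 2) * s * (1 - cos Δ)) • pt s φ := by
    generalize hq : √(1 - s ^ 2) * √(1 - s ^ 2) = q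
    funext i
    fin_cases i <;> simp [ea, no, pt, cos_add, sin_add]
    · linear_combination (s * cos φ * cos Δ) * hc - (s * cos φ) * hq
    · linear_combination (s * sin φ * cos Δ) * hc - (s * sin φ) * hq
    · linear_combination (-√(1 - s ^ 2)) * hc + √(1 - s ^ 2) * hq
  rw [e1, e2, av_comb, av_comb, Complex.exp_ofReal_mul_I, Complex.exp_ofReal_mul_I, cos_neg, sin_neg]
  constructor
  · refine le_trans (le_of_eq (congrArg norm ?_)) (core Complex.I_mul_I hs hΔ hc hE hN hZ)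
    rw [Complex.ofReal_neg (sin _)]
    ring
  · refine le_trans (le_of_eq (congrArg norm ?_))
      (core (t := -Complex.I) (by rw [neg_mul_neg, Complex.I_mul_I]) hs hΔ hc hE hN hZ)
    ring

end Pool.Agent.MP_2ab689_gt.Hol
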