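import Pool.Agent.MP_2ab689_gt.Hol.Spec

/-! PROJECT HOL, row GRAM: the products of two mean directions. -/

namespace Pool.Agent.MP_2ab689_gt.Hol

open Pool.Agent.MP_2ab689_gt.Big Real Set

namespace GramA

theorem shift {A T : Finset (ℤ × ℤ)} (c : ℤ × ℤ) (f : ℤ × ℤ → ℝ) (h0 : ∀ x, 0 ≤ f x)
    (hm : ∀ y ∈ A, c + y ∈ T) : ∑ y ∈ A, f (c + y) ≤ ∑ x ∈ T, f x := by
  rw [← Finset.sum_image (g := fun y => c + y) (f := f) fun _ _ _ _ e => add_left_cancel e]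
  refine Finset.sum_le_sum_of_subset_of_nonneg (fun x hx => ?_) fun _ _ _ => h0 _
  obtain ⟨y, hy, rfl⟩ := Finset.mem_image.1 hx
  exact hm y hy

theorem sum_rot {u : ℝ} (hu : 0 ≤ u) (f : ℤ × ℤ → ℂ) :
    ∑ y ∈ Lat (u ^ 2), f (rot y) = ∑ y ∈ Lat (u ^ 2), f y := by
  refine Finset.sum_nbij' rot (fun y => (y.1 + y.2, -y.1)) (fun y hy => ?_) (fun y hy => ?_)
    (fun y _ => ?_) (fun y _ => ?_) fun _ _ => rfl
  · rw [mem_Lat hu] at hy ⊢
    rwa [zz_rot, norm_mul, norm_om, one_mul]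
  · rw [mem_Lat hu] at hy ⊢
    have e : y = rot (y.1 + y.2, -y.1) := by simp [rot]
    rwa [e, zz_rot, norm_mul, norm_om, one_mul] at hy
  · simp [rot]
  · simp [rot]

theorem sum_one {u : ℝ} (hu : 0 ≤ u) : ∑ y ∈ Lat (u ^ 2), zz y = 0 := by
  have h := sum_rot hu zz
  simp only [zz_rot, ← Finset.mul_sum] at h
  linear_combination (-om) * h + (∑ y ∈ Lat (u ^ 2), zz y) * om_sq

theorem sum_two {u : ℝ} (hu : 0 ≤ u) : ∑ y ∈ Lat (u ^ 2), zz y * zz y = 0 := by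
  have h := sum_rot hu fun y => zz y * zz y
  simp only [zz_rot, mul_mul_mul_comm om, ← Finset.mul_sum] at h
  have k : (om - 2) * ∑ y ∈ Lat (u ^ 2), zz y * zz y = 0 := by
    linear_combination h - (∑ y ∈ Lat (u ^ 2), zz y * zz y) * om_sq
  refine (mul_eq_zero.1 k).resolve_left fun e => ?_
  have n := norm_om
  rw [sub_eq_zero.1 e] at n
  norm_num at n

theorem qf_c (y : ℤ × ℤ) : ((qf y : ℝ) : ℂ) = zz y * (starRingEnd ℂ) (zz y) := by
  rw [qf_eq, Complex.mul_conj']; push_cast; rfl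

theorem sum_mm (u : ℝ) : ∑ y ∈ Lat (u ^ 2), zz y * (starRingEnd ℂ) (zz y) = mm u := by
  rw [mm, Complex.ofReal_sum]
  exact Finset.sum_congr rfl fun y _ => (qf_c y).symm

theorem key (P : ℤ × ℤ → V) (h : ℝ) {t u u' : ℝ} {y0 y0' : ℤ × ℤ} (hu : 0 ≤ u) (hu' : 0 ≤ u')
    (h1 : ‖zz y0‖ + u ≤ t / 2) (h2 : ‖zz y0'‖ + u' ≤ t / 2) (w : ℤ × ℤ → ℂ)
    (w0 : ∑ y ∈ Lat (u' ^ 2), w y = 0) (w1 : ∀ y, ‖w y‖ = ‖zz y‖) :
    ‖∑ y ∈ Lat (u ^ 2), ∑ y' ∈ Lat (u' ^ 2),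
        (starRingEnd ℂ) (zz y) * w y' * ((ip (P (y0 + y)) (P (y0' + y')) : ℝ) : ℂ) -
      (h : ℂ) ^ 2 / 2 * mm u * ∑ y' ∈ Lat (u' ^ 2), w y' * (starRingEnd ℂ) (zz y')‖ ≤
        u * u' / 2 * dev P h t := by
  have t0 : 0 ≤ t := by linarith [norm_nonneg (zz y0)]
  set E : ℤ × ℤ → ℤ × ℤ → ℝ := fun y v =>
    ip (P (y + v) - P y) (P (y + v) - P y) - h ^ 2 * qf v with hE
  set D := zz y0' - zz y0 with hD
  set F : ℤ × ℤ → ℂ := fun y => (((ip (P (y0 + y)) (P (y0 + y)) : ℝ) : ℂ) -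
    (h : ℂ) ^ 2 * ((D - zz y) * (starRingEnd ℂ) (D - zz y))) / 2 with hF
  set G : ℤ × ℤ → ℂ := fun y => (((ip (P (y0' + y)) (P (y0' + y)) : ℝ) : ℂ) -
    (h : ℂ) ^ 2 * (D * (starRingEnd ℂ) (zz y) + zz y * (starRingEnd ℂ) D +
      zz y * (starRingEnd ℂ) (zz y))) / 2 with hG
  have e1 : ∀ y y', (starRingEnd ℂ) (zz y) * w y' * ((ip (P (y0 + y)) (P (y0' + y')) : ℝ) : ℂ) =
      (starRingEnd ℂ) (zz y) * F y * w y' + (starRingEnd ℂ) (zz y) * (w y' * G y') +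
      (h : ℂ) ^ 2 / 2 * (starRingEnd ℂ) (zz y * zz y) * (w y' * zz y') +
      (h : ℂ) ^ 2 / 2 * (zz y * (starRingEnd ℂ) (zz y)) * (w y' * (starRingEnd ℂ) (zz y')) -
      (starRingEnd ℂ) (zz y) * w y' * ((E (y0 + y) (y0' - (y0 + y) + y') / 2 : ℝ) : ℂ) := by
    intro y y'
    have a1 : ip (P (y0 + y)) (P (y0' + y')) = (ip (P (y0 + y)) (P (y0 + y)) +
        ip (P (y0' + y')) (P (y0' + y')) - h ^ 2 * qf (y0' - (y0 + y) + y')) / 2 -
        E (y0 + y) (y0' - (y0 + y) + y') / 2 := by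
      simp only [hE]
      rw [show y0 + y + (y0' - (y0 + y) + y') = y0' + y' by abel]
      simp only [ip, Pi.sub_apply]
      ring
    rw [a1]
    simp only [hF, hG, hD]
    push_cast
    rw [qf_c, zz_add, zz_sub, zz_add]
    simp only [map_add, map_sub, map_mul]
    ring
  have c1 : ∑ y ∈ Lat (u ^ 2), (starRingEnd ℂ) (zz y) = 0 := by
    rw [← map_sum, sum_one hu, map_zero]
  have c2 : ∑ y ∈ Lat (u ^ 2), (starRingEnd ℂ) (zz y * zz y) = 0 := by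
    rw [← map_sum, sum_two hu, map_zero]
  simp only [e1, Finset.sum_sub_distrib, Finset.sum_add_distrib]
  simp only [← Finset.mul_sum, ← Finset.sum_mul, w0, c1, c2, sum_mm, mul_zero, zero_mul,
    Finset.sum_const_zero, zero_add]
  rw [sub_sub_cancel_left, norm_neg]
  have b1 : ∑ y ∈ Lat (u ^ 2), ∑ y' ∈ Lat (u' ^ 2), |E (y0 + y) (y0' - (y0 + y) + y')| ≤
      dev P h t := by
    have m1 : ∀ y ∈ Lat (u ^ 2), ‖zz (y0 + y)‖ ≤ t / 2 := fun y hy => by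
      rw [zz_add]
      linarith [norm_add_le (zz y0) (zz y), (mem_Lat hu).1 hy]
    refine le_trans (Finset.sum_le_sum fun y hy => shift (T := Lat (t ^ 2)) (y0' - (y0 + y))
      (fun v => |E (y0 + y) v|) (fun _ => abs_nonneg _) fun y' hy' => ?_)
      (shift y0 (fun x => ∑ v ∈ Lat (t ^ 2), |E x v|)
        (fun _ => Finset.sum_nonneg fun _ _ => abs_nonneg _) fun y hy => ?_)
    · rw [mem_Lat t0, zz_add, zz_sub]
      linarith [norm_add_le (zz y0' - zz (y0 + y)) (zz y'), norm_sub_le (zz y0') (zz (y0 + y)),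
        (mem_Lat hu').1 hy', m1 y hy]
    · rw [mem_Lat t0]
      linarith [m1 y hy]
  refine le_trans ?_ (mul_le_mul_of_nonneg_left b1 (by positivity))
  rw [Finset.mul_sum]
  refine (norm_sum_le _ _).trans (Finset.sum_le_sum fun y hy => ?_)
  rw [Finset.mul_sum]
  refine (norm_sum_le _ _).trans (Finset.sum_le_sum fun y' hy' => ?_)
  rw [norm_mul, norm_mul, Complex.norm_conj, w1, Complex.norm_real, Real.norm_eq_abs, abs_div,
    abs_two]
  have := mul_le_mul_of_nonneg_right (mul_le_mul ((mem_Lat hu).1 hy) ((mem_Lat hu').1 hy')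
    (norm_nonneg _) hu) (abs_nonneg (E (y0 + y) (y0' - (y0 + y) + y')))
  linarith

theorem onb {a b c : V} (o : Onb a b c) (A B : Finset (ℤ × ℤ)) (k k' : ℂ) (v w : ℤ × ℤ → ℂ)
    (p q : ℤ × ℤ → V) :
    (k * ∑ y ∈ A, v y * ((ip (p y) a : ℝ) : ℂ)) * (k' * ∑ y ∈ B, w y * ((ip (q y) a : ℝ) : ℂ)) +
    (k * ∑ y ∈ A, v y * ((ip (p y) b : ℝ) : ℂ)) * (k' * ∑ y ∈ B, w y * ((ip (q y) b : ℝ) : ℂ)) +
    (k * ∑ y ∈ A, v y * ((ip (p y) c : ℝ) : ℂ)) * (k' * ∑ y ∈ B, w y * ((ip (q y) c : ℝ) : ℂ)) =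
      k * k' * ∑ y ∈ A, ∑ y' ∈ B, v y * w y' * ((ip (p y) (q y') : ℝ) : ℂ) := by
  simp only [mul_mul_mul_comm k, ← mul_add, Finset.sum_mul_sum, ← Finset.sum_add_distrib]
  congr 1
  refine Finset.sum_congr rfl fun y _ => Finset.sum_congr rfl fun y' _ => ?_
  rw [o.2.2.2 (p y) (q y')]
  push_cast
  ring

theorem fin {h u u' d : ℝ} (h0 : 0 < h) (hu : 100 ≤ u) (hu' : 100 ≤ u') {X : ℂ}
    (hX : ‖X‖ ≤ u * u' / 2 * d) :
    ‖((2 / (h * mm u) : ℝ) : ℂ) * ((2 / (h * mm u') : ℝ) : ℂ) * X‖ ≤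
      128 * d / (h ^ 2 * u ^ 3 * u' ^ 3) := by
  have u0 : 0 < u := by linarith
  have u0' : 0 < u' := by linarith
  have m := mm_ge hu
  have m' := mm_ge hu'
  have n : 0 < mm u := lt_of_lt_of_le (by positivity) m
  have n' : 0 < mm u' := lt_of_lt_of_le (by positivity) m'
  rw [norm_mul, norm_mul, Complex.norm_real, Complex.norm_real, Real.norm_of_nonneg (by positivity),
    Real.norm_of_nonneg (by positivity)]
  calc _ ≤ 2 / (h * (u ^ 4 / 8)) * (2 / (h * (u' ^ 4 / 8))) * (u * u' / 2 * d) := by gcongr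
    _ = _ := by field_simp; ring

end GramA

open GramA in
theorem gramS : GramS := by
  intro P h t u u' y0 y0' a b c h0 hu hu' h1 h2 o
  have u0 : 0 ≤ u := by linarith
  have u0' : 0 ≤ u' := by linarith
  constructor
  · have k := fin h0 hu hu' (key P h u0 u0' h1 h2 zz (sum_one u0') fun _ => rfl)
    have n : ((mm u : ℝ) : ℂ) ≠ 0 :=
      Complex.ofReal_ne_zero.2 (lt_of_lt_of_le (by positivity) (mm_ge hu)).ne'
    have n' : ((mm u' : ℝ) : ℂ) ≠ 0 :=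
      Complex.ofReal_ne_zero.2 (lt_of_lt_of_le (by positivity) (mm_ge hu')).ne'
    have hc : (h : ℂ) ≠ 0 := Complex.ofReal_ne_zero.2 h0.ne'
    simp only [av, map_mul, map_sum, Complex.conj_ofReal, Complex.conj_conj]
    rw [onb o]
    rw [sum_mm, mul_sub] at k
    convert k using 3
    push_cast
    field_simp
  · have k := fin h0 hu hu' (key P h u0 u0' h1 h2 (fun y => (starRingEnd ℂ) (zz y))
      (by rw [← map_sum, sum_one u0', map_zero]) fun _ => Complex.norm_conj _)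
    simp only [← map_mul, ← map_sum, sum_two u0', map_zero, mul_zero, sub_zero] at k
    simp only [av]
    rw [onb o]
    simpa only [map_mul] using k

end Pool.Agent.MP_2ab689_gt.Hol
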