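import Pool.Agent.MP_2ab689_gt.Hol.Spec

/-! The number of grid points in a ball. -/

namespace Pool.Agent.MP_2ab689_gt.Hol

open Pool.Agent.MP_2ab689_gt.Big Real Set

namespace GrdA

theorem cnt {α : Type} (T : Finset α) (f : α → ℕ) (hf : Set.InjOn f T) (a w : ℝ) (hw : 0 ≤ w)
    (h : ∀ k ∈ T, |(f k : ℝ) - a| ≤ w) : (T.card : ℝ) ≤ 2 * w + 1 := by
  have k : T.card ≤ (Finset.Icc ⌈a - w⌉ ⌊a + w⌋).card :=
    Finset.card_le_card_of_injOn (fun k => (f k : ℤ)) (fun k hk => by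
      have := abs_le.1 (h k hk)
      simp only [Finset.coe_Icc, mem_Icc, Int.ceil_le, Int.le_floor, Int.cast_natCast]
      constructor <;> linarith [this.1, this.2])
      fun x hx y hy e => hf hx hy (Nat.cast_injective (R := ℤ) e)
  rw [Int.card_Icc] at k
  have k2 : (T.card : ℝ) ≤ ((⌊a + w⌋ + 1 - ⌈a - w⌉).toNat : ℤ) := by exact_mod_cast k
  rw [Int.toNat_eq_max] at k2
  push_cast at k2
  refine k2.trans (max_le ?_ (by linarith))
  linarith [Int.floor_le (a + w), Int.le_ceil (a - w)]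

theorem chord {s : ℝ} (hs : |s| ≤ 1) (φ ψ : ℝ) :
    ip (pt s φ - pt s ψ) (pt s φ - pt s ψ) = 2 * (1 - s ^ 2) * (1 - cos (φ - ψ)) := by
  have h1 : √(1 - s ^ 2) * √(1 - s ^ 2) = 1 - s ^ 2 :=
    Real.mul_self_sqrt (by nlinarith [abs_le.1 hs])
  simp only [ip, pt, Pi.sub_apply, Matrix.cons_val_zero, Matrix.cons_val_one, Matrix.cons_val_two,
    Matrix.head_cons, Matrix.tail_cons, cos_sub]
  linear_combination ((cos φ - cos ψ) ^ 2 + (sin φ - sin ψ) ^ 2) * h1 +
    (1 - s ^ 2) * sin_sq_add_cos_sq φ + (1 - s ^ 2) * sin_sq_add_cos_sq ψ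

theorem close {h r s : ℝ} {L l l0 : ℕ} (h0 : 0 < h) (hr : h ≤ r) (s0 : 0 ≤ s) (s1 : s ≤ 1 / 9)
    (L1 : 1 ≤ L * h) (L2 : L * h ≤ 2) (hl : l < 2 * L) (hl0 : l0 < 2 * L)
    (k : nv (pt s (l * (2 * π / L)) - pt s (l0 * (2 * π / L))) ≤ 2 * r) :
    ∃ j ∈ Finset.Icc (-2 : ℤ) 2, |(l : ℝ) - (l0 + j * L)| ≤ 2 * r / h := by
  have L0 : (0 : ℝ) < L := by
    by_contra c
    nlinarith [mul_nonneg (neg_nonneg.2 (not_lt.1 c)) h0.le]
  have a1 : (l : ℝ) < 2 * L := by exact_mod_cast hl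
  have a2 : (l0 : ℝ) < 2 * L := by exact_mod_cast hl0
  have a3 : (0 : ℝ) ≤ l := l.cast_nonneg
  have a4 : (0 : ℝ) ≤ l0 := l0.cast_nonneg
  obtain ⟨j, hj⟩ : ∃ j : ℤ, |((l : ℝ) - l0) / L - j| ≤ 1 / 2 := ⟨_, abs_sub_round _⟩
  obtain ⟨n, hn⟩ : ∃ n : ℝ, n = ((l : ℝ) - l0) / L - j := ⟨_, rfl⟩
  have e : (l : ℝ) - (l0 + j * L) = n * L := by
    rw [hn]
    field_simp
    ring
  rw [← hn] at hj
  have b := abs_le.1 hj
  refine ⟨j, ?_, ?_⟩
  · have c1 : ((l : ℝ) - l0) / L < 2 := by rw [div_lt_iff₀ L0]; linarith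
    have c2 : -2 < ((l : ℝ) - l0) / L := by rw [lt_div_iff₀ L0]; linarith
    have c3 : (j : ℝ) < 3 := by linarith [b.1]
    have c4 : (-3 : ℝ) < j := by linarith [b.2]
    have c5 : j < 3 := by exact_mod_cast c3
    have c6 : -3 < j := by exact_mod_cast c4
    rw [Finset.mem_Icc]
    omega
  · have c1 := pow_le_pow_left₀ (nv_nonneg _) k 2
    have e2 : (l : ℝ) * (2 * π / L) - l0 * (2 * π / L) = 2 * π * n + j * (2 * π) := by
      rw [hn]
      field_simp
      ring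
    rw [nv_sq, chord (abs_le.2 ⟨by linarith, by linarith⟩), e2, cos_add_int_mul_two_pi] at c1
    have c2 := cos_le_one_sub_mul_cos_sq (x := 2 * π * n) (by
      rw [abs_mul, abs_of_pos two_pi_pos]
      nlinarith [pi_pos])
    have e3 : 2 / π ^ 2 * (2 * π * n) ^ 2 = 8 * n ^ 2 := by
      field_simp
      ring
    rw [e3] at c2
    have c3 : n ^ 2 ≤ r ^ 2 := by
      have : 1 / 2 * (8 * n ^ 2) ≤ (1 - s ^ 2) * (1 - cos (2 * π * n)) :=
        mul_le_mul (by nlinarith) (by linarith) (by positivity) (by nlinarith)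
      nlinarith
    have c4 : |n| ≤ r := abs_le_of_sq_le_sq' c3 (by linarith) |> abs_le.2
    rw [e, abs_mul, abs_of_pos L0, le_div_iff₀ h0, mul_assoc, mul_comm 2]
    exact mul_le_mul c4 L2 (by linarith) (by linarith)

end GrdA

open GrdA in
theorem grdS : GrdS := by
  classical
  refine ⟨75, by norm_num, fun h r I L x h0 hI L1 L2 hr => ?_⟩
  set S := (Finset.range I ×ˢ Finset.range (2 * L)).filter fun k => nv (gp h L k - x) ≤ r with hS
  have q1 : 1 ≤ r / h := (one_le_div h0).2 hr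
  have m : ∀ k ∈ S, k.1 < I ∧ k.2 < 2 * L ∧ nv (gp h L k - x) ≤ r := fun k hk => by
    simpa [hS, and_assoc] using hk
  have k1 : ((S.image Prod.fst).card : ℝ) ≤ 2 * (r / h) + 1 :=
    cnt _ id (injOn_id _) ((x 2 - 1 / 18) / h) _ (by linarith) fun i hi => by
      obtain ⟨k, hk, rfl⟩ := Finset.mem_image.1 hi
      have := (abs_two_le _).trans (m k hk).2.2
      have e : ((id k.1 : ℕ) : ℝ) - (x 2 - 1 / 18) / h = (gp h L k - x) 2 / h := by
        simp only [gp, pt, Pi.sub_apply, Matrix.cons_val_two, Matrix.head_cons, Matrix.tail_cons,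
          id]
        field_simp
        ring
      rw [e, abs_div, abs_of_pos h0]
      exact div_le_div_of_nonneg_right this h0.le
  have k2 : ∀ i ∈ S.image Prod.fst, ((S.filter fun k => k.1 = i).card : ℝ) ≤ 25 * (r / h) := by
    intro i hi
    obtain ⟨k0, hk0, rfl⟩ := Finset.mem_image.1 hi
    have sub : (S.filter fun k => k.1 = k0.1) ⊆ (Finset.Icc (-2 : ℤ) 2).biUnion fun j =>
        (S.filter fun k => k.1 = k0.1).filter
          fun k => |(k.2 : ℝ) - (k0.2 + j * L)| ≤ 2 * r / h := fun k hk => by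
      obtain ⟨a1, a2⟩ := Finset.mem_filter.1 hk
      have i1 : (k0.1 : ℝ) ≤ I := by exact_mod_cast (m k0 hk0).1.le
      have t := nv_tri (gp h L k) x (gp h L k0)
      rw [nv_sub_comm x] at t
      obtain ⟨j, j1, j2⟩ := close (s := 1 / 18 + k0.1 * h) h0 hr (by positivity)
        (by linarith [mul_le_mul_of_nonneg_right i1 h0.le]) L1 L2 (m k a1).2.1 (m k0 hk0).2.1 (by
          have := t.trans (add_le_add (m k a1).2.2 (m k0 hk0).2.2)
          rw [gp, gp, a2] at this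
          linarith)
      exact Finset.mem_biUnion.2 ⟨j, j1, Finset.mem_filter.2 ⟨hk, j2⟩⟩
    have c := (Finset.card_le_card sub).trans Finset.card_biUnion_le
    refine (Nat.cast_le.2 c).trans ?_
    push_cast
    refine (Finset.sum_le_card_nsmul _ _ (2 * (2 * r / h) + 1) fun j _ => ?_).trans ?_
    · exact cnt _ Prod.snd (fun a ha b hb e => Prod.ext
        ((Finset.mem_filter.1 (Finset.mem_filter.1 ha).1).2.trans
          (Finset.mem_filter.1 (Finset.mem_filter.1 hb).1).2.symm) e) _ _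
        (by have := h0.le.trans hr; positivity) fun k hk => (Finset.mem_filter.1 hk).2
    · rw [Int.card_Icc, nsmul_eq_mul, mul_div_assoc, show (2 + 1 - -2 : ℤ).toNat = 5 from rfl]
      push_cast
      linarith
  rw [Finset.card_eq_sum_card_image Prod.fst S]
  push_cast
  refine (Finset.sum_le_card_nsmul _ _ _ k2).trans ?_
  rw [nsmul_eq_mul]
  nlinarith [mul_le_mul_of_nonneg_right k1 (by linarith : 0 ≤ 25 * (r / h))]

end Pool.Agent.MP_2ab689_gt.Hol
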