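import Pool.Agent.MP_2ab689_gt.Hol.Spec

/-!
The group law of the lattice charts on a cap without defects.
-/

namespace Pool.Agent.MP_2ab689_gt.Hol

open Pool.Agent.MP_2ab689_gt.Big Pool.Agent.MP_2ab689_gt.Big.Chart

namespace Grp

variable {ι Φ : Type} [Fintype ι] [Fintype Φ] (M : Mesh ι Φ) {ℓ : ℝ} (h0 : 0 ≤ ℓ)
  (hl : ∀ d, M.sq d ≤ ℓ ^ 2) {c : V} {R : ℝ} (hv : ∀ v, nv (M.p v - c) < R → M.deg v = 6)

include h0 hl in
theorem st0 (d : Φ) : nv (M.A (M.T0 d) - M.A d) ≤ ℓ := by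
  rw [A_T0, nv_sub_comm]; exact M.nv_AB h0 hl d

include h0 hl in
theorem st1 (d : Φ) : nv (M.A (M.T1 d) - M.A d) ≤ ℓ := by
  rw [A_T1, nv_sub_comm]; exact M.nv_AC h0 hl d

include h0 hl hv in
theorem cross (e : Φ) (i j : ℤ) (he : nv (M.A e - c) + (|(i : ℝ)| + |(j : ℝ)| + 1) * ℓ < R) :
    (M.T0 ^ i) ((M.T1 ^ j) e) = (M.T1 ^ j) ((M.T0 ^ i) e) := by
  refine ind (P := fun n => (M.T0 ^ n) ((M.T1 ^ j) e) = (M.T1 ^ j) ((M.T0 ^ n) e))
    (a := |(i : ℝ)|) (by simp) (fun n hn _ => ?_) i le_rfl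
  have h1 := far M h0 (st0 M h0 hl) c e hn
  rw [up, up, ← comm_pow M orbS h0 hl hv _ j (by linarith)]
  exact M.T0.injective.eq_iff.symm

include h0 hl hv in
theorem comp (e : Φ) (x y : ℤ × ℤ)
    (he : nv (M.A e - c) + (|(y.1 : ℝ)| + |(x.1 : ℝ)| + |(y.2 : ℝ)| + 1) * ℓ < R) :
    M.ch x.1 x.2 (M.ch y.1 y.2 e) = M.ch (x + y).1 (x + y).2 e := by
  have h1 := far M h0 (st0 M h0 hl) c e (le_refl |(y.1 : ℝ)|)
  rw [ch_apply, ch_apply, ch_apply, cross M h0 hl hv _ x.1 y.2 (by linarith), Prod.fst_add,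
    Prod.snd_add, zpow_add, zpow_add, Equiv.Perm.mul_apply, Equiv.Perm.mul_apply]

theorem turn {g : Φ} (h : (M.r ^ 6) (M.s g) = M.s g) : M.T1 (M.r (M.T0 g)) = M.r (M.T1 g) := by
  have h6 : M.r (M.r (M.r (M.r (M.r (M.r (M.s g)))))) = M.s g := by
    simpa [pow_succ] using h
  rw [T1_apply, T1_apply, r_rinv, T0_apply, T0_apply, T0_apply, rinv_r]
  generalize M.r (M.r (M.r (M.r (M.r (M.s g))))) = y at h6 ⊢
  have hg : g = M.φ (M.φ y) := by rw [← M.s_r, h6, M.s2]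
  rw [M.s_r, hg, M.φ3, M.r_φ]

theorem glob (i : ℤ) (e : Φ) : (M.T0 ^ i) (M.r e) = M.r ((M.T1 ^ i) e) := by
  refine ind (P := fun n => (M.T0 ^ n) (M.r e) = M.r ((M.T1 ^ n) e)) (a := |(i : ℝ)|)
    (by simp) (fun n _ _ => ?_) i le_rfl
  rw [up, up, T1_apply, r_rinv]
  exact M.T0.injective.eq_iff.symm

include h0 hl hv in
theorem slant (e : Φ) (j : ℤ) (he : nv (M.A e - c) + (2 * |(j : ℝ)| + 1) * ℓ < R) :
    (M.T1 ^ j) (M.r e) = M.r ((M.T1 ^ j) ((M.T0 ^ (-j)) e)) := by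
  refine ind (P := fun n => (M.T1 ^ n) (M.r e) = M.r ((M.T1 ^ n) ((M.T0 ^ (-n)) e)))
    (a := |(j : ℝ)|) (by simp) (fun n hn hn' => ?_) j le_rfl
  have h1 := far M h0 (st0 M h0 hl) c e (n := -(n + 1)) (a := |(j : ℝ)|)
    (by rwa [Int.cast_neg, abs_neg])
  have e1 : (M.T0 ^ (-n)) e = M.T0 ((M.T0 ^ (-(n + 1))) e) := by
    rw [← up]; congr 2; ring
  generalize (M.T0 ^ (-(n + 1))) e = f at h1 e1 ⊢
  have h2 := far M h0 (st1 M h0 hl) c f hn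
  have h3 := mul_le_mul_of_nonneg_right hn h0
  have h4 := nv_tri (M.A (M.T0 ((M.T1 ^ n) f))) (M.A ((M.T1 ^ n) f)) c
  have h5 := st0 M h0 hl ((M.T1 ^ n) f)
  have h6 : M.deg (M.tl (M.s ((M.T1 ^ n) f))) = 6 := by
    refine hv _ ?_
    rw [M.tl_s, ← tl_T0]
    change nv (M.A (M.T0 ((M.T1 ^ n) f)) - c) < R
    linarith
  rw [e1, up, up, ← comm_pow M orbS h0 hl hv f n (by linarith), ← turn M (orbS _ _ M _ h6)]
  exact M.T1.injective.eq_iff.symm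

include h0 hl hv in
theorem rot1 (e : Φ) (x : ℤ × ℤ) {N : ℝ} (hx : ‖zz x‖ ≤ N)
    (he : nv (M.A e - c) + (6 * N + 1) * ℓ < R) :
    M.ch x.1 x.2 (M.r e) = M.r (M.ch (rot x).1 (rot x).2 e) := by
  have a1 := mul_le_mul_of_nonneg_right ((abs_le_zz x).1.trans (by linarith : _ ≤ 2 * N)) h0
  have a2 := mul_le_mul_of_nonneg_right ((abs_le_zz x).2.trans (by linarith : _ ≤ 2 * N)) h0
  have a3 := mul_nonneg (abs_nonneg (x.2 : ℝ)) h0
  have h1 := far M h0 (st1 M h0 hl) c e (le_refl |(x.1 : ℝ)|)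
  rw [ch_apply, ch_apply, glob, slant M h0 hl hv _ _ (by linarith),
    cross M h0 hl hv e (-x.2) x.1 (by rw [Int.cast_neg, abs_neg]; linarith)]
  simp only [rot]
  rw [add_comm x.1 x.2, zpow_add, Equiv.Perm.mul_apply]

include h0 hl hv in
theorem rotk (e : Φ) {N : ℝ} (he : nv (M.A e - c) + (6 * N + 1) * ℓ < R) (k : ℕ) :
    ∀ x : ℤ × ℤ, ‖zz x‖ ≤ N →
      M.ch x.1 x.2 ((M.r ^ k) e) = (M.r ^ k) (M.ch (rot^[k] x).1 (rot^[k] x).2 e) := by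
  induction k with
  | zero => intro x _; simp
  | succ k ih =>
    intro x hx
    have hA : M.A ((M.r ^ k) e) = M.A e := by rw [Mesh.A, Sweep.tl_pow, Mesh.A]
    rw [Sweep.r_succ, Sweep.r_succ, rot1 M h0 hl hv _ x hx (by rwa [hA]),
      ih (rot x) (by rw [zz_rot, norm_mul, norm_om, one_mul]; exact hx),
      Function.iterate_succ_apply]

end Grp

open Grp in
theorem grpS : GrpS := by
  intro ι Φ _ _ M ℓ h0 hl c R N d ⟨hc, hR, hv⟩ hN hd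
  have bd : ∀ {y : ℤ × ℤ} {a : ℝ}, ‖zz y‖ ≤ a →
      |(y.1 : ℝ)| * ℓ ≤ 2 * a * ℓ ∧ |(y.2 : ℝ)| * ℓ ≤ 2 * a * ℓ := fun {y a} hy =>
    ⟨mul_le_mul_of_nonneg_right ((abs_le_zz y).1.trans (by linarith)) h0,
      mul_le_mul_of_nonneg_right ((abs_le_zz y).2.trans (by linarith)) h0⟩
  have nl := mul_nonneg hN h0
  have n0 := nv_nonneg (M.A d - c)
  have CH := chartS orbS devS ι Φ M ℓ h0 hl
  refine ⟨fun y hy => ⟨?_, ?_⟩, fun y y' hy hy' e => ?_, fun d' y y' hy hy' e => ?_⟩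
  · have a1 := far M h0 (st0 M h0 hl) c d (le_refl |(y.1 : ℝ)|)
    obtain ⟨b1, b2⟩ := bd hy
    simp only [cp, Prod.fst_add, Prod.snd_add, add_zero]
    rw [ch_apply, ch_apply, up, ← comm_pow M orbS h0 hl hv _ y.2 (by linarith), A_T0]
  · simp only [cp, Prod.fst_add, Prod.snd_add, add_zero]
    exact (CH.1 d y.1 y.2).2
  · obtain ⟨c', k1, k2, k3⟩ := Pig.generic M hc
      (ε := (R - (nv (M.A d - c) + (100 * N + 100) * ℓ)) / 5) (by linarith) (by linarith)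
    have t1 := nv_tri (M.A d) c c'
    rw [nv_sub_comm c c'] at t1
    obtain ⟨b1, b2⟩ := bd hy
    obtain ⟨b3, b4⟩ := bd hy'
    have := (CH.2 c' (R - nv (c' - c)) k1 k2 (by linarith [nv_nonneg (c' - c)])
      fun v h => hv v (by linarith [nv_tri (M.p v) c' c])).2 d y.1 y.2 y'.1 y'.2
      (by linarith) (by linarith) e
    exact Prod.ext this.1 this.2
  · obtain ⟨k, -, hk⟩ := (Sweep.orbit M (M.ch y.1 y.2 d)).2 _ e.symm
    have n1 : nv (M.A (M.ch y.1 y.2 d) - M.A d) ≤ 4 * ‖zz y‖ * ℓ := cp_near M h0 hl d y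
    have n2 : nv (M.A (M.ch y'.1 y'.2 d') - M.A d') ≤ 4 * ‖zz y'‖ * ℓ := cp_near M h0 hl d' y'
    have eA : M.A (M.ch y'.1 y'.2 d') = M.A (M.ch y.1 y.2 d) := by rw [Mesh.A, ← e, Mesh.A]
    rw [eA, nv_sub_comm] at n2
    have m1 := mul_le_mul_of_nonneg_right hy h0
    have m2 := mul_le_mul_of_nonneg_right hy' h0
    have t1 := nv_tri (M.A (M.ch y.1 y.2 d)) (M.A d) c
    have t2 := nv_tri (M.A d') (M.A (M.ch y.1 y.2 d)) c
    refine ⟨k, y - rot^[k] y', ?_, fun x hx => ?_⟩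
    · rw [zz_sub]
      refine (norm_sub_le _ _).trans ?_
      rw [norm_iter]
      linarith
    · have hxy : ‖zz (x - y')‖ ≤ 2 * N := by
        rw [zz_sub]
        refine (norm_sub_le _ _).trans ?_
        linarith
      have hr : ‖zz (rot^[k] (x - y'))‖ ≤ 2 * N := by rwa [norm_iter]
      obtain ⟨b1, b2⟩ := bd hy
      obtain ⟨b3, b4⟩ := bd hy'
      obtain ⟨b5, -⟩ := bd hxy
      obtain ⟨b6, -⟩ := bd hr
      have e1 := comp M h0 hl hv d' (x - y') y' (by linarith)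
      rw [sub_add_cancel, ← hk, rotk M h0 hl hv _ (N := 2 * N) (by linarith) k _ hxy,
        comp M h0 hl hv d _ y (by linarith)] at e1
      have e2 : y - rot^[k] y' + rot^[k] x = rot^[k] (x - y') + y := by
        refine zz_inj ?_
        simp only [zz_add, zz_sub, zz_iter]
        ring
      rw [e2, cp, cp, ← e1, Mesh.A, Sweep.tl_pow, Mesh.A]

end Pool.Agent.MP_2ab689_gt.Hol
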