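import Pool.Agent.MP_2ab689_gt.Hol.Spec

/-!
The mean directions of two charts in one cap agree up to a sixth root of unity.
-/

namespace Pool.Agent.MP_2ab689_gt.Hol

open Pool.Agent.MP_2ab689_gt.Big

namespace Loc

theorem apr (hs : SymS) {ι Φ : Type} [Fintype ι] [Fintype Φ] (M : Mesh ι Φ) {h : ℝ}
    (hf : M.Fine h) {c : V} {U u : ℝ} {d : Φ} (hc : ip c c = 1) (hU : 200 ≤ U) (h1 : U / 2 ≤ u)
    (h2 : u ≤ 2 * U) (hd : nv (M.A d - c) ≤ U * h) :
    (∀ e, ip e e = 1 → ‖av (cp M d) h u 0 e‖ ≤ 73920) ∧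
      ‖av (cp M d) h u 0 c‖ ≤ 14229600 * (U * h) := by
  have h0 := hf.pos
  have u0 : 0 < u := by linarith
  obtain ⟨k1, k2⟩ := (hs (cp M d) h u 0 h0 (by linarith)).1 c (385 * (U * h)) fun y hy => by
    have a1 := cp_near M (by positivity) hf.edge d y
    have a2 := nv_tri (cp M d y) (M.A d) c
    have a3 := mul_le_mul_of_nonneg_right (hy.trans h2) h0.le
    rw [zero_add]
    linarith
  have hu : U * h ≤ 2 * (h * u) := by nlinarith
  have p0 : 0 ≤ U * h := by have : 0 ≤ U := by linarith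
                            positivity
  refine ⟨fun e he => (k1 e he).trans ?_, (k2 hc (cp_unit M d)).trans ?_⟩
  · rw [div_le_iff₀ (by positivity)]
    linarith
  · rw [div_le_iff₀ (by positivity)]
    nlinarith [mul_le_mul_of_nonneg_left hu p0]

theorem gbd {D C h U Y u u' : ℝ} (hC : 0 < C) (h0 : 0 < h) (hU : 0 < U) (hY : 0 ≤ Y)
    (h1 : U / 2 ≤ u) (h2 : U / 2 ≤ u')
    (hD : D ≤ C * h ^ 2 * (30000 * U) ^ 4 * (30000 * U + Y)) :
    128 * D / (h ^ 2 * u ^ 3 * u' ^ 3) ≤ 8192 * 30000 ^ 5 * C * ((U + Y) / U ^ 2) := by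
  have u0 : 0 < u := by linarith
  have u1 : 0 < u' := by linarith
  rw [div_le_iff₀ (by positivity)]
  calc 128 * D ≤ 128 * (C * h ^ 2 * (30000 * U) ^ 4 * (30000 * U + 30000 * Y)) := by
        refine mul_le_mul_of_nonneg_left (hD.trans ?_) (by norm_num)
        gcongr
        linarith
    _ = 8192 * 30000 ^ 5 * C * ((U + Y) / U ^ 2) * (h ^ 2 * (U / 2) ^ 3 * (U / 2) ^ 3) := by
        field_simp
        ring
    _ ≤ _ := by gcongr

end Loc

open Loc in
theorem locS (h1 : GrpS) (h2 : RigS) (h3 : SymS) (h4 : GramS) (h5 : AlgS) (h6 : CmpS) : LocS := by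
  obtain ⟨Cr, hr, r0, hr0, Hr⟩ := h2
  obtain ⟨Ca, a0, Ha⟩ := h5
  obtain ⟨Cc, hc, c0, hc0, Hc⟩ := h6
  set K : ℝ := 8192 * 30000 ^ 5 * Cr + 14229600 ^ 2 with hK
  have K0 : 0 < K := by positivity
  refine ⟨Ca * K + Cc * (4 * 73920) + 14229600, min hr hc, by positivity, lt_min hr0 hc0, ?_⟩
  intro ι Φ _ _ M h hf hh a b c R U u u' d d' F O hU u1 u2 u3 u4 hd hd' hR
  have h0 := hf.pos
  have U0 : 0 < U := by linarith
  have p0 : 0 < U * h := by positivity
  obtain ⟨A1, A2⟩ := apr h3 M hf F.1 hU u1 u2 hd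
  obtain ⟨B1, B2⟩ := apr h3 M hf F.1 hU u3 u4 hd'
  have Y0 := YY_nonneg M h c R
  set Y := YY M h c R with hY
  have q0 : 0 ≤ (U + Y) / U ^ 2 := by positivity
  set ε := (U + Y) / U ^ 2 + (U * h) ^ 2 with hε
  have e0 : 0 ≤ ε := by positivity
  have m1 : 0 ≤ Ca * K := by positivity
  have m2 : 0 ≤ Cc * (4 * 73920) := by positivity
  have m3 : 0 ≤ Ca * K * ε := by positivity
  have m4 : 0 ≤ Cc * (4 * 73920) * ε := by positivity
  refine ⟨⟨(B1 a O.1).trans (by linarith), (B1 b O.2.1).trans (by linarith),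
    B2.trans (by gcongr; linarith)⟩, ?_⟩
  by_cases hcase : Cc * (U + Y) ≤ U ^ 2
  · obtain ⟨y, y', hy, hy', e⟩ := Hc _ _ M h hf (hh.trans (min_le_right _ _)) c R U d d' F
      (by linarith) hd hd' hR hcase
    obtain ⟨j, y0, n0, e1⟩ := (h1 _ _ M (48 * h) (by positivity) hf.edge c R (5000 * U) d F
      (by linarith) (by nlinarith)).2.2 d' y y' hy hy' e
    have e2 := (h3 (cp M d) h u' y0 h0 (by linarith)).2 (cp M d') j
      fun x hx => e1 x (by linarith)
    have D := Hr _ _ M h hf (hh.trans (min_le_left _ _)) c R (30000 * U) d F (by linarith)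
      (by linarith)
    have z0 : ‖zz 0‖ = 0 := by rw [zz_zero, norm_zero]
    have G1 := h4 (cp M d) h (30000 * U) u u 0 0 a b c h0 (by linarith) (by linarith)
      (by linarith) (by linarith) O
    have G2 := h4 (cp M d) h (30000 * U) u' u' y0 y0 a b c h0 (by linarith) (by linarith)
      (by linarith) (by linarith) O
    have G3 := h4 (cp M d) h (30000 * U) u u' 0 y0 a b c h0 (by linarith) (by linarith)
      (by linarith) (by linarith) O
    have t1 : 8192 * 30000 ^ 5 * Cr * ((U + Y) / U ^ 2) ≤ K * ε := by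
      rw [hK, hε]
      gcongr
      · exact le_add_of_nonneg_right (by positivity)
      · exact le_add_of_nonneg_right (by positivity)
    have t2 : (14229600 * (U * h)) ^ 2 ≤ K * ε := by
      rw [mul_pow, hK, hε]
      gcongr
      · exact le_add_of_nonneg_left (by positivity)
      · exact le_add_of_nonneg_left q0
    have nw : ‖om ^ j‖ = 1 := by rw [norm_pow, norm_om, one_pow]
    have B3 : ‖av (cp M d) h u' y0 c‖ ≤ 14229600 * (U * h) := by
      rwa [e2, norm_mul, nw, one_mul] at B2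
    obtain ⟨k1, k2, k3⟩ := Ha _ _ _ _ _ _ (K * ε)
      (G1.1.trans ((Loc.gbd r0 h0 U0 Y0 u1 u1 D).trans t1))
      (G2.1.trans ((Loc.gbd r0 h0 U0 Y0 u3 u3 D).trans t1))
      (G3.1.trans ((Loc.gbd r0 h0 U0 Y0 u1 u3 D).trans t1))
      (G1.2.trans ((Loc.gbd r0 h0 U0 Y0 u1 u1 D).trans t1))
      (G2.2.trans ((Loc.gbd r0 h0 U0 Y0 u3 u3 D).trans t1))
      ((pow_le_pow_left₀ (norm_nonneg _) A2 2).trans t2)
      ((pow_le_pow_left₀ (norm_nonneg _) B3 2).trans t2)
    have t3 : Ca * (K * ε) ≤ (Ca * K + Cc * (4 * 73920) + 14229600) * ε := by linarith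
    refine ⟨by linarith, om ^ j, by rw [← pow_mul, mul_comm, pow_mul, om_six, one_pow], ?_, ?_⟩
    · refine le_trans (le_of_eq ?_) (k1.trans t3)
      rw [e2, e2, ← one_mul ‖_ - (_ + Complex.I * av (cp M d) h u' y0 b)‖, ← nw, ← norm_mul]
      congr 1
      ring
    · refine le_trans (le_of_eq ?_) (k2.trans t3)
      rw [e2, e2, ← one_mul ‖_ - (_ - Complex.I * av (cp M d) h u' y0 b)‖, ← nw, ← norm_mul]
      congr 1
      ring
  · have t1 : 1 ≤ Cc * ε := by
      have : 1 ≤ Cc * ((U + Y) / U ^ 2) := by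
        rw [← mul_div_assoc, le_div_iff₀ (by positivity)]
        linarith
      nlinarith [sq_nonneg (U * h)]
    have t2 : 4 * 73920 ≤ (Ca * K + Cc * (4 * 73920) + 14229600) * ε := by linarith
    have n1 : ∀ x y : ℂ, ‖x‖ ≤ 73920 → ‖y‖ ≤ 73920 →
        ‖x + Complex.I * y‖ ≤ 2 * 73920 ∧ ‖x - Complex.I * y‖ ≤ 2 * 73920 := fun x y hx hy => by
      have : ‖Complex.I * y‖ = ‖y‖ := by rw [norm_mul, Complex.norm_I, one_mul]
      exact ⟨(norm_add_le _ _).trans (by linarith), (norm_sub_le _ _).trans (by linarith)⟩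
    obtain ⟨s1, s2⟩ := n1 _ _ (A1 a O.1) (A1 b O.2.1)
    obtain ⟨s3, s4⟩ := n1 _ _ (B1 a O.1) (B1 b O.2.1)
    refine ⟨le_add_of_nonneg_of_le (by positivity) (by linarith), 1, one_pow _, ?_, ?_⟩
    · rw [one_mul]
      exact (norm_sub_le _ _).trans (by linarith)
    · rw [one_mul]
      exact (norm_sub_le _ _).trans (by linarith)

end Pool.Agent.MP_2ab689_gt.Hol
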