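import Pool.Agent.MP_2ab689_gt.Hol.Spec

/-! PROJECT HOL, row LOW: many defects. -/

namespace Pool.Agent.MP_2ab689_gt.Hol

open Pool.Agent.MP_2ab689_gt.Big Real Set

namespace LowerA

open Classical in
theorem cnt {h η : ℝ} (h0 : 0 < h) (hη : h ≤ η) (a c : ℝ) (I : ℕ) :
    h * (((Finset.range I).filter fun i : ℕ => |a + i * h - c| < η).card : ℝ) ≤ 3 * η := by
  set S := (Finset.range I).filter fun i : ℕ => |a + i * h - c| < η with hS
  rcases S.eq_empty_or_nonempty with e | e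
  · rw [e, Finset.card_empty, Nat.cast_zero]
    linarith
  have q : 0 ≤ 2 * η / h := by have : 0 ≤ η := by linarith
                               positivity
  have sub : S ⊆ Finset.Ico (S.min' e) (S.min' e + ⌈2 * η / h⌉₊) := fun i hi => by
    refine Finset.mem_Ico.2 ⟨S.min'_le i hi, ?_⟩
    have a1 := abs_lt.1 (Finset.mem_filter.1 hi).2
    have a2 := abs_lt.1 (Finset.mem_filter.1 (S.min'_mem e)).2
    have a3 : (i : ℝ) - S.min' e < 2 * η / h := by
      rw [lt_div_iff₀ h0]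
      linarith [a1.2, a2.1]
    have a4 := Nat.le_ceil (2 * η / h)
    exact_mod_cast (by push_cast; linarith : (i : ℝ) < ((S.min' e + ⌈2 * η / h⌉₊ : ℕ) : ℝ))
  have c1 := Finset.card_le_card sub
  rw [Nat.card_Ico, Nat.add_sub_cancel_left] at c1
  have c2 : (S.card : ℝ) ≤ 2 * η / h + 1 :=
    (Nat.cast_le.2 c1).trans (Nat.ceil_lt_add_one q).le
  calc h * S.card ≤ h * (2 * η / h + 1) := mul_le_mul_of_nonneg_left c2 h0.le
    _ = 2 * η + h := by field_simp
    _ ≤ _ := by linarith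

variable {ι Φ : Type} [Fintype ι] [Fintype Φ] {M : Mesh ι Φ}

theorem comb {h η r0 Cp B : ℝ} {τ : V → ℝ} (hτ : Tau M τ r0) (h0 : 0 < h) (h1 : h ≤ 1 / 36)
    (hη : h ≤ η) (hr : η ≤ r0) (hC : 0 ≤ Cp)
    (hp : ∀ (s : ℝ) (L : ℕ), 1 / 18 ≤ s → s ≤ 1 / 9 → 1 ≤ L * h → L * h ≤ 2 →
      (∀ φ, η ≤ τ (pt s φ)) →
      1 ≤ Cp * ∑ l ∈ Finset.range (2 * L), err M h τ (pt s (l * (2 * π / L))))
    (hb : ∀ (I L : ℕ) (G : Finset (ℕ × ℕ)), I * h ≤ 1 / 18 → 1 ≤ L * h → L * h ≤ 2 →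
      G ⊆ Finset.range I ×ˢ Finset.range (2 * L) → (∀ k ∈ G, η ≤ τ (gp h L k)) →
      h * ∑ k ∈ G, err M h τ (gp h L k) ≤ B) :
    1 / 36 ≤ Cp * B + 3 * η * M.defects.card := by
  classical
  set I := ⌊1 / 18 / h⌋₊ with hI
  set L := ⌈1 / h⌉₊ with hL
  have i1 : I * h ≤ 1 / 18 := (le_div_iff₀ h0).1 (Nat.floor_le (by positivity))
  have i2 : 1 / 18 < (I + 1) * h := (div_lt_iff₀ h0).1 (Nat.lt_floor_add_one _)
  have l1 : 1 ≤ L * h := (div_le_iff₀ h0).1 (Nat.le_ceil _)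
  have l2 : L * h ≤ 2 := by
    have a : (L : ℝ) < 1 / h + 1 := Nat.ceil_lt_add_one (by positivity)
    have b : (1 / h + 1) * h = 1 + h := by field_simp
    nlinarith
  set S := (Finset.range I).filter fun i : ℕ =>
    ∀ v ∈ M.defects, η ≤ |1 / 18 + i * h - M.p v 2| with hS
  have far : ∀ i ∈ S, ∀ φ, η ≤ τ (pt (1 / 18 + i * h) φ) := fun i hi φ => by
    rcases hτ.eq (pt (1 / 18 + i * h) φ) with e | ⟨v, a, e⟩
    · rw [e]; exact hr
    · rw [e]
      exact ((Finset.mem_filter.1 hi).2 v (Finset.mem_filter.2 ⟨Finset.mem_univ _, a⟩)).trans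
        (abs_two_le (pt (1 / 18 + i * h) φ - M.p v))
  have g1 : (S.card : ℝ) ≤ Cp * ∑ k ∈ S ×ˢ Finset.range (2 * L), err M h τ (gp h L k) := by
    rw [Finset.sum_product, Finset.mul_sum, Finset.card_eq_sum_ones, Nat.cast_sum]
    refine Finset.sum_le_sum fun i hi => ?_
    have a : (i : ℝ) ≤ I := Nat.cast_le.2 (Finset.mem_range.1 (Finset.mem_filter.1 hi).1).le
    have b : 0 ≤ (i : ℝ) * h := by positivity
    rw [Nat.cast_one]
    have c : (i : ℝ) * h ≤ I * h := mul_le_mul_of_nonneg_right a h0.le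
    simp only [gp]
    exact hp (1 / 18 + i * h) L (by linarith) (by linarith) l1 l2 (far i hi)
  have g2 := hb I L (S ×ˢ Finset.range (2 * L)) i1 l1 l2
    (Finset.product_subset_product_left (Finset.filter_subset _ _))
    fun k hk => far k.1 (Finset.mem_product.1 hk).1 (k.2 * (2 * π / L))
  have g3 : h * S.card ≤ Cp * B := by
    refine (mul_le_mul_of_nonneg_left g1 h0.le).trans ?_
    rw [mul_left_comm]
    exact mul_le_mul_of_nonneg_left g2 hC
  have sub : Finset.range I ⊆ S ∪ M.defects.biUnion fun v =>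
      (Finset.range I).filter fun i : ℕ => |1 / 18 + i * h - M.p v 2| < η := fun i hi => by
    rw [Finset.mem_union, or_iff_not_imp_left]
    intro k
    simp only [hS, Finset.mem_filter, hi, true_and, not_forall, not_le] at k
    obtain ⟨v, a, b⟩ := k
    exact Finset.mem_biUnion.2 ⟨v, a, Finset.mem_filter.2 ⟨hi, b⟩⟩
  have c1 := (Finset.card_le_card sub).trans ((Finset.card_union_le _ _).trans
    (Nat.add_le_add_left Finset.card_biUnion_le _))
  rw [Finset.card_range] at c1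
  have c2 : (I : ℝ) ≤ S.card + ∑ v ∈ M.defects,
      (((Finset.range I).filter fun i : ℕ => |1 / 18 + i * h - M.p v 2| < η).card : ℝ) := by
    exact_mod_cast c1
  have c3 := mul_le_mul_of_nonneg_left c2 h0.le
  rw [mul_add, Finset.mul_sum] at c3
  have c4 := Finset.sum_le_card_nsmul M.defects _ _ fun v _ => cnt h0 hη (1 / 18) (M.p v 2) I
  rw [nsmul_eq_mul] at c4
  linarith

theorem num {K G A r h l n W : ℝ} (hK : 0 < K) (hG : 0 < G) (r0 : 0 < r) (r1 : r ≤ 1)
    (rK : 1000 * K * r ≤ 1) (hA : 1000 * K * G ≤ A) (h0 : 0 < h) (l1 : 1 ≤ l) (hn : 0 ≤ n)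
    (W0 : 0 ≤ W) (hW : h * W ≤ G * l) (hs : 1000 * K * (G + 1) * (h * l) ≤ r ^ 3)
    (k : 1 / 36 ≤ K * (h / r ^ 2 + r + n * h * l + h ^ 2 * W / (A * h * l) +
      h * √W * √(1 / r ^ 2 + n * l)) + 3 * (A * h * l) * n) :
    1 ≤ 50 * (K + K * G / r + 3 * A) * (n * h * l ^ 2) := by
  have l0 : 0 < l := by linarith
  have A0 : 0 < A := lt_of_lt_of_le (by positivity) hA
  have hl : 0 < h * l := by positivity
  have x1 : n * h * l ≤ n * h * l ^ 2 :=
    mul_le_mul_of_nonneg_left (by nlinarith) (by positivity)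
  have t1 : K * (h / r ^ 2) ≤ 1 / 1000 := by
    rw [← mul_div_assoc, div_le_iff₀ (by positivity)]
    have a : r ^ 3 ≤ r ^ 2 := pow_le_pow_of_le_one r0.le r1 (by norm_num)
    have b : K * h ≤ K * (h * l) := mul_le_mul_of_nonneg_left (by nlinarith) hK.le
    nlinarith [mul_pos (mul_pos hK hG) hl]
  have t4 : K * (h ^ 2 * W / (A * h * l)) ≤ 1 / 1000 := by
    rw [← mul_div_assoc, div_le_iff₀ (by positivity)]
    have a := mul_le_mul_of_nonneg_left hW (mul_pos hK h0).le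
    nlinarith [mul_le_mul_of_nonneg_right hA hl.le]
  set T := h * √W * √(1 / r ^ 2 + n * l) with hT
  have e : T ^ 2 = h * (h * W) * (1 / r ^ 2 + n * l) := by
    rw [hT, mul_pow, mul_pow, sq_sqrt W0, sq_sqrt (by positivity)]
    ring
  have e2 : T ^ 2 ≤ h * (G * l) * (1 / r ^ 2 + n * l) := by
    rw [e]
    gcongr
  have t5 : T ≤ r + (G * (h * l) / r ^ 3 + G / r * (n * h * l ^ 2)) := by
    have a : G * (h * l) / r ^ 3 + G / r * (n * h * l ^ 2) =
        h * (G * l) * (1 / r ^ 2 + n * l) / r := by field_simp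
    rw [a, ← sub_le_iff_le_add', le_div_iff₀ r0]
    nlinarith [sq_nonneg (T - r), sq_nonneg T, sq_nonneg r]
  have t6 : K * (G * (h * l) / r ^ 3) ≤ 1 / 1000 := by
    rw [← mul_div_assoc, div_le_iff₀ (by positivity)]
    nlinarith [mul_pos hK hl]
  have t7 := mul_le_mul_of_nonneg_left t5 hK.le
  have t8 := mul_le_mul_of_nonneg_left x1 hK.le
  have t9 := mul_le_mul_of_nonneg_left x1 A0.le
  have f : 50 * (K + K * G / r + 3 * A) * (n * h * l ^ 2) = 50 * (K * (n * h * l ^ 2) +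
    K * (G / r * (n * h * l ^ 2)) + 3 * (A * (n * h * l ^ 2))) := by ring
  rw [f]
  simp only [mul_add] at k t7
  nlinarith

end LowerA

open LowerA in
theorem lowerS (h1 : ChnS) (h2 : ParS) (h3 : SmbS) : LowerS := by
  intro G hG
  obtain ⟨Cp, hp, Cp0, hp0, par⟩ := h2
  obtain ⟨Cb, hb, Cb0, hb0, smb⟩ := h3
  set K := Cp * Cb with hK
  have K0 : 0 < K := mul_pos Cp0 Cb0
  set r := 1 / (1000 * K + 1) with hr
  have r0 : 0 < r := by positivity
  have rK : (1000 * K + 1) * r = 1 := by rw [hr]; field_simp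
  have r1 : r ≤ 1 := by nlinarith [mul_pos K0 r0]
  set A := 960 + Cp + 1000 * K * G with hA
  have KG : 0 < 1000 * K * G := by positivity
  have A0 : 0 < A := by positivity
  clear_value A r K
  obtain ⟨δ, δ0, hδ⟩ := Metric.continuousAt_iff.1 (continuous_negMulLog.continuousAt (x := 0))
    (min (r / A) (r ^ 3 / (1000 * K * (G + 1)))) (by positivity)
  refine ⟨50 * (K + K * G / r + 3 * A), min (min hp hb) (min (δ / 2) (1 / 36)), by positivity,
    by positivity, fun ι Φ _ _ M h F hh hW => ?_⟩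
  simp only [le_min_iff] at hh
  obtain ⟨⟨a1, a2⟩, a3, a4⟩ := hh
  have h0 := F.pos
  have l1 : 1 ≤ log (1 / h) := by
    rw [le_log_iff_exp_le (by positivity), le_div_iff₀ h0]
    nlinarith [exp_one_lt_d9, exp_pos 1]
  have s := hδ (x := h) (by rw [dist_zero_right, Real.norm_of_nonneg h0.le]; linarith)
  rw [negMulLog_zero, dist_zero_right, Real.norm_eq_abs] at s
  have s' := (le_abs_self _).trans_lt s
  rw [show negMulLog h = h * log (1 / h) by rw [one_div, log_inv, negMulLog]; ring,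
    lt_min_iff, lt_div_iff₀ A0, lt_div_iff₀ (by positivity)] at s'
  set l := log (1 / h) with hl
  have η1 : A * h ≤ A * h * l := le_mul_of_one_le_right (by positivity) l1
  have η2 : 960 * h + Cp * h ≤ A * h := by rw [hA]; nlinarith [mul_pos KG h0]
  have η3 : 0 < Cp * h := by positivity
  obtain ⟨τ, hτ⟩ := (h1.2.2.2 ι Φ M).2 r
  have k := comb (η := A * h * l) hτ h0 a4 (by linarith) (by linarith [s'.1]) Cp0.le
    (fun s L b1 b2 b3 b4 b5 => par ι Φ M h F a1 τ r s L hτ r1 b1 b2 b3 b4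
      fun φ => le_trans (by linarith) (b5 φ))
    fun I L Gs b1 b2 b3 b4 b5 => smb ι Φ M h F a2 τ r _ I L Gs hτ r0 r1 (by linarith) b1 b2 b3 b4 b5
  rw [← mul_assoc, ← hK, ← hl] at k
  exact num K0 hG r0 r1 (by linarith) (by linarith) h0 l1 (Nat.cast_nonneg _)
    (Finset.sum_nonneg fun _ _ => sq_nonneg _) hW (by linarith [s'.2]) k

end Pool.Agent.MP_2ab689_gt.Hol
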