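import Pool.Agent.MP_2ab689_gt.Hol.Spec

/-!
Assembly: the number of irregular vertices of a maximiser.
-/

namespace Pool.Agent.MP_2ab689_gt.Hol

open Pool.Agent.MP_2ab689_gt.Big MeasureTheory Set Real WithLp

theorem flat_card {ι Φ : Type} [Fintype ι] [Fintype Φ] (M : Mesh ι Φ) {h C : ℝ} (hC : 0 ≤ C)
    (S : Finset Φ) (hS : ∀ d ∈ S, 1 ≤ C * (M.X2 h d + M.X2 h (M.s d))) :
    (S.card : ℝ) ≤ 6 * C * M.W h := by
  have e : ∑ d, M.X2 h d = 3 * M.W h := by
    unfold Mesh.X2 Mesh.W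
    rw [Finset.sum_add_distrib, Finset.sum_add_distrib, M.sum_φφ fun d => M.x h d ^ 2,
      M.sum_φ fun d => M.x h d ^ 2]
    ring
  calc (S.card : ℝ) = ∑ _d ∈ S, (1 : ℝ) := by simp
    _ ≤ ∑ d ∈ S, C * (M.X2 h d + M.X2 h (M.s d)) := Finset.sum_le_sum hS
    _ ≤ ∑ d, C * (M.X2 h d + M.X2 h (M.s d)) :=
      Finset.sum_le_sum_of_subset_of_nonneg (Finset.subset_univ _) fun d _ _ => by
        unfold Mesh.X2; positivity
    _ = _ := by
      rw [← Finset.mul_sum, Finset.sum_add_distrib, M.sum_s (M.X2 h), e]; ring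

theorem mainS (h1 : DelS) (h3 : BuildS) (h4 : StabS) (h5 : LowerS) (h6 : FltS) (h7 : EdgS) :
    MainS := by
  classical
  obtain ⟨C, c0, H⟩ := fine_of_max h1 exS h3
  obtain ⟨Cs, a, s0, a0, Hs⟩ := h4
  obtain ⟨Cl, b, l0, b0, Hl⟩ := h5 (16 * (Cs * (C + 1))) (by positivity)
  obtain ⟨Cf, f, cf0, f0, Hf⟩ := h6
  obtain ⟨Cd, g, cd0, g0, Hd⟩ := defS angS
  obtain ⟨K0, H⟩ := H (max (max (max (4 / a) (4 / b)) (max (4 / f) (4 / g))) 4)
  refine ⟨1 / (28 * Cl), (Cd + 6 * Cf) * (Cs * (C + 1)), K0, by positivity, by positivity,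
    fun K hK => ⟨(H K hK).1, fun P hP => ?_⟩⟩
  obtain ⟨Φ, i, M, u, h, S, hf, m2, -, m4⟩ := (H K hK).2 P hP
  have big := S.big
  simp only [max_le_iff] at big
  obtain ⟨⟨⟨b1, b2⟩, b3, b4⟩, b5⟩ := big
  have u0 : 0 < u := by linarith [S.one]
  have h0 := hf.pos
  have hu : h * u ≤ 1 := by nlinarith [S.h2, mul_pos h0 u0]
  rw [div_le_iff₀ a0] at b1
  rw [div_le_iff₀ b0] at b2
  rw [div_le_iff₀ f0] at b3
  rw [div_le_iff₀ g0] at b4
  have k1 := Hs _ _ M h hf (by nlinarith)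
  have k2 := Hl _ _ M h hf (by nlinarith)
  have k3 := Hf _ _ M h hf (by nlinarith)
  have k4 := (Hd _ _ M h hf (by nlinarith)).2
  beta_reduce at k1 k2 k3
  rw [S.e] at k1
  have L1 := S.log1
  have u1 : 1 ≤ u ^ 2 := by nlinarith
  have L2 : log K ≤ 4 * log (1 / h) := by
    rw [S.pow4, Real.log_pow]
    have := Real.log_le_log u0 (show u ≤ 1 / h by rw [le_div_iff₀ h0]; linarith)
    push_cast
    linarith
  have L3 : log (1 / h) ≤ log K := by
    refine Real.log_le_log (by positivity) ?_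
    rw [div_le_iff₀ h0, S.pow4]
    nlinarith [S.h1, mul_le_mul_of_nonneg_left u1 (show 0 ≤ h * u ^ 2 by positivity)]
  set L := log (K : ℝ)
  have w1 : M.W h ≤ Cs * (C + 1) * u ^ 2 * L := by
    have e1 : max (4 * π / 3 - 4 * √3 * π ^ 2 / (3 * K) - M.vol) 0 ≤ C * L / u ^ 6 := by
      refine max_le (m4.trans_eq ?_) (by positivity)
      rw [S.sqrt]
      congr 1
      rw [S.pow4]; ring
    have e2 : C * L / u ^ 6 ≤ C * L * u ^ 2 * h ^ 4 := by
      rw [div_le_iff₀ (by positivity)]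
      calc _ = C * L * 1 := by ring
        _ ≤ C * L * (h * u ^ 2) ^ 4 := by gcongr; exact one_le_pow₀ S.h1
        _ = _ := by ring
    have e3 : h ^ 4 ≤ L * u ^ 2 * h ^ 4 := le_mul_of_one_le_left (by positivity)
      (one_le_mul_of_one_le_of_one_le L1 u1)
    refine le_of_mul_le_mul_right (k1.trans ?_) (pow_pos h0 4)
    calc _ ≤ Cs * (C * L * u ^ 2 * h ^ 4 + L * u ^ 2 * h ^ 4) := by
          gcongr; exact e1.trans e2
      _ = _ := by ring
  have ex : P.extremePoints ℝ = range ((toLp 2 : V → E3) ∘ M.p) := by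
    rw [m2]
    exact ext_hull (by rintro _ ⟨i, rfl⟩; exact (norm_eq_one_iff _).mpr (M.unit i))
  rw [S.sqrt]
  constructor
  · have k5 := k2 (by
      calc h * M.W h ≤ h * (Cs * (C + 1) * u ^ 2 * L) := by gcongr
        _ = Cs * (C + 1) * (h * u ^ 2) * L := by ring
        _ ≤ Cs * (C + 1) * 4 * (4 * log (1 / h)) := by gcongr; exact S.h2
        _ = _ := by ring)
    have n1 : (M.defects.card : ℝ) ≤ 7 * (Finset.univ.filter fun v => M.deg v ≤ 5).card := by
      exact_mod_cast lowS _ _ M M.card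
    have n2 : (Finset.univ.filter fun v => M.deg v ≤ 5).card ≤
        {v | v ∈ P.extremePoints ℝ ∧ valence P v ≤ 5}.ncard := by
      rw [← Finset.card_image_of_injective _ ((toLp_injective 2).comp M.inj), ← ncard_coe_finset]
      refine ncard_le_ncard (fun x hx => ?_) ((finite_range _).subset fun x hx => ex ▸ hx.1)
      obtain ⟨v, hv, rfl⟩ := Finset.mem_image.mp hx
      refine ⟨ex ▸ mem_range_self v, ?_⟩
      rw [m2]
      exact (valS _ _ M v).trans (Finset.mem_filter.mp hv).2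
    have n3 : (M.defects.card : ℝ) ≤
        7 * ({v | v ∈ P.extremePoints ℝ ∧ valence P v ≤ 5}.ncard : ℝ) :=
      n1.trans (by gcongr)
    have L4 : 0 ≤ log (1 / h) := by linarith
    rw [div_le_iff₀ (by positivity), div_mul_eq_mul_div, div_le_iff₀ (by positivity)]
    calc 1 * u ^ 2 ≤ Cl * (M.defects.card * h * log (1 / h) ^ 2) * u ^ 2 := by gcongr
      _ = Cl * M.defects.card * (h * u ^ 2) * log (1 / h) ^ 2 := by ring
      _ ≤ Cl * (7 * ({v | v ∈ P.extremePoints ℝ ∧ valence P v ≤ 5}.ncard : ℝ)) * 4 * L ^ 2 := by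
        gcongr; exact S.h2
      _ = _ := by ring
  · set F : Finset Φ := Finset.univ.filter fun d => Flat M d with hF
    have n1 := flat_card M cf0.le F fun d hd => k3 d (Finset.mem_filter.mp hd).2
    have n2 : {v | v ∈ P.extremePoints ℝ ∧ valence P v ≠ 6}.ncard ≤ M.defects.card + F.card := by
      refine le_trans ?_ ((Finset.card_image_le (s := M.defects ∪ F.image M.tl)
        (f := (toLp 2 : V → E3) ∘ M.p)).trans ((Finset.card_union_le _ _).trans
          (Nat.add_le_add_left Finset.card_image_le _)))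
      rw [← ncard_coe_finset]
      refine ncard_le_ncard (fun x hx => ?_) (Finset.finite_toSet _)
      obtain ⟨x1, x2⟩ := hx
      rw [ex] at x1
      obtain ⟨v, rfl⟩ := x1
      refine Finset.mem_image.mpr ⟨v, ?_, rfl⟩
      by_contra k
      rw [Finset.mem_union, not_or] at k
      have d6 : M.deg v = 6 := by
        by_contra k'
        exact k.1 (by simpa [Mesh.defects] using k')
      have e1 := h7 _ _ M v fun d hd fl =>
        k.2 (Finset.mem_image.mpr ⟨d, Finset.mem_filter.mpr ⟨Finset.mem_univ _, fl⟩, hd⟩)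
      have e2 := valS _ _ M v
      rw [← m2, d6] at e1 e2
      exact x2 (le_antisymm e2 e1)
    have n3 : ({v | v ∈ P.extremePoints ℝ ∧ valence P v ≠ 6}.ncard : ℝ) ≤
        M.defects.card + F.card := by exact_mod_cast n2
    calc _ ≤ (Cd + 6 * Cf) * M.W h := by linarith
      _ ≤ (Cd + 6 * Cf) * (Cs * (C + 1) * u ^ 2 * L) := by gcongr
      _ = _ := by ring

end Pool.Agent.MP_2ab689_gt.Hol
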