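import Pool.Agent.MP_2ab689_gt.Hol.Spec

/-!
The holonomy of the lattice direction along one parallel.
-/

namespace Pool.Agent.MP_2ab689_gt.Hol

open Pool.Agent.MP_2ab689_gt.Big Real

namespace Par

theorem hol (hc : ChnS) (α : ℕ → ℂ) (t B : ℝ) (n : ℕ → ℕ) (e δ : ℕ → ℝ) (L : ℕ) (L0 : 0 < L)
    (t1 : 1 / 18 ≤ |t|) (t2 : |t| ≤ 1 / 9) (hB : ∀ l, ‖α l‖ ≤ B) (per : α L = α 0)
    (he : ∀ l, 0 ≤ e l)
    (hn : ∀ l, 1 ≤ n l ∧ n l ≤ L ∧ 6 * B ^ 5 * δ l ≤ ∑ m ∈ Finset.Ico l (l + n l), e m)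
    (hk : ∀ l, ∀ k ≤ n l, ∃ w : ℂ, w ^ 6 = 1 ∧ ‖α (l + k) -
      w * (Complex.exp (((t * (k * (2 * π / L)) : ℝ) : ℂ) * Complex.I) * α l)‖ ≤ δ l) :
    ‖α 0‖ ^ 6 ≤ ∑ m ∈ Finset.range (2 * L), e m := by
  have B0 : 0 ≤ B := (norm_nonneg _).trans (hB 0)
  have pw : ∀ k : ℕ, (Complex.exp (((t * (2 * π / L) : ℝ) : ℂ) * Complex.I) ^ 6) ^ k =
      Complex.exp (((t * (k * (2 * π / L)) : ℝ) : ℂ) * Complex.I) ^ 6 := fun k => by
    rw [← pow_mul, mul_comm 6 k, pow_mul, ← Complex.exp_nat_mul]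
    congr 2
    push_cast
    ring
  have k1 := hc.1 (fun l => α l ^ 6) (Complex.exp (((t * (2 * π / L) : ℝ) : ℂ) * Complex.I) ^ 6)
    n e L (by rw [norm_pow, Complex.norm_exp_ofReal_mul_I, one_pow]) he fun l =>
      ⟨(hn l).1, (hn l).2.1, fun k hk' => by
        obtain ⟨w, w1, w2⟩ := hk l k hk'
        rw [pw, ← mul_pow]
        refine (hc.2.2.1 _ _ w B w1 ?_ (hB _)).trans (le_trans ?_ (hn l).2.2)
        · rw [norm_mul, Complex.norm_exp_ofReal_mul_I, one_mul]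
          exact hB l
        · gcongr⟩
  have L1 : (L : ℝ) * (2 * π / L) = 2 * π := by
    have : (L : ℝ) ≠ 0 := by exact_mod_cast L0.ne'
    field_simp
  rw [pw, L1, per, ← one_sub_mul, norm_mul, norm_pow] at k1
  exact (le_mul_of_one_le_left (by positivity) (hc.2.1 t t1 t2)).trans k1

theorem ari {β U h t Y Y' : ℝ} (hβ : 1 ≤ β) (hU : 0 < U) (h0 : 0 < h) (hY : 0 ≤ Y) (hY' : Y ≤ Y')
    (t1 : β * (U * h) / 2 ≤ t) (t2 : t ≤ 2 * (β * (U * h))) :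
    (U + Y) / U ^ 2 + (U * h) ^ 2 ≤ 8 * β ^ 3 * U * (h ^ 2 / t ^ 2 + h ^ 3 / t ^ 3 * Y' + t * h) := by
  have b0 : 0 < β := by linarith
  have t0 : 0 < t := lt_of_lt_of_le (by positivity) t1
  have b4 : 1 ≤ β ^ 4 := one_le_pow₀ hβ
  calc _ = 1 / U + Y / U ^ 2 + 1 * (U * h) ^ 2 := by field_simp
    _ ≤ 2 * β / U + Y / U ^ 2 + 4 * β ^ 4 * (U * h) ^ 2 := by gcongr <;> linarith
    _ = 8 * β ^ 3 * U * (h ^ 2 / (2 * (β * (U * h))) ^ 2 + h ^ 3 / (2 * (β * (U * h))) ^ 3 * Y +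
        β * (U * h) / 2 * h) := by field_simp; ring
    _ ≤ _ := by gcongr

theorem close {a a' b E w : ℂ} {x y : ℝ} (hE : ‖E‖ = 1) (h1 : ‖w * a - b‖ ≤ x)
    (h2 : ‖a' - E * b‖ ≤ y) : ‖a' - w * (E * a)‖ ≤ x + y := by
  have : a' - w * (E * a) = (a' - E * b) - E * (w * a - b) := by ring
  rw [this]
  refine (norm_sub_le _ _).trans ?_
  rw [norm_mul, hE]
  linarith

theorem pm {x y : ℂ} {B : ℝ} (hx : ‖x‖ ≤ B) (hy : ‖y‖ ≤ B) :
    ‖x + Complex.I * y‖ ≤ 2 * B ∧ ‖x - Complex.I * y‖ ≤ 2 * B := by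
  have : ‖Complex.I * y‖ = ‖y‖ := by rw [norm_mul, Complex.norm_I, one_mul]
  exact ⟨(norm_add_le _ _).trans (by linarith), (norm_sub_le _ _).trans (by linarith)⟩

end Par

open Par in
theorem parS (h1 : LocS) (h2 : FrmS) (h3 : ChnS) : ParS := by
  classical
  obtain ⟨C, h₁, c0, hh0, H⟩ := h1
  obtain ⟨β, hβ⟩ : ∃ β : ℝ, β = 4 * 10 ^ 10 := ⟨_, rfl⟩
  have b1 : 4 ≤ β := by rw [hβ]; norm_num
  have b0 : 0 < β := by linarith
  obtain ⟨K, hK⟩ : ∃ K : ℝ, K = (6 * (2 * C) ^ 5 * 11 + 1) * C * (128 * β ^ 3) := ⟨_, rfl⟩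
  have K0 : 0 < K := by rw [hK]; positivity
  refine ⟨K + 200 * β, min h₁ (1 / 100), by positivity, lt_min hh0 (by norm_num), ?_⟩
  intro ι Φ _ _ M h hf hh τ r0 s L T r1 s1 s2 L1 L2 hτ
  have h0 := hf.pos
  have sa : |s| ≤ 1 := abs_le.2 ⟨by linarith, by linarith⟩
  have H := H _ _ M h hf (hh.trans (min_le_left _ _))
  have : Nonempty Φ := ⟨((h3.2.2.2 _ _ M).1 h hf (hh.trans (min_le_right _ _)) _
    (pt_unit sa 0)).choose⟩
  choose! D hD using (h3.2.2.2 _ _ M).1 h hf (hh.trans (min_le_right _ _))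
  obtain ⟨U, hU⟩ : ∃ U : ℝ → ℝ, ∀ φ, τ (pt s φ) = β * (U φ * h) :=
    ⟨fun φ => τ (pt s φ) / (β * h), fun φ => by field_simp⟩
  have U1 : ∀ φ, 200 ≤ U φ := fun φ => by
    have k := hτ φ
    rw [hU] at k
    have : 200 * (β * h) ≤ U φ * (β * h) := by nlinarith [mul_pos K0 h0]
    exact le_of_mul_le_mul_right this (by positivity)
  have U0 : ∀ φ, 0 < U φ := fun φ => by linarith [U1 φ]
  have p0 : ∀ φ, 0 < U φ * h := fun φ => mul_pos (U0 φ) h0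
  have p1 : ∀ φ, 4 * (U φ * h) ≤ β * (U φ * h) := fun φ =>
    mul_le_mul_of_nonneg_right b1 (p0 φ).le
  have U2 : ∀ φ, U φ * h ≤ 1 := fun φ => by linarith [T.le (pt s φ), hU φ, p1 φ, p0 φ]
  obtain ⟨a, ha⟩ : ∃ a : ℝ → ℂ, ∀ φ, a φ = av (cp M (D (pt s φ))) h (U φ) 0 (ea φ) :=
    ⟨_, fun _ => rfl⟩
  obtain ⟨b, hb⟩ : ∃ b : ℝ → ℂ, ∀ φ, b φ = av (cp M (D (pt s φ))) h (U φ) 0 (no s φ) :=
    ⟨_, fun _ => rfl⟩
  obtain ⟨ε, hε⟩ : ∃ ε : ℝ → ℝ, ∀ φ, ε φ =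
      (U φ + YY M h (pt s φ) (τ (pt s φ) / 4)) / U φ ^ 2 + (U φ * h) ^ 2 := ⟨_, fun _ => rfl⟩
  have e1 : ∀ φ, (U φ * h) ^ 2 ≤ ε φ := fun φ => by
    have := YY_nonneg M h (pt s φ) (τ (pt s φ) / 4)
    have := U0 φ
    rw [hε]
    exact le_add_of_nonneg_left (by positivity)
  have key : ∀ φ δ, 0 ≤ δ → δ ≤ U φ * h / 2 →
      (δ = 0 → ‖a φ‖ ≤ C ∧ ‖b φ‖ ≤ C) ∧
      4 ≤ ‖a φ + Complex.I * b φ‖ ^ 2 + ‖a φ - Complex.I * b φ‖ ^ 2 + C * ε φ ∧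
      ε φ ≤ 8 * β ^ 3 * U φ * err M h τ (pt s (φ + δ)) ∧ ∃ w : ℂ, w ^ 6 = 1 ∧
      ‖a (φ + δ) + Complex.I * b (φ + δ) - w * (Complex.exp (((-s * δ : ℝ) : ℂ) * Complex.I) *
        (a φ + Complex.I * b φ))‖ ≤ 11 * (C * ε φ) ∧
      ‖a (φ + δ) - Complex.I * b (φ + δ) - w * (Complex.exp (((s * δ : ℝ) : ℂ) * Complex.I) *
        (a φ - Complex.I * b φ))‖ ≤ 11 * (C * ε φ) := by
    intro φ δ d0 d1
    obtain ⟨O, N, Fr⟩ := h2 s φ δ sa (abs_le.2 ⟨by linarith, by linarith [U2 φ]⟩)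
    rw [abs_of_nonneg d0] at N Fr
    have l1 := T.lip (pt s (φ + δ)) (pt s φ)
    have l2 := T.lip (pt s φ) (pt s (φ + δ))
    rw [nv_sub_comm] at l2
    have q0 := p0 φ
    have q1 := p1 φ
    have q2 := hU φ
    have q3 := hU (φ + δ)
    have q4 : 200 * h ≤ U φ * h := mul_le_mul_of_nonneg_right (U1 φ) h0.le
    have q5 := nv_tri (M.A (D (pt s (φ + δ)))) (pt s (φ + δ)) (pt s φ)
    have u1 : U φ / 2 ≤ U (φ + δ) :=
      le_of_mul_le_mul_right (by linarith : U φ / 2 * (β * h) ≤ U (φ + δ) * (β * h))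
        (by positivity)
    have u2 : U (φ + δ) ≤ 2 * U φ :=
      le_of_mul_le_mul_right (by linarith : U (φ + δ) * (β * h) ≤ 2 * U φ * (β * h))
        (by positivity)
    have F : Free M (pt s φ) (τ (pt s φ) / 4) := ⟨pt_unit sa φ, by linarith [T.le (pt s φ)],
      fun v hv => by
        by_contra k
        have := T.far (pt s φ) v k
        rw [nv_sub_comm] at this
        linarith⟩
    obtain ⟨⟨k1, k2, k3⟩, k4, w, w1, w2, w3⟩ := H _ _ _ _ (U φ) (U φ) (U (φ + δ)) (D (pt s φ))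
      (D (pt s (φ + δ))) F O (U1 φ) (by linarith [U0 φ]) (by linarith [U0 φ]) u1 u2
      (by linarith [hD _ (pt_unit sa φ)])
      (by linarith [hD _ (pt_unit sa (φ + δ)), q5]) (by rw [q2, hβ]; linarith)
    obtain ⟨f1, f2⟩ := Fr _ h _ C _ k1 k2 k3
    rw [← hε, ← ha, ← hb] at k4 w2 w3
    rw [← ha, ← hb] at f1 f2
    have g : C * ε φ + 10 * (C * δ ^ 2 + C * (U φ * h) * δ) ≤ 11 * (C * ε φ) := by
      have g1 : δ ^ 2 + U φ * h * δ ≤ ε φ := by nlinarith [e1 φ]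
      linarith [mul_le_mul_of_nonneg_left g1 c0.le]
    refine ⟨fun e => ?_, k4, ?_, w, w1, ?_, ?_⟩
    · rw [e, add_zero, ← ha] at k1
      rw [e, add_zero, ← hb] at k2
      exact ⟨k1, k2⟩
    · rw [hε]
      exact ari (by linarith) (U0 φ) h0 (YY_nonneg M h _ _)
        (YY_mono M h (by rw [nv_sub_comm]; linarith)) (by linarith) (by linarith)
    · rw [neg_mul]
      exact (close (Complex.norm_exp_ofReal_mul_I _) w2 f1).trans g
    · exact (close (Complex.norm_exp_ofReal_mul_I _) w3 f2).trans g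
  have L0 : (0 : ℝ) < L := by
    by_contra k
    nlinarith [mul_nonneg (neg_nonneg.2 (not_lt.1 k)) h0.le]
  have L0' : 0 < L := by exact_mod_cast L0
  obtain ⟨Δ, hΔ⟩ : ∃ Δ : ℝ, Δ = 2 * π / L := ⟨_, rfl⟩
  have D0 : 0 < Δ := by rw [hΔ]; positivity
  have D1 : (L : ℝ) * Δ = 2 * π := by rw [hΔ]; field_simp
  have D2 : Δ ≤ 7 * h := by
    have : Δ * 1 ≤ Δ * (L * h) := by gcongr
    nlinarith [mul_le_mul_of_nonneg_right pi_lt_d2.le h0.le]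
  obtain ⟨n, hn⟩ : ∃ n : ℕ → ℕ, ∀ l, n l = ⌊U (l * Δ) * h / (2 * Δ)⌋₊ := ⟨_, fun _ => rfl⟩
  have n1 : ∀ l, ∀ k ≤ n l, (k : ℝ) * Δ ≤ U (l * Δ) * h / 2 := fun l k hk => by
    have k1 : (k : ℝ) ≤ U (l * Δ) * h / (2 * Δ) := by
      refine le_trans (by exact_mod_cast hk) (?_ : (n l : ℝ) ≤ _)
      rw [hn]
      exact Nat.floor_le (div_pos (p0 _) (by positivity)).le
    rw [le_div_iff₀ (by positivity)] at k1
    linarith
  have n2 : ∀ l : ℕ, U (l * Δ) ≤ 16 * n l := fun l => by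
    have k1 := Nat.lt_floor_add_one (U (l * Δ) * h / (2 * Δ))
    rw [← hn, div_lt_iff₀ (by positivity)] at k1
    have k2 : U (l * Δ) * h ≤ (n l + 1) * 14 * h := by
      nlinarith [mul_le_mul_of_nonneg_left D2 (show (0 : ℝ) ≤ n l + 1 by positivity)]
    linarith [le_of_mul_le_mul_right k2 h0, U1 (l * Δ)]
  have er : ∀ φ, 0 ≤ err M h τ (pt s φ) := fun φ => by
    have := YY_nonneg M h (pt s φ) (τ (pt s φ) / 2)
    have : 0 < τ (pt s φ) := by rw [hU]; exact mul_pos b0 (p0 φ)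
    unfold err
    positivity
  have ph : ∀ l k : ℕ, ((l + k : ℕ) : ℝ) * Δ = l * Δ + k * Δ := fun l k => by push_cast; ring
  have n3 : ∀ l : ℕ, (6 * (2 * C) ^ 5 * 11 + 1) * (C * ε (l * Δ)) ≤
      ∑ m ∈ Finset.Ico l (l + n l), K * err M h τ (pt s (m * Δ)) := fun l => by
    have k1 : ∀ m ∈ Finset.Ico l (l + n l),
        ε (l * Δ) ≤ 8 * β ^ 3 * U (l * Δ) * err M h τ (pt s (m * Δ)) := fun m hm => by
      obtain ⟨k, rfl⟩ := Nat.exists_eq_add_of_le (Finset.mem_Ico.1 hm).1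
      rw [ph]
      exact (key _ _ (by positivity) (n1 l k (by have := (Finset.mem_Ico.1 hm).2; omega))).2.2.1
    have k2 := Finset.card_nsmul_le_sum _ _ _ k1
    rw [Nat.card_Ico, add_tsub_cancel_left, nsmul_eq_mul, ← Finset.mul_sum] at k2
    have k3 : 0 ≤ ε (l * Δ) := (sq_nonneg _).trans (e1 _)
    have k4 : U (l * Δ) * ε (l * Δ) ≤ U (l * Δ) *
        (128 * β ^ 3 * ∑ m ∈ Finset.Ico l (l + n l), err M h τ (pt s (m * Δ))) := by
      linarith [mul_le_mul_of_nonneg_right (n2 l) k3]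
    have k5 := mul_le_mul_of_nonneg_left (le_of_mul_le_mul_left k4 (U0 _))
      (show 0 ≤ (6 * (2 * C) ^ 5 * 11 + 1) * C by positivity)
    rw [← Finset.mul_sum, hK]
    linarith
  have n4 : ∀ l, 1 ≤ n l ∧ n l ≤ L := fun l => by
    have k1 : (0 : ℝ) < n l := by linarith [n2 l, U0 (l * Δ)]
    have k2 : (n l : ℝ) * Δ ≤ L * Δ := by linarith [n1 l _ le_rfl, U2 (l * Δ), pi_gt_three]
    exact ⟨by exact_mod_cast k1, by exact_mod_cast le_of_mul_le_mul_right k2 D0⟩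
  have ce : ∀ φ, 0 ≤ C * ε φ := fun φ => mul_nonneg c0.le ((sq_nonneg _).trans (e1 φ))
  have n5 : ∀ l, 1 ≤ n l ∧ n l ≤ L ∧ 6 * (2 * C) ^ 5 * (11 * (C * ε (l * Δ))) ≤
      ∑ m ∈ Finset.Ico l (l + n l), K * err M h τ (pt s (m * Δ)) := fun l =>
    ⟨(n4 l).1, (n4 l).2, by linarith [n3 l, ce (l * Δ)]⟩
  have bd : ∀ φ, ‖a φ + Complex.I * b φ‖ ≤ 2 * C ∧ ‖a φ - Complex.I * b φ‖ ≤ 2 * C := fun φ => by
    obtain ⟨k1, k2⟩ := (key φ 0 le_rfl (by linarith [p0 φ])).1 rfl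
    exact pm k1 k2
  have pp : pt s (L * Δ) = pt s ((0 : ℕ) * Δ) := by simp [D1, pt]
  have pU : U (L * Δ) = U ((0 : ℕ) * Δ) := by
    have k := hU (L * Δ)
    rw [pp, hU] at k
    exact (mul_right_cancel₀ h0.ne' (mul_left_cancel₀ b0.ne' k)).symm
  have pa : a (L * Δ) = a ((0 : ℕ) * Δ) := by
    rw [ha, ha, pp, pU]; congr 1; simp [D1, ea]
  have pb : b (L * Δ) = b ((0 : ℕ) * Δ) := by
    rw [hb, hb, pp, pU]; congr 1; simp [D1, no]
  have sp : |s| = s := abs_of_nonneg (by linarith)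
  have r1 := hol h3 (fun l => a (l * Δ) + Complex.I * b (l * Δ)) (-s) (2 * C) n
    (fun m => K * err M h τ (pt s (m * Δ))) (fun l => 11 * (C * ε (l * Δ))) L L0'
    (by rwa [abs_neg, sp]) (by rwa [abs_neg, sp]) (fun l => (bd _).1) (by rw [pa, pb])
    (fun l => mul_nonneg K0.le (er _)) n5 fun l k hk => by
      obtain ⟨w, w1, w2, -⟩ := (key _ _ (by positivity) (n1 l k hk)).2.2.2
      rw [← hΔ, ph]
      exact ⟨w, w1, w2⟩
  have r2 := hol h3 (fun l => a (l * Δ) - Complex.I * b (l * Δ)) s (2 * C) n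
    (fun m => K * err M h τ (pt s (m * Δ))) (fun l => 11 * (C * ε (l * Δ))) L L0'
    (by rwa [sp]) (by rwa [sp]) (fun l => (bd _).2) (by rw [pa, pb])
    (fun l => mul_nonneg K0.le (er _)) n5 fun l k hk => by
      obtain ⟨w, w1, -, w2⟩ := (key _ _ (by positivity) (n1 l k hk)).2.2.2
      rw [← hΔ, ph]
      exact ⟨w, w1, w2⟩
  have r3 : ∑ m ∈ Finset.Ico 0 (0 + n 0), K * err M h τ (pt s (m * Δ)) ≤
      ∑ m ∈ Finset.range (2 * L), K * err M h τ (pt s (m * Δ)) :=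
    Finset.sum_le_sum_of_subset_of_nonneg (fun m hm => by
      have := (Finset.mem_Ico.1 hm).2
      have := (n4 0).2
      rw [Finset.mem_range]
      omega) fun _ _ _ => mul_nonneg K0.le (er _)
  have r4 := (key ((0 : ℕ) * Δ) 0 le_rfl (half_pos (p0 _)).le).2.1
  have r5 : C * ε ((0 : ℕ) * Δ) ≤ ∑ m ∈ Finset.range (2 * L), K * err M h τ (pt s (m * Δ)) := by
    refine le_trans ?_ ((n3 0).trans r3)
    exact le_mul_of_one_le_left (ce _) (le_add_of_nonneg_left (by positivity))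
  rw [← hΔ]
  by_contra k
  have S0 : 0 ≤ ∑ m ∈ Finset.range (2 * L), err M h τ (pt s (m * Δ)) :=
    Finset.sum_nonneg fun _ _ => er _
  rw [← Finset.mul_sum] at r1 r2 r5
  have S1 : K * ∑ m ∈ Finset.range (2 * L), err M h τ (pt s (m * Δ)) ≤ 1 := by
    nlinarith [mul_nonneg b0.le S0]
  have t1 := pow_le_one₀ (n := 2) (norm_nonneg _)
    ((pow_le_one_iff_of_nonneg (norm_nonneg _) (by norm_num)).1 (r1.trans S1))
  have t2 := pow_le_one₀ (n := 2) (norm_nonneg _)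
    ((pow_le_one_iff_of_nonneg (norm_nonneg _) (by norm_num)).1 (r2.trans S1))
  beta_reduce at t1 t2
  linarith

end Pool.Agent.MP_2ab689_gt.Hol
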