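import Pool.Agent.MP_2ab689_gt.Hol.Spec

/-!
Row RIG: rigidity in the mean.
-/

namespace Pool.Agent.MP_2ab689_gt.Hol

open Pool.Agent.MP_2ab689_gt.Big Real Set

namespace RigA

/-- The comparison of the chords from one point with the lattice. -/
theorem lay {ι : Type} (s : ι → ℝ) (hs : ∀ v, 0 ≤ s v) (f : ℤ × ℤ → ι) {h t e : ℝ} (h0 : 0 < h)
    (ht : 0 ≤ t) (hinj : ∀ y ∈ Lat (t ^ 2), ∀ y' ∈ Lat (t ^ 2), f y = f y' → y = y')
    (hcnt : ∀ x, 0 ≤ x → x ≤ (t * h) ^ 2 → ∀ U : Finset ι, (∀ v ∈ U, s v ≤ x) →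
      (U.card : ℝ) ≤ 2 * π / √3 * (x / h ^ 2) + e) :
    ∑ y ∈ Lat (t ^ 2), (h ^ 2 * qf y - s (f y)) ≤ (t * h) ^ 2 * (e + 20 * (t + 1)) := by
  classical
  have hh : 0 < h ^ 2 := by positivity
  obtain ⟨a1, -, -, -⟩ := latS (t ^ 2) (by positivity)
  have k := layerS (ℤ × ℤ) (ℤ × ℤ) (Lat (t ^ 2)) (Lat (t ^ 2)) (fun y => s (f y))
    (fun y => h ^ 2 * qf y) ((t * h) ^ 2) (e + 20 * (t + 1)) (by positivity)
    (fun _ _ => hs _) (fun y _ => mul_nonneg hh.le (Cap.qf_nonneg y)) (by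
      intro x x0 x1
      obtain ⟨b1, -, b3, -⟩ := latS (x / h ^ 2) (by positivity)
      have x2 : x / h ^ 2 ≤ t ^ 2 := by
        rw [div_le_iff₀ hh]
        linarith [mul_pow t h 2]
      have e1 : ((Lat (t ^ 2)).filter fun y => h ^ 2 * qf y ≤ x) = Lat (x / h ^ 2) := by
        ext y
        rw [Finset.mem_filter, a1, b1]
        constructor
        · intro k
          rw [le_div_iff₀ hh]
          linarith [k.2]
        · intro k
          refine ⟨k.trans x2, ?_⟩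
          rw [le_div_iff₀ hh] at k
          linarith
      have e2 := hcnt x x0 x1 (((Lat (t ^ 2)).filter fun y => s (f y) ≤ x).image f) (by
        intro v hv
        obtain ⟨y, hy, rfl⟩ := Finset.mem_image.mp hv
        exact (Finset.mem_filter.mp hy).2)
      rw [Finset.card_image_of_injOn (fun y hy y' hy' k => hinj y (Finset.mem_filter.mp hy).1 y'
        (Finset.mem_filter.mp hy').1 k)] at e2
      have e3 : √(x / h ^ 2) ≤ t := by
        rw [Real.sqrt_le_iff]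
        exact ⟨ht, x2⟩
      rw [e1]
      linarith)
  have l1 : ∑ y ∈ Lat (t ^ 2), ((t * h) ^ 2 - s (f y)) ≤ _ :=
    (Finset.sum_le_sum fun y _ => le_max_left _ 0).trans k
  have l2 : ∑ y ∈ Lat (t ^ 2), max ((t * h) ^ 2 - h ^ 2 * qf y) 0 =
      ∑ y ∈ Lat (t ^ 2), ((t * h) ^ 2 - h ^ 2 * qf y) := by
    refine Finset.sum_congr rfl fun y hy => max_eq_left ?_
    have := mul_le_mul_of_nonneg_left ((a1 y).mp hy) hh.le
    linarith [mul_pow t h 2]
  rw [l2, Finset.sum_sub_distrib, Finset.sum_sub_distrib] at l1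
  rw [Finset.sum_sub_distrib]
  linarith

theorem abs_split (r T : ℝ) : |r - T| = (T - r) + 2 * max (r - T) 0 := by
  rcases le_total r T with k | k
  · rw [abs_of_nonpos (by linarith), max_eq_right (by linarith)]; ring
  · rw [abs_of_nonneg (by linarith), max_eq_left (by linarith)]; ring

end RigA

open RigA in
theorem rigS (h1 : GrpS) (h2 : CntS) (h3 : UpbS) : RigS := by
  obtain ⟨C, h0, C0, h00, hC⟩ := h2
  refine ⟨12 * C + 276, h0, by positivity, h00, ?_⟩
  intro ι Φ _ _ M h hF hh0 c R t d hfree ht hR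
  have hp := hF.pos
  have t0 : 0 ≤ t := by linarith
  have th : 0 < t * h := by positivity
  have hth : 100 * h ≤ t * h := mul_le_mul_of_nonneg_right ht hp.le
  have hR' : nv (M.A d - c) + 100000 * (t * h) ≤ R := by
    have e : (10 : ℝ) ^ 5 * t * h = 100000 * (t * h) := by ring
    linarith
  have n0 := nv_nonneg (M.A d - c)
  have R2 := hfree.2.1
  set Y := YY M h c R with hY
  have Y0 : 0 ≤ Y := YY_nonneg M h c R
  have g := (h1 ι Φ M (48 * h) (by positivity) hF.edge c R (2 * t) d hfree (by linarith) (by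
    have e : (100 * (2 * t) + 100) * (48 * h) = 9600 * (t * h) + 4800 * h := by ring
    linarith)).2.1
  have cL := (card_Lat ht).2
  have f1 : ∀ y ∈ Lat (t ^ 2), ∑ v ∈ Lat (t ^ 2),
      (h ^ 2 * qf v - ip (cp M d (y + v) - cp M d y) (cp M d (y + v) - cp M d y)) ≤
        (t * h) ^ 2 * (C * (t + 1 + Y) + 20 * (t + 1)) := by
    intro y hy
    rw [mem_Lat t0] at hy
    have a1 : nv (cp M d y - M.A d) ≤ 192 * (t * h) := by
      refine (cp_near M (by positivity) hF.edge d y).trans ?_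
      have := mul_le_mul_of_nonneg_right hy hp.le
      linarith [show 4 * ‖zz y‖ * (48 * h) = 192 * (‖zz y‖ * h) by ring]
    have a2 := nv_tri (cp M d y) (M.A d) c
    have nz : ∀ v ∈ Lat (t ^ 2), ‖zz (y + v)‖ ≤ 2 * t := fun v hv => by
      rw [mem_Lat t0] at hv
      rw [zz_add]
      linarith [norm_add_le (zz y) (zz v)]
    refine lay (fun u => ip (M.p u - cp M d y) (M.p u - cp M d y)) (fun _ => ip_self_nonneg _)
      (fun v => M.tl (M.ch (y + v).1 (y + v).2 d)) hp t0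
      (fun v hv v' hv' k => add_left_cancel (g _ _ (nz v hv) (nz v' hv') k)) ?_
    intro x x0 x1 U hU
    have sx : √x ≤ t * h := by
      rw [Real.sqrt_le_iff]; exact ⟨th.le, x1⟩
    have sx' : √x / h ≤ t := by rwa [div_le_iff₀ hp]
    have k := hC ι Φ M h hF hh0 c (cp M d y) x R (cp_unit M d y) x0 (by nlinarith) (by linarith) U
      fun v hv => ⟨hfree.2.2 v (by
        have k1 : nv (M.p v - cp M d y) ≤ t * h := (nv_le_iff th.le).mpr ((hU v hv).trans x1)
        linarith [nv_tri (M.p v) (cp M d y) c]), hU v hv⟩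
    have k2 : C * (√x / h + 1 + Y) ≤ C * (t + 1 + Y) :=
      mul_le_mul_of_nonneg_left (by linarith) C0.le
    linarith
  have f2 : ∀ v ∈ Lat (t ^ 2), ∑ y ∈ Lat (t ^ 2),
      max (ip (cp M d (y + v) - cp M d y) (cp M d (y + v) - cp M d y) - h ^ 2 * qf v) 0 ≤
        3 * h ^ 2 * t ^ 2 * Y := fun v hv =>
    h3 ι Φ M h hF c R t d hfree (by linarith) hR v ((mem_Lat t0).1 hv)
  have s1 := Finset.sum_le_sum f1
  have s2 := Finset.sum_le_sum f2
  rw [Finset.sum_const, nsmul_eq_mul] at s1 s2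
  rw [Finset.sum_comm] at s2
  have s3 : ((Lat (t ^ 2)).card : ℝ) * ((t * h) ^ 2 * (C * (t + 1 + Y) + 20 * (t + 1))) ≤
      6 * t ^ 2 * ((t * h) ^ 2 * ((2 * C + 40) * (t + Y))) := by
    have k : C * (t + 1 + Y) + 20 * (t + 1) ≤ (2 * C + 40) * (t + Y) := by
      nlinarith [mul_nonneg C0.le Y0, mul_nonneg C0.le (show 0 ≤ t - 1 by linarith)]
    gcongr
  have s4 : ((Lat (t ^ 2)).card : ℝ) * (3 * h ^ 2 * t ^ 2 * Y) ≤
      6 * t ^ 2 * (3 * h ^ 2 * t ^ 2 * (t + Y)) := by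
    have k : Y ≤ t + Y := by linarith
    gcongr
  have e : dev (cp M d) h t = ∑ y ∈ Lat (t ^ 2), ∑ v ∈ Lat (t ^ 2),
      (h ^ 2 * qf v - ip (cp M d (y + v) - cp M d y) (cp M d (y + v) - cp M d y)) +
      2 * ∑ y ∈ Lat (t ^ 2), ∑ v ∈ Lat (t ^ 2),
        max (ip (cp M d (y + v) - cp M d y) (cp M d (y + v) - cp M d y) - h ^ 2 * qf v) 0 := by
    simp only [dev, abs_split, Finset.sum_add_distrib, Finset.mul_sum]
  rw [e]
  have e2 : (12 * C + 276) * h ^ 2 * t ^ 4 * (t + Y) =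
      6 * t ^ 2 * ((t * h) ^ 2 * ((2 * C + 40) * (t + Y))) +
        2 * (6 * t ^ 2 * (3 * h ^ 2 * t ^ 2 * (t + Y))) := by ring
  rw [e2]
  linarith

end Pool.Agent.MP_2ab689_gt.Hol
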