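import Pool.Agent.MP_2ab689_gt.Hol.Spec

/-!
Row SMA: the strain weighted by the inverse distance to the defects.
-/

namespace Pool.Agent.MP_2ab689_gt.Hol

open Pool.Agent.MP_2ab689_gt.Big Real Set

namespace SmaA

variable {ι Φ : Type} [Fintype ι] [Fintype Φ] {M : Mesh ι Φ}

theorem sumX (M : Mesh ι Φ) (h : ℝ) : ∑ d, M.X2 h d = 3 * M.W h := by
  unfold Mesh.X2 Mesh.W
  rw [Finset.sum_add_distrib, Finset.sum_add_distrib, M.sum_φφ fun d => M.x h d ^ 2,
    M.sum_φ fun d => M.x h d ^ 2]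
  ring

theorem abs_x {h : ℝ} (hf : M.Fine h) (d : Φ) : |M.x h d| ≤ 2304 := by
  have h2 : 0 < h ^ 2 := pow_pos hf.pos 2
  have a : M.sq d / h ^ 2 ≤ 2304 := by
    rw [div_le_iff₀ h2]
    linarith [hf.edge d]
  have b : 0 ≤ M.sq d / h ^ 2 := div_nonneg (M.sq_nonneg d) h2.le
  unfold Mesh.x
  rw [abs_le]
  constructor <;> linarith

theorem inv_sq {τ : V → ℝ} {r0 e : ℝ} (t : Tau M τ r0) (e0 : 0 < e) {x : V} (hx : e ≤ τ x) :
    (1 / τ x) ^ 2 ≤ 1 / r0 ^ 2 +
      ∑ v ∈ M.defects, 2 * (1 / (ip (x - M.p v) (x - M.p v) + e ^ 2)) := by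
  have p : ∀ v ∈ M.defects, 0 ≤ 2 * (1 / (ip (x - M.p v) (x - M.p v) + e ^ 2)) := fun v _ =>
    mul_nonneg zero_le_two (div_nonneg zero_le_one (add_nonneg (ip_self_nonneg _) (sq_nonneg _)))
  rcases t.eq x with k | ⟨v, hv, k⟩
  · rw [k, div_pow, one_pow]
    exact le_add_of_nonneg_right (Finset.sum_nonneg p)
  · have m : v ∈ M.defects := by simpa [Mesh.defects] using hv
    refine le_add_of_nonneg_of_le (by positivity) (le_trans ?_ (Finset.single_le_sum p m))
    have t0 : 0 < τ x := e0.trans_le hx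
    have s : e ^ 2 ≤ τ x ^ 2 := pow_le_pow_left₀ e0.le hx 2
    rw [← nv_sq, ← k, div_pow, one_pow, mul_one_div, div_le_div_iff₀ (by positivity) (by positivity)]
    linarith

end SmaA

open SmaA in
theorem smaS : SmaS := by
  classical
  obtain ⟨Ck, a1, k0, p1, H1⟩ := packS
  obtain ⟨Cb, a2, b0, p2, H2⟩ := badS
  refine ⟨√(96 + 2 * Ck) + 6912 * Cb, min (min a1 a2) 1, by positivity, by positivity,
    fun ι Φ _ _ M h hf hh τ r0 η t r0p hη => ?_⟩
  simp only [le_min_iff] at hh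
  obtain ⟨⟨g1, g2⟩, g3⟩ := hh
  have hp := hf.pos
  have e0 : 0 < 480 * h := by positivity
  have η0 : 0 < η := e0.trans_le hη
  have W0 := M.W_nonneg h
  have l0 : 0 ≤ log (1 / h) := Real.log_nonneg (one_le_one_div hp g3)
  set ℓ := log (1 / h) with hℓ
  set T := Finset.univ.filter fun d => η ≤ τ (M.A d) with hT
  have mT : ∀ d ∈ T, η ≤ τ (M.A d) := fun d hd => (Finset.mem_filter.1 hd).2
  set Q : ℝ := 1 / r0 ^ 2 + M.defects.card * ℓ with hQ
  have Q0 : 0 ≤ Q := by positivity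
  have S1 : ∑ d ∈ T.filter (· ∈ M.good h), (1 / τ (M.A d)) ^ 2 ≤ (96 + 2 * Ck) * Q / h ^ 2 := by
    have sub : T.filter (· ∈ M.good h) ⊆ M.good h := fun d hd => (Finset.mem_filter.1 hd).2
    refine (Finset.sum_le_sum fun d hd =>
      inv_sq t e0 (hη.trans (mT d (Finset.mem_filter.1 hd).1))).trans ?_
    rw [Finset.sum_add_distrib, Finset.sum_comm]
    have u1 : ∑ v ∈ M.defects, ∑ d ∈ T.filter (· ∈ M.good h),
        2 * (1 / (ip (M.A d - M.p v) (M.A d - M.p v) + (480 * h) ^ 2)) ≤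
        M.defects.card * (2 * (Ck * ℓ / h ^ 2)) := by
      rw [← nsmul_eq_mul]
      refine Finset.sum_le_card_nsmul _ _ _ fun v _ => ?_
      rw [← Finset.mul_sum]
      refine mul_le_mul_of_nonneg_left (le_trans (Finset.sum_le_sum_of_subset_of_nonneg sub
        fun d _ _ => ?_) (H1 ι Φ M h hf g1 _ (M.unit v))) zero_le_two
      exact div_nonneg zero_le_one (add_nonneg (ip_self_nonneg _) (sq_nonneg _))
    have u2 : ∑ _d ∈ T.filter (· ∈ M.good h), (1 : ℝ) / r0 ^ 2 ≤ 96 / h ^ 2 * (1 / r0 ^ 2) := by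
      rw [Finset.sum_const, nsmul_eq_mul]
      refine mul_le_mul_of_nonneg_right ?_ (by positivity)
      rw [le_div_iff₀ (by positivity)]
      refine le_trans (mul_le_mul_of_nonneg_right ?_ (sq_nonneg h)) hf.card_le
      exact_mod_cast Finset.card_le_univ _
    refine (add_le_add u2 u1).trans ?_
    have e : (96 + 2 * Ck) * Q / h ^ 2 = 96 / h ^ 2 * (1 / r0 ^ 2) +
        M.defects.card * (2 * (Ck * ℓ / h ^ 2)) +
        (96 * (M.defects.card * ℓ) + 2 * Ck * (1 / r0 ^ 2)) / h ^ 2 := by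
      rw [hQ]
      ring
    rw [e]
    exact le_add_of_nonneg_right (by positivity)
  have S2 : ∑ d ∈ T.filter (· ∈ M.good h), |M.x h d| / τ (M.A d) ≤
      √(96 + 2 * Ck) * (√(M.W h) * √Q / h) := by
    have c := Finset.sum_mul_sq_le_sq_mul_sq (T.filter (· ∈ M.good h)) (fun d => |M.x h d|)
      fun d => 1 / τ (M.A d)
    have w : ∑ d ∈ T.filter (· ∈ M.good h), |M.x h d| ^ 2 ≤ M.W h := by
      simp only [sq_abs]
      exact Finset.sum_le_sum_of_subset_of_nonneg (Finset.subset_univ _) fun _ _ _ => sq_nonneg _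
    simp only [mul_one_div] at c
    refine (abs_le_of_sq_le_sq' (c.trans ?_) (by positivity)).2
    rw [mul_pow, div_pow, mul_pow, Real.sq_sqrt (by positivity), Real.sq_sqrt W0, Real.sq_sqrt Q0]
    refine (mul_le_mul w S1 (Finset.sum_nonneg fun _ _ => sq_nonneg _) W0).trans (le_of_eq ?_)
    ring
  have S3 : ∑ d ∈ T.filter (· ∉ M.good h), |M.x h d| / τ (M.A d) ≤ 6912 * Cb * (M.W h / η) := by
    have x0 : ∀ d, 0 ≤ M.X2 h d := fun d => by
      unfold Mesh.X2
      positivity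
    calc _ ≤ ∑ d ∈ T.filter (· ∉ M.good h), 2304 * Cb / η * M.X2 h d :=
          Finset.sum_le_sum fun d hd => by
            obtain ⟨d1, d2⟩ := Finset.mem_filter.1 hd
            have a := H2 ι Φ M h hf g2 d d2
            rw [div_mul_eq_mul_div]
            refine div_le_div₀ (mul_nonneg (by positivity) (x0 d)) ?_ η0 (mT d d1)
            linarith [abs_x hf d]
      _ ≤ ∑ d, 2304 * Cb / η * M.X2 h d :=
          Finset.sum_le_sum_of_subset_of_nonneg (Finset.subset_univ _) fun d _ _ =>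
            mul_nonneg (by positivity) (x0 d)
      _ = _ := by
          rw [← Finset.mul_sum, sumX]
          ring
  rw [← Finset.sum_filter_add_sum_filter_not T (· ∈ M.good h)]
  have A0 : 0 ≤ √(M.W h) * √Q / h := by positivity
  have B0 : 0 ≤ M.W h / η := by positivity
  have s0 := Real.sqrt_nonneg (96 + 2 * Ck)
  nlinarith [mul_nonneg s0 B0, mul_nonneg b0.le A0]

end Pool.Agent.MP_2ab689_gt.Hol
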