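import Pool.Agent.MP_2ab689_gt.Hol.Spec

/-! Row SMB: the error density summed over grid points far from the defects. -/

namespace Pool.Agent.MP_2ab689_gt.Hol

open Pool.Agent.MP_2ab689_gt.Big Real Set

namespace SmbA

open Classical in
theorem one {κ : Type} {G : Finset κ} {g : κ → V} {h C : ℝ} (h0 : 0 < h) (hh : h ≤ 1 / 3)
    (hC : 0 < C) (hg : ∀ k ∈ G, ip (g k) (g k) = 1)
    (hG : ∀ x r, h ≤ r → ((G.filter fun k => nv (g k - x) ≤ r).card : ℝ) ≤ C * (r / h) ^ 2)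
    {z : V} (hz : ip z z = 1) :
    ∑ k ∈ G, 1 / (nv (g k - z) ^ 2 + h ^ 2) ≤ 20 * C * log (1 / h) / h ^ 2 := by
  have hL : 1 ≤ log (1 / h) := by
    rw [le_log_iff_exp_le (by positivity), le_div_iff₀ h0]
    nlinarith [exp_one_lt_d9, exp_pos 1]
  set L := log (1 / h) with hL'
  have hn : 1 / h ≤ 2 ^ ⌈2 * L⌉₊ := by
    rw [← log_le_log_iff (by positivity) (by positivity), log_pow, ← hL']
    have := mul_le_mul (Nat.le_ceil (2 * L)) (show (1 / 2 : ℝ) ≤ log 2 by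
      linarith [log_two_gt_d9]) (by norm_num) (Nat.cast_nonneg _)
    linarith
  have hn2 : (⌈2 * L⌉₊ : ℝ) + 1 + 1 ≤ 5 * L := by
    have := Nat.ceil_lt_add_one (show 0 ≤ 2 * L by linarith)
    linarith
  generalize ⌈2 * L⌉₊ = n at hn hn2
  have h1 : ∀ k ∈ G, 1 / (nv (g k - z) ^ 2 + h ^ 2) ≤ ∑ j ∈ Finset.range (n + 1 + 1),
      if nv (g k - z) ≤ 2 ^ j * h then 4 / (2 ^ j * h) ^ 2 else 0 := fun k hk => by
    refine Pack.dyadic h0 (n + 1) ?_
    have a1 := nv_tri (g k) 0 z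
    rw [sub_zero, zero_sub, nv_neg, nv_eq_one hz, nv_eq_one (hg k hk)] at a1
    rw [div_le_iff₀ h0] at hn
    rw [pow_succ]
    linarith
  refine (Finset.sum_le_sum h1).trans ?_
  rw [Finset.sum_comm]
  have h2 : ∀ j ∈ Finset.range (n + 1 + 1), (∑ k ∈ G, if nv (g k - z) ≤ 2 ^ j * h
      then 4 / (2 ^ j * h) ^ 2 else 0) ≤ 4 * C / h ^ 2 := fun j _ => by
    have b1 : h ≤ 2 ^ j * h := le_mul_of_one_le_left h0.le (one_le_pow₀ one_le_two)
    generalize 2 ^ j * h = ρ at b1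
    have b2 : 0 < ρ := by linarith
    rw [← Finset.sum_filter, Finset.sum_const, nsmul_eq_mul]
    exact (mul_le_mul_of_nonneg_right (hG z ρ b1) (by positivity)).trans_eq (by field_simp)
  refine (Finset.sum_le_card_nsmul _ _ _ h2).trans ?_
  rw [Finset.card_range, nsmul_eq_mul, Nat.cast_succ, Nat.cast_succ, mul_div_assoc']
  exact div_le_div_of_nonneg_right (by nlinarith) (by positivity)

variable {ι Φ : Type} [Fintype ι] [Fintype Φ] {M : Mesh ι Φ} {τ : V → ℝ} {r0 h η : ℝ}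

theorem inv_sq (hτ : Tau M τ r0) (h0 : 0 < h) {x : V} (hx : h ≤ τ x) :
    1 / τ x ^ 2 ≤ 1 / r0 ^ 2 + ∑ v ∈ M.defects, 2 * (1 / (nv (x - M.p v) ^ 2 + h ^ 2)) := by
  have p : ∀ v ∈ M.defects, 0 ≤ 2 * (1 / (nv (x - M.p v) ^ 2 + h ^ 2)) := fun _ _ => by positivity
  rcases hτ.eq x with e | ⟨v, hv, e⟩
  · rw [e]
    exact le_add_of_nonneg_right (Finset.sum_nonneg p)
  · refine le_add_of_nonneg_of_le (by positivity) (le_trans ?_
      (Finset.single_le_sum p (show v ∈ M.defects by simpa [Mesh.defects] using hv)))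
    have t0 : 0 < τ x := by linarith
    rw [← e, mul_one_div, div_le_div_iff₀ (by positivity) (by positivity)]
    nlinarith

open Classical in
theorem inv_cube (hτ : Tau M τ r0) (hη : 0 < η) {x : V} (hx : η ≤ τ x) :
    1 / τ x ^ 3 * YY M h x (τ x / 2) ≤ ∑ d ∈ Finset.univ.filter fun d => η / 2 ≤ τ (M.A d),
      if nv (x - M.A d) ≤ τ (M.A d) then 4 * |M.x h d| / τ (M.A d) ^ 3 else 0 := by
  have t0 : 0 < τ x := by linarith
  have k : ∀ d ∈ M.near x (τ x / 2), nv (x - M.A d) ≤ τ x / 2 ∧ τ x / 2 ≤ τ (M.A d) ∧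
      τ (M.A d) ≤ 3 / 2 * τ x := fun d hd => by
    have a := (Cap.mem_near M).1 hd
    have b := hτ.lip x (M.A d)
    have c := hτ.lip (M.A d) x
    rw [nv_sub_comm] at a c
    exact ⟨a, by linarith, by linarith⟩
  rw [YY, Finset.mul_sum]
  refine (Finset.sum_le_sum fun d hd => ?_).trans (Finset.sum_le_sum_of_subset_of_nonneg
    (fun d hd => Finset.mem_filter.2 ⟨Finset.mem_univ _, by linarith [(k d hd).2.1]⟩)
    fun d hd _ => ?_)
  · obtain ⟨a, b, c⟩ := k d hd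
    have t1 : 0 < τ (M.A d) := by linarith
    rw [if_pos (a.trans b), mul_div_right_comm]
    refine mul_le_mul_of_nonneg_right ?_ (abs_nonneg _)
    rw [div_le_div_iff₀ (by positivity) (by positivity)]
    have := pow_le_pow_left₀ t1.le c 3
    nlinarith [pow_pos t0 3]
  · have t1 : 0 < τ (M.A d) := by linarith [(Finset.mem_filter.1 hd).2]
    positivity

end SmbA

open Classical in
theorem smbS (h1 : GrdS) (h2 : SmaS) : SmbS := by
  obtain ⟨C₁, c1, h1⟩ := h1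
  obtain ⟨C₂, g, c2, g0, h2⟩ := h2
  refine ⟨1 + 40 * C₁ + 8 * C₁ * C₂, min g (1 / 3), by positivity, by positivity,
    fun ι Φ _ _ M h hF hh τ r0 η I L G hτ r1 _ hη hI hL1 hL2 hG hτη => ?_⟩
  obtain ⟨hg, hh⟩ := le_min_iff.1 hh
  have h0 := hF.pos
  have η0 : 0 < η := by linarith
  have hc : ∀ x r, h ≤ r → ((G.filter fun k => nv (gp h L k - x) ≤ r).card : ℝ) ≤
      C₁ * (r / h) ^ 2 := fun x r hr =>
    (Nat.cast_le.2 (Finset.card_le_card (Finset.filter_subset_filter _ hG))).trans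
      (h1 h r I L x h0 hI hL1 hL2 hr)
  have hu : ∀ k ∈ G, ip (gp h L k) (gp h L k) = 1 := fun k hk => by
    have a : (k.1 : ℝ) ≤ I := Nat.cast_le.2 (Finset.mem_range.1 (Finset.mem_product.1 (hG hk)).1).le
    have b := mul_le_mul_of_nonneg_right a h0.le
    have c : 0 ≤ (k.1 : ℝ) * h := by positivity
    exact pt_unit (abs_le.2 ⟨by linarith, by linarith⟩) _
  have hN : (G.card : ℝ) * h ^ 2 ≤ 1 := by
    have a := Finset.card_le_card hG
    rw [Finset.card_product, Finset.card_range, Finset.card_range] at a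
    have b : (G.card : ℝ) ≤ I * (2 * L) := by exact_mod_cast a
    have c := mul_le_mul hI hL2 (by positivity) (by norm_num)
    nlinarith [mul_le_mul_of_nonneg_right b (sq_nonneg h)]
  have s1 : ∑ k ∈ G, 1 / τ (gp h L k) ^ 2 ≤
      G.card * (1 / r0 ^ 2) + M.defects.card * (2 * (20 * C₁ * log (1 / h) / h ^ 2)) := by
    refine (Finset.sum_le_sum fun k hk =>
      SmbA.inv_sq hτ h0 (by linarith [hτη k hk] : h ≤ τ (gp h L k))).trans ?_
    rw [Finset.sum_add_distrib, Finset.sum_const, nsmul_eq_mul, Finset.sum_comm, ← nsmul_eq_mul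
      M.defects.card]
    refine add_le_add le_rfl (Finset.sum_le_card_nsmul _ _ _ fun v _ => ?_)
    rw [← Finset.mul_sum]
    exact mul_le_mul_of_nonneg_left (SmbA.one h0 hh c1 hu hc (M.unit v)) (by norm_num)
  have s2 : ∑ k ∈ G, 1 / τ (gp h L k) ^ 3 * YY M h (gp h L k) (τ (gp h L k) / 2) ≤
      4 * C₁ / h ^ 2 * (C₂ * (√(M.W h) * √(1 / r0 ^ 2 + M.defects.card * log (1 / h)) / h +
        M.W h / (η / 2))) := by
    refine (Finset.sum_le_sum fun k hk => SmbA.inv_cube hτ η0 (hτη k hk)).trans (le_trans ?_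
      (mul_le_mul_of_nonneg_left (h2 ι Φ M h hF hg τ r0 (η / 2) hτ r1 (by linarith))
        (by positivity)))
    rw [Finset.sum_comm, Finset.mul_sum]
    refine Finset.sum_le_sum fun d hd => ?_
    have a := (Finset.mem_filter.1 hd).2
    have t1 : 0 < τ (M.A d) := by linarith
    rw [← Finset.sum_filter, Finset.sum_const, nsmul_eq_mul]
    exact (mul_le_mul_of_nonneg_right (hc (M.A d) _ (by linarith)) (by positivity)).trans_eq
      (by field_simp)
  have s3 : ∑ k ∈ G, τ (gp h L k) ≤ G.card * r0 := by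
    rw [← nsmul_eq_mul]
    exact Finset.sum_le_card_nsmul _ _ _ fun k _ => hτ.le _
  have e : ∑ k ∈ G, err M h τ (gp h L k) = h ^ 2 * ∑ k ∈ G, 1 / τ (gp h L k) ^ 2 +
      h ^ 3 * ∑ k ∈ G, 1 / τ (gp h L k) ^ 3 * YY M h (gp h L k) (τ (gp h L k) / 2) +
      h * ∑ k ∈ G, τ (gp h L k) := by
    simp only [Finset.mul_sum, ← Finset.sum_add_distrib]
    exact Finset.sum_congr rfl fun k _ => by rw [err]; ring
  have l0 : 0 ≤ log (1 / h) := log_nonneg (by rw [le_div_iff₀ h0]; linarith)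
  have w0 : 0 ≤ M.W h := Finset.sum_nonneg fun _ _ => sq_nonneg _
  obtain ⟨a, ha⟩ : ∃ a, a = h / r0 ^ 2 := ⟨_, rfl⟩
  obtain ⟨b, hb⟩ : ∃ b, b = M.defects.card * h * log (1 / h) := ⟨_, rfl⟩
  obtain ⟨c, hc'⟩ : ∃ c, c = h ^ 2 * M.W h / η := ⟨_, rfl⟩
  obtain ⟨d, hd⟩ : ∃ d, d = h * √(M.W h) * √(1 / r0 ^ 2 + M.defects.card * log (1 / h)) := ⟨_, rfl⟩
  have a0 : 0 ≤ a := by rw [ha]; positivity
  have b0 : 0 ≤ b := by rw [hb]; positivity
  have c0 : 0 ≤ c := by rw [hc']; positivity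
  have d0 : 0 ≤ d := by rw [hd]; positivity
  rw [e, ← ha, ← hb, ← hc', ← hd]
  refine (mul_le_mul_of_nonneg_left (add_le_add (add_le_add
    (mul_le_mul_of_nonneg_left s1 (by positivity)) (mul_le_mul_of_nonneg_left s2 (by positivity)))
    (mul_le_mul_of_nonneg_left s3 h0.le)) h0.le).trans (le_trans (b := G.card * h ^ 2 * (a + r0) +
      40 * C₁ * b + 4 * (C₁ * C₂) * (d + 2 * c)) (le_of_eq ?_) ?_)
  · rw [ha, hb, hc', hd]
    generalize √(1 / r0 ^ 2 + M.defects.card * log (1 / h)) = u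
    generalize log (1 / h) = v
    field_simp
    ring
  · have p := mul_pos c1 c2
    nlinarith [mul_le_mul_of_nonneg_right hN (add_nonneg a0 r1.le), mul_nonneg c1.le a0,
      mul_nonneg c1.le c0, mul_nonneg c1.le d0, mul_pos c1 r1, mul_nonneg p.le a0,
      mul_nonneg p.le b0, mul_nonneg p.le d0, mul_pos p r1]

end Pool.Agent.MP_2ab689_gt.Hol
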