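import Pool.Agent.MP_2ab689_gt.Big.Final
import Pool.Agent.MP_2ab689_gt.Big.Exv
import Pool.Agent.MP_2ab689_gt.Big.Tri1
import Pool.Agent.MP_2ab689_gt.Big.Tri2
import Pool.Agent.MP_2ab689_gt.Big.Sweep
import Pool.Agent.MP_2ab689_gt.Big.Chart
import Pool.Agent.MP_2ab689_gt.Big.Seg
import Pool.Agent.MP_2ab689_gt.Big.Lat
import Pool.Agent.MP_2ab689_gt.Big.Chord
import Pool.Agent.MP_2ab689_gt.Big.Count
import Pool.Agent.MP_2ab689_gt.Big.Cap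
import Pool.Agent.MP_2ab689_gt.Big.Pig
import Pool.Agent.MP_2ab689_gt.Big.Pack

/-!
PROJECT HOL: the number of irregular vertices of a maximiser, by the holonomy of the lattice
direction along parallels.  Definitions, basic facts and the statements of the rows.
-/

namespace Pool.Agent.MP_2ab689_gt.Hol

open Pool.Agent.MP_2ab689_gt.Big Real Set

/-- A lattice point as a complex number. -/
noncomputable def zz (y : ℤ × ℤ) : ℂ := (y.1 : ℂ) + (y.2 : ℂ) * om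

/-- Rotation by sixty degrees. -/
def rot (y : ℤ × ℤ) : ℤ × ℤ := (-y.2, y.1 + y.2)

/-- The second moment of a window. -/
noncomputable def mm (u : ℝ) : ℝ := ∑ y ∈ Lat (u ^ 2), qf y

/-- The mean direction of `P` on the window of radius `u` about `y0`, paired with `e`. -/
noncomputable def av (P : ℤ × ℤ → V) (h u : ℝ) (y0 : ℤ × ℤ) (e : V) : ℂ :=
  ((2 / (h * mm u) : ℝ) : ℂ) *
    ∑ y ∈ Lat (u ^ 2), (starRingEnd ℂ) (zz y) * ((ip (P (y0 + y)) e : ℝ) : ℂ)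

/-- The deviation of the squared chords from those of the lattice. -/
noncomputable def dev (P : ℤ × ℤ → V) (h t : ℝ) : ℝ :=
  ∑ y ∈ Lat (t ^ 2), ∑ v ∈ Lat (t ^ 2), |ip (P (y + v) - P y) (P (y + v) - P y) - h ^ 2 * qf v|

/-- Orthonormal bases. -/
def Onb (a b c : V) : Prop :=
  ip a a = 1 ∧ ip b b = 1 ∧ ip c c = 1 ∧
    ∀ x y, ip x y = ip x a * ip y a + ip x b * ip y b + ip x c * ip y c

section
variable {ι Φ : Type} [Fintype ι] [Fintype Φ] (M : Mesh ι Φ)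

/-- The chart with base flag `d`. -/
def cp (d : Φ) (y : ℤ × ℤ) : V := M.A (M.ch y.1 y.2 d)

/-- A cap without defects. -/
def Free (c : V) (R : ℝ) : Prop :=
  ip c c = 1 ∧ R ≤ 1 / 2 ∧ ∀ v, nv (M.p v - c) < R → M.deg v = 6

/-- The total strain in a cap. -/
noncomputable def YY (h : ℝ) (c : V) (R : ℝ) : ℝ := ∑ d ∈ M.near c R, |M.x h d|

/-- The first edge lies in the interior of a facet. -/
def Flat (d : Φ) : Prop := T4 (M.A d) (M.B d) (M.C d) (M.C (M.s d)) = 0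

/-- `τ` is the distance to the defects, cut off at `r0`. -/
structure Tau (τ : V → ℝ) (r0 : ℝ) : Prop where
  le : ∀ x, τ x ≤ r0
  lip : ∀ x y, τ x ≤ τ y + nv (x - y)
  far : ∀ x v, M.deg v ≠ 6 → τ x ≤ nv (x - M.p v)
  eq : ∀ x, τ x = r0 ∨ ∃ v, M.deg v ≠ 6 ∧ τ x = nv (x - M.p v)

/-- The error density. -/
noncomputable def err (h : ℝ) (τ : V → ℝ) (x : V) : ℝ :=
  h ^ 2 / τ x ^ 2 + h ^ 3 / τ x ^ 3 * YY M h x (τ x / 2) + τ x * h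

end

/-- The point of height `s` and longitude `φ`. -/
noncomputable def pt (s φ : ℝ) : V := ![√(1 - s ^ 2) * cos φ, √(1 - s ^ 2) * sin φ, s]

/-- East. -/
noncomputable def ea (φ : ℝ) : V := ![-sin φ, cos φ, 0]

/-- North. -/
noncomputable def no (s φ : ℝ) : V := ![-s * cos φ, -s * sin φ, √(1 - s ^ 2)]

/-- The grid. -/
noncomputable def gp (h : ℝ) (L : ℕ) (k : ℕ × ℕ) : V :=
  pt (1 / 18 + k.1 * h) (k.2 * (2 * π / L))

/-! ### Basic facts -/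

theorem om_sq : om * om = om - 1 := by
  have h3 : √3 * √3 = 3 := Real.mul_self_sqrt (by norm_num)
  refine Complex.ext ?_ ?_
  · simp only [om, Complex.mul_re, Complex.sub_re, Complex.one_re]
    linear_combination (-1 / 4) * h3
  · simp only [om, Complex.mul_im, Complex.sub_im, Complex.one_im]
    ring

theorem om_six : om ^ 6 = 1 := by
  have := Chart.om_three
  linear_combination (om ^ 3 - 1) * this

theorem norm_om : ‖om‖ = 1 := by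
  have h := congrArg norm om_six
  rw [norm_pow, norm_one] at h
  exact (pow_eq_one_iff_of_nonneg (norm_nonneg _) (by norm_num)).1 h

theorem zz_add (x y : ℤ × ℤ) : zz (x + y) = zz x + zz y := by
  simp only [zz, Prod.fst_add, Prod.snd_add]; push_cast; ring

theorem zz_neg (x : ℤ × ℤ) : zz (-x) = -zz x := by
  simp only [zz, Prod.fst_neg, Prod.snd_neg]; push_cast; ring

theorem zz_sub (x y : ℤ × ℤ) : zz (x - y) = zz x - zz y := by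
  rw [sub_eq_add_neg, zz_add, zz_neg, sub_eq_add_neg]

theorem zz_zero : zz 0 = 0 := by simp [zz]

theorem zz_rot (x : ℤ × ℤ) : zz (rot x) = om * zz x := by
  simp only [zz, rot]; push_cast
  linear_combination (-(x.2 : ℂ)) * om_sq

theorem zz_iter (k : ℕ) (x : ℤ × ℤ) : zz (rot^[k] x) = om ^ k * zz x := by
  induction k with
  | zero => simp
  | succ k ih => rw [Function.iterate_succ_apply', zz_rot, ih]; ring

theorem norm_iter (k : ℕ) (x : ℤ × ℤ) : ‖zz (rot^[k] x)‖ = ‖zz x‖ := by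
  rw [zz_iter, norm_mul, norm_pow, norm_om, one_pow, one_mul]

theorem qf_eq (y : ℤ × ℤ) : qf y = ‖zz y‖ ^ 2 := by
  have h3 : √3 * √3 = 3 := Real.mul_self_sqrt (by norm_num)
  rw [Complex.sq_norm, Complex.normSq_apply]
  simp only [zz, om, qf, Complex.add_re, Complex.add_im, Complex.mul_re, Complex.mul_im,
    Complex.intCast_re, Complex.intCast_im]
  linear_combination (-(y.2 : ℝ) ^ 2 / 4) * h3

theorem zz_inj {x y : ℤ × ℤ} (h : zz x = zz y) : x = y := by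
  have h1 : qf (x - y) = 0 := by rw [qf_eq, zz_sub, h]; simp
  have h2 := Lat.sq_le (x - y)
  rw [h1] at h2
  have a : ((x - y).1 : ℝ) = 0 := by nlinarith [h2.1, sq_nonneg ((x - y).1 : ℝ)]
  have b : ((x - y).2 : ℝ) = 0 := by nlinarith [h2.2, sq_nonneg ((x - y).2 : ℝ)]
  exact sub_eq_zero.1 (Prod.ext (by exact_mod_cast a) (by exact_mod_cast b))

theorem mem_Lat {u : ℝ} (hu : 0 ≤ u) {y : ℤ × ℤ} : y ∈ Lat (u ^ 2) ↔ ‖zz y‖ ≤ u := by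
  rw [Lat.mem_iff, qf_eq, pow_le_pow_iff_left₀ (norm_nonneg _) hu two_ne_zero]

theorem abs_le_zz (y : ℤ × ℤ) : |(y.1 : ℝ)| ≤ 2 * ‖zz y‖ ∧ |(y.2 : ℝ)| ≤ 2 * ‖zz y‖ := by
  have h := Lat.sq_le y
  rw [qf_eq] at h
  have n := norm_nonneg (zz y)
  exact ⟨abs_le_of_sq_le_sq' (by nlinarith [h.1]) (by positivity) |> abs_le.2,
    abs_le_of_sq_le_sq' (by nlinarith [h.2]) (by positivity) |> abs_le.2⟩

theorem zz_le_abs (y : ℤ × ℤ) : ‖zz y‖ ≤ |(y.1 : ℝ)| + |(y.2 : ℝ)| := by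
  refine (norm_add_le _ _).trans ?_
  rw [norm_mul, norm_om, mul_one, Complex.norm_intCast, Complex.norm_intCast]

theorem card_Lat {u : ℝ} (hu : 100 ≤ u) :
    3 * u ^ 2 ≤ ((Lat (u ^ 2)).card : ℝ) ∧ ((Lat (u ^ 2)).card : ℝ) ≤ 6 * u ^ 2 := by
  refine ⟨?_, (Cap.moment latS hu).1⟩
  have h := (latS (u ^ 2) (by positivity)).2.2.1
  rw [Real.sqrt_sq (by linarith)] at h
  nlinarith [mul_le_mul_of_nonneg_right Cap.const_ge (sq_nonneg u)]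

theorem mm_ge {u : ℝ} (hu : 100 ≤ u) : u ^ 4 / 8 ≤ mm u := by
  have h := (Cap.moment latS hu).2
  have u0 : 0 < u := by linarith
  have k : ∑ y ∈ Lat (u ^ 2), qf y ^ 2 ≤ u ^ 2 * mm u := by
    rw [mm, Finset.mul_sum]
    refine Finset.sum_le_sum fun y hy => ?_
    rw [sq (qf y)]
    exact mul_le_mul_of_nonneg_right ((Lat.mem_iff _ y).1 hy) (Cap.qf_nonneg y)
  refine le_of_mul_le_mul_left ?_ (pow_pos u0 2)
  calc u ^ 2 * (u ^ 4 / 8) = u ^ 6 / 8 := by ring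
    _ ≤ _ := h.trans k

theorem pt_unit {s : ℝ} (hs : |s| ≤ 1) (φ : ℝ) : ip (pt s φ) (pt s φ) = 1 := by
  have h1 : √(1 - s ^ 2) * √(1 - s ^ 2) = 1 - s ^ 2 :=
    Real.mul_self_sqrt (by nlinarith [abs_le.1 hs])
  simp only [ip, pt, Matrix.cons_val_zero, Matrix.cons_val_one, Matrix.cons_val_two,
    Matrix.head_cons, Matrix.tail_cons]
  linear_combination (cos φ ^ 2 + sin φ ^ 2) * h1 + (1 - s ^ 2) * sin_sq_add_cos_sq φ

theorem abs_two_le (x : V) : |x 2| ≤ nv x :=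
  abs_le_of_sq_le_sq' (by rw [nv_sq]; unfold ip; nlinarith [sq_nonneg (x 0), sq_nonneg (x 1)])
    (nv_nonneg x) |> abs_le.2

section
variable {ι Φ : Type} [Fintype ι] [Fintype Φ] (M : Mesh ι Φ)

theorem cp_zero (d : Φ) : cp M d 0 = M.A d := by simp [cp, Mesh.ch]

theorem cp_unit (d : Φ) (y : ℤ × ℤ) : ip (cp M d y) (cp M d y) = 1 := M.uA _

theorem cp_near {ℓ : ℝ} (h0 : 0 ≤ ℓ) (hl : ∀ d, M.sq d ≤ ℓ ^ 2) (d : Φ) (y : ℤ × ℤ) :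
    nv (cp M d y - M.A d) ≤ 4 * ‖zz y‖ * ℓ := by
  refine (((chartS orbS devS) ι Φ M ℓ h0 hl).1 d y.1 y.2).1.trans ?_
  exact mul_le_mul_of_nonneg_right (by linarith [(abs_le_zz y).1, (abs_le_zz y).2]) h0

theorem YY_nonneg (h : ℝ) (c : V) (R : ℝ) : 0 ≤ YY M h c R :=
  Finset.sum_nonneg fun _ _ => abs_nonneg _

theorem YY_mono (h : ℝ) {c c' : V} {R R' : ℝ} (k : nv (c - c') + R ≤ R') :
    YY M h c R ≤ YY M h c' R' :=
  Finset.sum_le_sum_of_subset_of_nonneg (fun d hd => (Cap.mem_near M).2 (by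
    linarith [(Cap.mem_near M).1 hd, nv_tri (M.A d) c c'])) fun _ _ _ => abs_nonneg _

end

/-! ### Rows -/

/-- GRP: the group law of the charts. -/
def GrpS : Prop := ∀ (ι Φ : Type) [Fintype ι] [Fintype Φ] (M : Mesh ι Φ) (ℓ : ℝ), 0 ≤ ℓ →
  (∀ d, M.sq d ≤ ℓ ^ 2) → ∀ (c : V) (R N : ℝ) (d : Φ), Free M c R → 0 ≤ N →
    nv (M.A d - c) + (100 * N + 100) * ℓ < R →
    (∀ y, ‖zz y‖ ≤ N → cp M d (y + (1, 0)) = M.B (M.ch y.1 y.2 d) ∧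
      cp M d (y + (0, 1)) = M.C (M.ch y.1 y.2 d)) ∧
    (∀ y y', ‖zz y‖ ≤ N → ‖zz y'‖ ≤ N →
      M.tl (M.ch y.1 y.2 d) = M.tl (M.ch y'.1 y'.2 d) → y = y') ∧
    ∀ d' y y', ‖zz y‖ ≤ N → ‖zz y'‖ ≤ N → M.tl (M.ch y.1 y.2 d) = M.tl (M.ch y'.1 y'.2 d') →
      ∃ (j : ℕ) (y0 : ℤ × ℤ), ‖zz y0‖ ≤ 2 * N ∧
        ∀ x, ‖zz x‖ ≤ N → cp M d' x = cp M d (y0 + rot^[j] x)

/-- CNT: the number of regular vertices in a small cap. -/
def CntS : Prop := Unif fun {ι} _ _ _ M h C => ∀ (c a : V) (s R : ℝ), ip a a = 1 → 0 ≤ s →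
  s ≤ 1 → nv (a - c) + √s + 48 * h ≤ R → ∀ U : Finset ι,
    (∀ v ∈ U, M.deg v = 6 ∧ ip (M.p v - a) (M.p v - a) ≤ s) →
    (U.card : ℝ) ≤ 2 * π / √3 * (s / h ^ 2) + C * (√s / h + 1 + YY M h c R)

/-- UPB: chords are not much longer than in the lattice. -/
def UpbS : Prop := ∀ (ι Φ : Type) [Fintype ι] [Fintype Φ] (M : Mesh ι Φ) (h : ℝ), M.Fine h →
  ∀ (c : V) (R t : ℝ) (d : Φ), Free M c R → 1 ≤ t → nv (M.A d - c) + 10 ^ 5 * t * h ≤ R →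
    ∀ v, ‖zz v‖ ≤ t → ∑ y ∈ Lat (t ^ 2),
      max (ip (cp M d (y + v) - cp M d y) (cp M d (y + v) - cp M d y) - h ^ 2 * qf v) 0 ≤
        3 * h ^ 2 * t ^ 2 * YY M h c R

/-- RIG: rigidity in the mean. -/
def RigS : Prop := Unif fun M h C => ∀ (c : V) (R t : ℝ) d, Free M c R → 100 ≤ t →
  nv (M.A d - c) + 10 ^ 5 * t * h ≤ R → dev (cp M d) h t ≤ C * h ^ 2 * t ^ 4 * (t + YY M h c R)

/-- SYM: a priori bounds and rotations. -/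
def SymS : Prop := ∀ (P : ℤ × ℤ → V) (h u : ℝ) (y0 : ℤ × ℤ), 0 < h → 100 ≤ u →
  (∀ (x : V) (ρ : ℝ), (∀ y, ‖zz y‖ ≤ u → nv (P (y0 + y) - x) ≤ ρ) →
    (∀ e, ip e e = 1 → ‖av P h u y0 e‖ ≤ 96 * ρ / (h * u)) ∧
    (ip x x = 1 → (∀ y, ip (P y) (P y) = 1) → ‖av P h u y0 x‖ ≤ 48 * ρ ^ 2 / (h * u))) ∧
  ∀ (Q : ℤ × ℤ → V) (j : ℕ), (∀ y, ‖zz y‖ ≤ u → Q y = P (y0 + rot^[j] y)) →
    ∀ e, av Q h u 0 e = om ^ j * av P h u y0 e

/-- GRAM: the products of two mean directions. -/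
def GramS : Prop := ∀ (P : ℤ × ℤ → V) (h t u u' : ℝ) (y0 y0' : ℤ × ℤ) (a b c : V), 0 < h →
  100 ≤ u → 100 ≤ u' → ‖zz y0‖ + u ≤ t / 2 → ‖zz y0'‖ + u' ≤ t / 2 → Onb a b c →
    ‖av P h u y0 a * (starRingEnd ℂ) (av P h u' y0' a) +
      av P h u y0 b * (starRingEnd ℂ) (av P h u' y0' b) +
      av P h u y0 c * (starRingEnd ℂ) (av P h u' y0' c) - 2‖ ≤
        128 * dev P h t / (h ^ 2 * u ^ 3 * u' ^ 3) ∧
    ‖av P h u y0 a * av P h u' y0' a + av P h u y0 b * av P h u' y0' b +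
      av P h u y0 c * av P h u' y0' c‖ ≤ 128 * dev P h t / (h ^ 2 * u ^ 3 * u' ^ 3)

/-- ALG: two nearly isotropic vectors with product near two. -/
def AlgS : Prop := ∃ C : ℝ, 0 < C ∧ ∀ (a1 a2 a3 b1 b2 b3 : ℂ) (ε : ℝ),
  ‖a1 * (starRingEnd ℂ) a1 + a2 * (starRingEnd ℂ) a2 + a3 * (starRingEnd ℂ) a3 - 2‖ ≤ ε →
  ‖b1 * (starRingEnd ℂ) b1 + b2 * (starRingEnd ℂ) b2 + b3 * (starRingEnd ℂ) b3 - 2‖ ≤ ε →
  ‖a1 * (starRingEnd ℂ) b1 + a2 * (starRingEnd ℂ) b2 + a3 * (starRingEnd ℂ) b3 - 2‖ ≤ ε →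
  ‖a1 * a1 + a2 * a2 + a3 * a3‖ ≤ ε → ‖b1 * b1 + b2 * b2 + b3 * b3‖ ≤ ε →
  ‖a3‖ ^ 2 ≤ ε → ‖b3‖ ^ 2 ≤ ε →
    ‖(a1 + Complex.I * a2) - (b1 + Complex.I * b2)‖ ≤ C * ε ∧
    ‖(a1 - Complex.I * a2) - (b1 - Complex.I * b2)‖ ≤ C * ε ∧
    4 ≤ ‖a1 + Complex.I * a2‖ ^ 2 + ‖a1 - Complex.I * a2‖ ^ 2 + C * ε

/-- CMP: two charts have a common vertex. -/
def CmpS : Prop := Unif fun M h C => ∀ (c : V) (R U : ℝ) d d', Free M c R → 100 ≤ U →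
  nv (M.A d - c) ≤ U * h → nv (M.A d' - c) ≤ U * h → 10 ^ 10 * U * h ≤ R →
  C * (U + YY M h c R) ≤ U ^ 2 → ∃ y y', ‖zz y‖ ≤ 5000 * U ∧ ‖zz y'‖ ≤ 5000 * U ∧
    M.tl (M.ch y.1 y.2 d) = M.tl (M.ch y'.1 y'.2 d')

/-- LOC: the mean directions of two charts in one cap. -/
def LocS : Prop := Unif fun M h C => ∀ (a b c : V) (R U u u' : ℝ) d d', Free M c R → Onb a b c →
  200 ≤ U → U / 2 ≤ u → u ≤ 2 * U → U / 2 ≤ u' → u' ≤ 2 * U →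
  nv (M.A d - c) ≤ U * h → nv (M.A d' - c) ≤ U * h → 10 ^ 10 * U * h ≤ R →
    (‖av (cp M d') h u' 0 a‖ ≤ C ∧ ‖av (cp M d') h u' 0 b‖ ≤ C ∧
      ‖av (cp M d') h u' 0 c‖ ≤ C * (U * h)) ∧
    4 ≤ ‖av (cp M d) h u 0 a + Complex.I * av (cp M d) h u 0 b‖ ^ 2 +
      ‖av (cp M d) h u 0 a - Complex.I * av (cp M d) h u 0 b‖ ^ 2 +
      C * ((U + YY M h c R) / U ^ 2 + (U * h) ^ 2) ∧
    ∃ w : ℂ, w ^ 6 = 1 ∧
      ‖w * (av (cp M d) h u 0 a + Complex.I * av (cp M d) h u 0 b) -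
        (av (cp M d') h u' 0 a + Complex.I * av (cp M d') h u' 0 b)‖ ≤
          C * ((U + YY M h c R) / U ^ 2 + (U * h) ^ 2) ∧
      ‖w * (av (cp M d) h u 0 a - Complex.I * av (cp M d) h u 0 b) -
        (av (cp M d') h u' 0 a - Complex.I * av (cp M d') h u' 0 b)‖ ≤
          C * ((U + YY M h c R) / U ^ 2 + (U * h) ^ 2)

/-- FRM: the moving frame along a parallel. -/
def FrmS : Prop := ∀ s φ Δ : ℝ, |s| ≤ 1 → |Δ| ≤ 1 → Onb (ea φ) (no s φ) (pt s φ) ∧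
  nv (pt s (φ + Δ) - pt s φ) ≤ |Δ| ∧
  ∀ (P : ℤ × ℤ → V) (h u B g : ℝ), ‖av P h u 0 (ea φ)‖ ≤ B → ‖av P h u 0 (no s φ)‖ ≤ B →
    ‖av P h u 0 (pt s φ)‖ ≤ g →
    ‖av P h u 0 (ea (φ + Δ)) + Complex.I * av P h u 0 (no s (φ + Δ)) -
      Complex.exp (((-(s * Δ) : ℝ) : ℂ) * Complex.I) *
        (av P h u 0 (ea φ) + Complex.I * av P h u 0 (no s φ))‖ ≤ 10 * (B * Δ ^ 2 + g * |Δ|) ∧
    ‖av P h u 0 (ea (φ + Δ)) - Complex.I * av P h u 0 (no s (φ + Δ)) -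
      Complex.exp (((s * Δ : ℝ) : ℂ) * Complex.I) *
        (av P h u 0 (ea φ) - Complex.I * av P h u 0 (no s φ))‖ ≤ 10 * (B * Δ ^ 2 + g * |Δ|)

/-- CHN: chains of variable step, holonomy, the nearest flag, the distance to the defects. -/
def ChnS : Prop :=
  (∀ (ξ : ℕ → ℂ) (lam : ℂ) (n : ℕ → ℕ) (e : ℕ → ℝ) (L : ℕ), ‖lam‖ = 1 → (∀ l, 0 ≤ e l) →
    (∀ l, 1 ≤ n l ∧ n l ≤ L ∧ ∀ k ≤ n l,
      ‖ξ (l + k) - lam ^ k * ξ l‖ ≤ ∑ m ∈ Finset.Ico l (l + n l), e m) →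
    ‖ξ L - lam ^ L * ξ 0‖ ≤ ∑ m ∈ Finset.range (2 * L), e m) ∧
  (∀ s : ℝ, 1 / 18 ≤ |s| → |s| ≤ 1 / 9 →
    1 ≤ ‖1 - Complex.exp (((s * (2 * π) : ℝ) : ℂ) * Complex.I) ^ 6‖) ∧
  (∀ (a b w : ℂ) (B : ℝ), w ^ 6 = 1 → ‖a‖ ≤ B → ‖b‖ ≤ B →
    ‖b ^ 6 - a ^ 6‖ ≤ 6 * B ^ 5 * ‖b - w * a‖) ∧
  ∀ (ι Φ : Type) [Fintype ι] [Fintype Φ] (M : Mesh ι Φ),
    (∀ h, M.Fine h → h ≤ 1 / 100 → ∀ c, ip c c = 1 → ∃ d, nv (M.A d - c) ≤ 100 * h) ∧
    ∀ r0, ∃ τ, Tau M τ r0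

/-- PAR: the holonomy along one parallel. -/
def ParS : Prop := Unif fun M h C => ∀ (τ : V → ℝ) (r0 s : ℝ) (L : ℕ), Tau M τ r0 → r0 ≤ 1 →
  1 / 18 ≤ s → s ≤ 1 / 9 → 1 ≤ L * h → L * h ≤ 2 → (∀ φ, C * h ≤ τ (pt s φ)) →
    1 ≤ C * ∑ l ∈ Finset.range (2 * L), err M h τ (pt s (l * (2 * π / L)))

open Classical in
/-- GRD: the number of grid points in a ball. -/
def GrdS : Prop := ∃ C : ℝ, 0 < C ∧ ∀ (h r : ℝ) (I L : ℕ) (x : V), 0 < h → I * h ≤ 1 / 18 →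
  1 ≤ L * h → L * h ≤ 2 → h ≤ r →
    (((Finset.range I ×ˢ Finset.range (2 * L)).filter fun k => nv (gp h L k - x) ≤ r).card : ℝ) ≤
      C * (r / h) ^ 2

open Classical in
/-- SMA: the strain weighted by the inverse distance to the defects. -/
def SmaS : Prop := Unif fun M h C => ∀ (τ : V → ℝ) (r0 η : ℝ), Tau M τ r0 → 0 < r0 →
  480 * h ≤ η → ∑ d ∈ Finset.univ.filter fun d => η ≤ τ (M.A d), |M.x h d| / τ (M.A d) ≤
    C * (√(M.W h) * √(1 / r0 ^ 2 + M.defects.card * log (1 / h)) / h + M.W h / η)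

/-- SMB: the error density summed over grid points far from the defects. -/
def SmbS : Prop := Unif fun M h C => ∀ (τ : V → ℝ) (r0 η : ℝ) (I L : ℕ) (G : Finset (ℕ × ℕ)),
  Tau M τ r0 → 0 < r0 → r0 ≤ 1 → 960 * h ≤ η → I * h ≤ 1 / 18 → 1 ≤ L * h → L * h ≤ 2 →
  G ⊆ Finset.range I ×ˢ Finset.range (2 * L) → (∀ k ∈ G, η ≤ τ (gp h L k)) →
    h * ∑ k ∈ G, err M h τ (gp h L k) ≤
      C * (h / r0 ^ 2 + r0 + M.defects.card * h * log (1 / h) + h ^ 2 * M.W h / η +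
        h * √(M.W h) * √(1 / r0 ^ 2 + M.defects.card * log (1 / h)))

/-- LOW: many defects. -/
def LowerS : Prop := ∀ G : ℝ, 0 < G → Unif fun M h C =>
  h * M.W h ≤ G * log (1 / h) → 1 ≤ C * (M.defects.card * h * log (1 / h) ^ 2)

/-- FLT: a flat edge carries strain. -/
def FltS : Prop := Unif fun M h C => ∀ d, Flat M d → 1 ≤ C * (M.X2 h d + M.X2 h (M.s d))

/-- EDG: without flat edges the valence is the degree. -/
def EdgS : Prop := ∀ (ι Φ : Type) [Fintype ι] [Fintype Φ] (M : Mesh ι Φ) (v : ι),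
  (∀ d, M.tl d = v → ¬Flat M d) → M.deg v ≤
    valence (convexHull ℝ (range ((WithLp.toLp 2 : V → E3) ∘ M.p))) (WithLp.toLp 2 (M.p v))

/-- The theorem. -/
def MainS : Prop := ∃ (c C : ℝ) (K₀ : ℕ), 0 < c ∧ 0 < C ∧ ∀ K : ℕ, K₀ ≤ K →
  (∃ P : Set E3, IsMaxVol K P) ∧ ∀ P : Set E3, IsMaxVol K P →
    c * √(K : ℝ) / Real.log K ^ 2 ≤
      ({v | v ∈ P.extremePoints ℝ ∧ valence P v ≤ 5}.ncard : ℝ) ∧
    ({v | v ∈ P.extremePoints ℝ ∧ valence P v ≠ 6}.ncard : ℝ) ≤ C * √(K : ℝ) * Real.log K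

end Pool.Agent.MP_2ab689_gt.Hol
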