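import Pool.Agent.MP_2ab689_gt.Hol.Spec

/-! PROJECT HOL, row SYM: a priori bounds for the mean direction, and rotations. -/

namespace Pool.Agent.MP_2ab689_gt.Hol

open Pool.Agent.MP_2ab689_gt.Big Real Set

namespace SymA

theorem sum_zero {u : ℝ} (hu : 0 ≤ u) : ∑ y ∈ Lat (u ^ 2), (starRingEnd ℂ) (zz y) = 0 := by
  have k : ∀ y ∈ Lat (u ^ 2), -y ∈ Lat (u ^ 2) := fun y hy => by
    rw [mem_Lat hu] at hy ⊢
    rwa [zz_neg, norm_neg]
  have h : ∑ y ∈ Lat (u ^ 2), (starRingEnd ℂ) (zz y) =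
      ∑ y ∈ Lat (u ^ 2), -(starRingEnd ℂ) (zz y) :=
    Finset.sum_nbij' (fun y => -y) (fun y => -y) k k (fun _ _ => neg_neg _) (fun _ _ => neg_neg _)
      fun y _ => by rw [zz_neg, map_neg, neg_neg]
  rw [Finset.sum_neg_distrib] at h
  linear_combination (1 / 2 : ℂ) * h

theorem core {h u κ B : ℝ} (hh : 0 < h) (hu : 100 ≤ u) {f : ℤ × ℤ → ℝ}
    (hf : ∀ y, ‖zz y‖ ≤ u → |f y - κ| ≤ B) :
    ‖((2 / (h * mm u) : ℝ) : ℂ) * ∑ y ∈ Lat (u ^ 2), (starRingEnd ℂ) (zz y) * (f y : ℂ)‖ ≤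
      96 * B / (h * u) := by
  have u0 : 0 < u := by linarith
  have B0 : 0 ≤ B := (abs_nonneg _).trans (hf 0 (by rw [zz_zero, norm_zero]; exact u0.le))
  have m := mm_ge hu
  have m0 : 0 < u ^ 4 / 8 := by positivity
  have e : ∑ y ∈ Lat (u ^ 2), (starRingEnd ℂ) (zz y) * (f y : ℂ) =
      ∑ y ∈ Lat (u ^ 2), (starRingEnd ℂ) (zz y) * ((f y - κ : ℝ) : ℂ) := by
    simp only [Complex.ofReal_sub, mul_sub, Finset.sum_sub_distrib, ← Finset.sum_mul,
      sum_zero u0.le, zero_mul, sub_zero]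
  have k : ‖∑ y ∈ Lat (u ^ 2), (starRingEnd ℂ) (zz y) * ((f y - κ : ℝ) : ℂ)‖ ≤
      6 * u ^ 2 * (u * B) := by
    refine (norm_sum_le _ _).trans ((Finset.sum_le_card_nsmul _ _ (u * B) fun y hy => ?_).trans ?_)
    · rw [mem_Lat u0.le] at hy
      rw [norm_mul, RCLike.norm_conj, Complex.norm_real, Real.norm_eq_abs]
      exact mul_le_mul hy (hf y hy) (abs_nonneg _) u0.le
    · rw [nsmul_eq_mul]
      exact mul_le_mul_of_nonneg_right (card_Lat hu).2 (by positivity)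
  rw [e, norm_mul, Complex.norm_real, Real.norm_eq_abs,
    abs_of_pos (div_pos two_pos (mul_pos hh (m0.trans_le m)))]
  calc _ ≤ 2 / (h * (u ^ 4 / 8)) * (6 * u ^ 2 * (u * B)) := by gcongr
    _ = _ := by field_simp; ring

end SymA

open SymA in
theorem symS : SymS := by
  intro P h u y0 hh hu
  have u0 : 0 ≤ u := by linarith
  refine ⟨fun x ρ hρ => ⟨fun e he => core hh hu (κ := ip x e) fun y hy => ?_, fun hx hP => ?_⟩,
    fun Q j hQ e => ?_⟩
  · rw [← ip_sub_left]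
    exact (abs_ip_le _ _).trans (by rw [nv_eq_one he, mul_one]; exact hρ y hy)
  · refine (core hh hu (κ := 1) (B := ρ ^ 2 / 2) fun y hy => ?_).trans_eq (by ring)
    have a := ip_sub_unit (hP (y0 + y)) hx
    have b := pow_le_pow_left₀ (nv_nonneg _) (hρ y hy) 2
    have c := sq_nonneg (nv (P (y0 + y) - x))
    rw [nv_sq] at b c
    exact abs_le.2 ⟨by linarith, by linarith [sq_nonneg ρ]⟩
  · have k : ∀ n, ∀ y ∈ Lat (u ^ 2), rot^[n] y ∈ Lat (u ^ 2) := fun n y hy => by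
      rw [mem_Lat u0] at hy ⊢
      rwa [norm_iter]
    have o : om ^ j * (starRingEnd ℂ) (om ^ j) = 1 := by
      rw [Complex.mul_conj', norm_pow, norm_om, one_pow, Complex.ofReal_one, one_pow]
    have six : om ^ (5 * j) * om ^ j = 1 := by
      rw [← pow_add, show 5 * j + j = 6 * j by ring, pow_mul, om_six, one_pow]
    rw [av, av, mul_left_comm, Finset.mul_sum _ _ (om ^ j)]
    refine congrArg _ (Finset.sum_nbij' (rot^[j]) (rot^[5 * j]) (k j) (k _)
      (fun y _ => zz_inj ?_) (fun y _ => zz_inj ?_) fun y hy => ?_)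
    · rw [zz_iter, zz_iter, ← mul_assoc, six, one_mul]
    · rw [zz_iter, zz_iter, ← mul_assoc, mul_comm (om ^ j), six, one_mul]
    · rw [zero_add, hQ y ((mem_Lat u0).1 hy), zz_iter, map_mul, ← mul_assoc, ← mul_assoc, o,
        one_mul]

end Pool.Agent.MP_2ab689_gt.Hol
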