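import Pool.Agent.MP_2ab689_gt.Hol.Spec

/-!
Row UPB: chords are not much longer than in the lattice.
-/

namespace Pool.Agent.MP_2ab689_gt.Hol

open Pool.Agent.MP_2ab689_gt.Big Real Set

namespace UpbA

theorem sum_inj {α Φ : Type} (S : Finset α) (T : Finset Φ) (g : α → Φ) (f : Φ → ℝ)
    (hf : ∀ d, 0 ≤ f d) (hi : Set.InjOn g S) (h : ∀ y ∈ S, g y ∈ T) :
    ∑ y ∈ S, f (g y) ≤ ∑ d ∈ T, f d := by
  classical
  rw [← Finset.sum_image hi]
  refine Finset.sum_le_sum_of_subset_of_nonneg (fun e he => ?_) fun e _ _ => hf e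
  obtain ⟨y, hy, rfl⟩ := Finset.mem_image.mp he
  exact h y hy

theorem n10 : ‖zz (1, 0)‖ ≤ 1 := (zz_le_abs _).trans (by simp)

theorem n01 : ‖zz (0, 1)‖ ≤ 1 := (zz_le_abs _).trans (by simp)

theorem nadd {x y : ℤ × ℤ} {a b : ℝ} (hx : ‖zz x‖ ≤ a) (hy : ‖zz y‖ ≤ b) :
    ‖zz (x + y)‖ ≤ a + b := by
  rw [zz_add]; exact (norm_add_le _ _).trans (add_le_add hx hy)

/-- The first shift of a cell. -/
def w0 (up : Bool) : ℤ × ℤ := if up = true then 0 else (0, 1)

/-- The second shift of a cell. -/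
def w1 (up : Bool) : ℤ × ℤ := if up = true then 0 else (1, 0)

theorem nw0 (up : Bool) : ‖zz (w0 up)‖ ≤ 1 := by
  cases up
  · exact n01
  · simp [w0, zz_zero]

theorem nw1 (up : Bool) : ‖zz (w1 up)‖ ≤ 1 := by
  cases up
  · exact n10
  · simp [w1, zz_zero]

variable {ι Φ : Type} [Fintype ι] [Fintype Φ] (M : Mesh ι Φ)

/-- The flag at a lattice point. -/
def fl (d : Φ) (y : ℤ × ℤ) : Φ := M.ch y.1 y.2 d

theorem cell {h N : ℝ} (hh : 0 < h) (d : Φ)
    (H : ∀ y, ‖zz y‖ ≤ N → cp M d (y + (1, 0)) = M.B (fl M d y) ∧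
      cp M d (y + (0, 1)) = M.C (fl M d y))
    (y : ℤ × ℤ) (i j a b : ℤ) (up : Bool) (hz : ‖zz (y + (a, b))‖ + 1 ≤ N) :
    ip (Chord.cv (fun a b => cp M d (y + (a, b))) i j a b up)
        (Chord.cv (fun a b => cp M d (y + (a, b))) i j a b up) ≤
      h ^ 2 * qf (i, j) * (1 + |M.x h (fl M d (y + ((a, b) + w0 up)))| +
        |M.x h (M.φ (M.φ (fl M d (y + ((a, b) + w1 up)))))| +
        |M.x h (M.φ (fl M d (y + (a, b))))|) := by
  have e1 : y + (a + 1, b) = y + (a, b) + (1, 0) := by ext <;> simp [add_assoc]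
  have e2 : y + (a, b + 1) = y + (a, b) + (0, 1) := by ext <;> simp [add_assoc]
  have e3 : y + (a + 1, b + 1) = y + (a, b) + (1, 0) + (0, 1) := by ext <;> simp [add_assoc]
  simp only [Chord.cv, e1, e2, e3, ← add_assoc y]
  generalize y + (a, b) = z at hz ⊢
  have hA : ∀ u, cp M d u = M.A (fl M d u) := fun u => rfl
  have l0 : ∀ u, ‖zz u‖ ≤ N → ip (cp M d (u + (1, 0)) - cp M d u) (cp M d (u + (1, 0)) - cp M d u) =
      h ^ 2 * (1 + M.x h (fl M d u)) := by
    intro u hu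
    rw [← Chord.sq_x M hh, (H u hu).1, hA, Mesh.sq, Chord.ip_swap]
  have l1 : ∀ u, ‖zz u‖ ≤ N → ip (cp M d (u + (0, 1)) - cp M d u) (cp M d (u + (0, 1)) - cp M d u) =
      h ^ 2 * (1 + M.x h (M.φ (M.φ (fl M d u)))) := by
    intro u hu
    rw [← Chord.sq_x M hh, (H u hu).2, hA, Mesh.sq, M.A_φ, M.B_φ, M.B_φ, M.C_φ]
  have z0 : ‖zz z‖ ≤ N := by linarith
  have z1 : ‖zz (z + (1, 0))‖ ≤ N := (nadd le_rfl n10).trans hz
  have z2 : ‖zz (z + (0, 1))‖ ≤ N := (nadd le_rfl n01).trans hz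
  have l2 : ip (cp M d (z + (1, 0)) - cp M d (z + (0, 1)))
      (cp M d (z + (1, 0)) - cp M d (z + (0, 1))) = h ^ 2 * (1 + M.x h (M.φ (fl M d z))) := by
    rw [← Chord.sq_x M hh, (H z z0).1, (H z z0).2, Mesh.sq, M.A_φ, M.B_φ]
  cases up with
  | true =>
    simp only [if_true, w0, w1, add_zero]
    refine Chord.tri _ _ _ _ _ _ _ _ (l0 z z0) (l1 z z0) ?_
    rw [sub_sub_sub_cancel_right]
    exact l2
  | false =>
    simp only [Bool.false_eq_true, if_false, w0, w1]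
    refine Chord.tri _ _ _ _ _ _ _ _ ?_ (l1 _ z1) ?_
    · rw [add_right_comm]
      exact l0 _ z2
    · rw [sub_sub_sub_cancel_left]
      exact l2

end UpbA

open UpbA in
theorem upbS (h1 : GrpS) : UpbS := by
  rintro ι Φ _ _ M h hF c R t d hfree ht hR ⟨i, j⟩ hv
  have hh := hF.pos
  have hl : 0 ≤ 48 * h := by linarith
  have hth : h ≤ t * h := le_mul_of_one_le_left hh.le ht
  obtain ⟨G1, G2, -⟩ := h1 ι Φ M (48 * h) hl hF.edge c R (10 * t) d hfree (by linarith)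
    (by nlinarith)
  have hnear : ∀ u, ‖zz u‖ ≤ 10 * t → nv (cp M d u - c) ≤ R := by
    intro u hu
    have k1 := cp_near M hl hF.edge d u
    have k2 := nv_tri (cp M d u) (M.A d) c
    have k3 := mul_le_mul_of_nonneg_right hu hh.le
    nlinarith
  have hsum : ∀ (σ : Φ → Φ) (w : ℤ × ℤ), Function.Injective σ → ‖zz w‖ ≤ 8 * t →
      (∀ u, ‖zz u‖ ≤ 9 * t → nv (M.A (σ (fl M d u)) - c) ≤ R) →
      ∑ y ∈ Lat (t ^ 2), |M.x h (σ (fl M d (y + w)))| ≤ YY M h c R := by
    intro σ w hσ hw hn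
    have hb : ∀ y ∈ Lat (t ^ 2), ‖zz (y + w)‖ ≤ 9 * t := fun y hy =>
      (nadd ((mem_Lat (by linarith)).1 hy) hw).trans (by linarith)
    refine sum_inj _ _ (fun y => σ (fl M d (y + w))) (fun e => |M.x h e|)
      (fun _ => abs_nonneg _) (fun y hy y' hy' e => ?_)
      fun y hy => (Chord.mem_near M).2 (hn _ (hb y hy))
    exact add_right_cancel (G2 (y + w) (y' + w) ((hb y hy).trans (by linarith))
      ((hb y' hy').trans (by linarith)) (congrArg M.tl (hσ e)))
  have s0 := fun w hw => hsum id w Function.injective_id hw fun u hu =>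
    hnear u (by linarith)
  have s1 := fun w hw => hsum (fun e => M.φ (M.φ e)) w (M.φ.injective.comp M.φ.injective) hw
    fun u hu => by
      show nv (M.C (M.ch u.1 u.2 d) - c) ≤ R
      rw [← (G1 u (by linarith)).2]
      exact hnear _ ((nadd hu n01).trans (by linarith))
  have s2 := fun w hw => hsum M.φ w M.φ.injective hw
    fun u hu => by
      show nv (M.B (M.ch u.1 u.2 d) - c) ≤ R
      rw [← (G1 u (by linarith)).1]
      exact hnear _ ((nadd hu n10).trans (by linarith))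
  obtain ⟨N, a, b, up, hN, hab, hP⟩ := Chord.seg segS i j
  have hN' : (0 : ℝ) < N := by exact_mod_cast hN
  have hc : ∀ k ∈ Finset.range N, ‖zz (a k, b k)‖ ≤ 6 * t := by
    intro k hk
    obtain ⟨k1, k2⟩ := hab k (Finset.mem_range.mp hk)
    have k1' : |((a k : ℤ) : ℝ)| ≤ |(i : ℝ)| + 1 := by exact_mod_cast k1
    have k2' : |((b k : ℤ) : ℝ)| ≤ |(j : ℝ)| + 1 := by exact_mod_cast k2
    have k3 := abs_le_zz (i, j)
    have k4 := zz_le_abs (a k, b k)
    simp only at k3 k4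
    linarith [k3.1, k3.2]
  have hq0 : 0 ≤ h ^ 2 * qf (i, j) := mul_nonneg (sq_nonneg h) (Chord.qf_nonneg _)
  have hq1 : qf (i, j) ≤ t ^ 2 := by
    rw [qf_eq]; exact pow_le_pow_left₀ (norm_nonneg _) hv 2
  let g : ℕ → ℤ × ℤ → ℝ := fun k y => |M.x h (fl M d (y + ((a k, b k) + w0 (up k))))| +
    |M.x h (M.φ (M.φ (fl M d (y + ((a k, b k) + w1 (up k))))))| +
    |M.x h (M.φ (fl M d (y + (a k, b k))))|
  have hg : ∀ k ∈ Finset.range N, ∑ y ∈ Lat (t ^ 2), g k y ≤ 3 * YY M h c R := by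
    intro k hk
    have t0 := s0 _ ((nadd (hc k hk) (nw0 (up k))).trans (by linarith))
    have t1 := s1 _ ((nadd (hc k hk) (nw1 (up k))).trans (by linarith))
    have t2 := s2 _ ((hc k hk).trans (by linarith))
    simp only [g, Finset.sum_add_distrib]
    simp only [id] at t0
    linarith
  have hy : ∀ y ∈ Lat (t ^ 2), N * max (ip (cp M d (y + (i, j)) - cp M d y)
      (cp M d (y + (i, j)) - cp M d y) - h ^ 2 * qf (i, j)) 0 ≤
        h ^ 2 * qf (i, j) * ∑ k ∈ Finset.range N, g k y := by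
    intro y hy
    have y1 := (mem_Lat (by linarith)).1 hy
    have k1 := hP fun a b => cp M d (y + (a, b))
    have k2 : ∀ k ∈ Finset.range N, _ ≤ h ^ 2 * qf (i, j) * (1 + g k y) := fun k hk =>
      (cell M hh d G1 y i j (a k) (b k) (up k) (by linarith [nadd y1 (hc k hk)])).trans
        (le_of_eq (by simp only [g]; ring))
    have k3 := k1.trans (Finset.sum_le_sum k2)
    rw [← Finset.mul_sum, Finset.sum_add_distrib, Finset.sum_const, Finset.card_range,
      nsmul_eq_mul, mul_one] at k3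
    have e0 : y + ((0 : ℤ), (0 : ℤ)) = y := add_zero y
    simp only [e0] at k3
    rw [mul_max_of_nonneg _ _ hN'.le, mul_zero]
    refine max_le (by linarith) (mul_nonneg hq0 (Finset.sum_nonneg fun k _ => ?_))
    simp only [g]; positivity
  refine le_of_mul_le_mul_left ?_ hN'
  rw [Finset.mul_sum]
  refine (Finset.sum_le_sum hy).trans ?_
  rw [← Finset.mul_sum, Finset.sum_comm]
  have k4 := Finset.sum_le_sum hg
  rw [Finset.sum_const, Finset.card_range, nsmul_eq_mul] at k4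
  have hY := YY_nonneg M h c R
  calc _ ≤ h ^ 2 * qf (i, j) * (N * (3 * YY M h c R)) := mul_le_mul_of_nonneg_left k4 hq0
    _ ≤ h ^ 2 * t ^ 2 * (N * (3 * YY M h c R)) :=
      mul_le_mul_of_nonneg_right (mul_le_mul_of_nonneg_left hq1 (sq_nonneg h)) (by positivity)
    _ = _ := by ring

end Pool.Agent.MP_2ab689_gt.Hol
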